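import Mathlib

open Cardinal

universe u v

namespace Pool.Agent.Helper142.RatEnd

/-- `multiple n s` is the sum `s + s + ⋯ + s` of `n + 1` copies of `s`
(in a multiplicatively written semigroup: the power `s ^ (n + 1)`). -/
def multiple {S : Type u} [Add S] : ℕ → S → S
  | 0, s => s
  | n + 1, s => multiple n s + s

/-- Every element can be divided by every positive integer, in exactly one way. -/
def UniquelyDivisible (S : Type u) [Add S] : Prop :=
  ∀ n : ℕ, Function.Bijective (multiple n : S → S)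

/-- The map `φ` is `s ↦ q s` for the positive rational number `q = (k + 1) / (m + 1)`:
`(m + 1) φ(s) = (k + 1) s` for all `s`. -/
def IsRationalMultiple {S : Type u} [Add S] (φ : S → S) : Prop :=
  ∃ k m : ℕ, ∀ s, multiple m (φ s) = multiple k s

/-- `S` is a solution of Q1: `End(S)` with pointwise operation is isomorphic to `(ℚ_{>0}, +)`. -/
def SolvesQ1 (S : Type u) [AddCommSemigroup S] : Prop :=
  Nonempty ((S →ₙ+ S) ≃+ {q : ℚ // 0 < q})

/-- `S` is a solution of Q2: `End(S)` with pointwise operation is isomorphic to `(ℚ_{≥0}, +)`. -/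
def SolvesQ2 (S : Type u) [AddCommSemigroup S] : Prop :=
  Nonempty ((S →ₙ+ S) ≃+ {q : ℚ // 0 ≤ q})

/-- `A` is a nonzero subgroup of `ℝ` whose only real multipliers are the rational numbers. -/
def IsRigid (A : AddSubgroup ℝ) : Prop :=
  A ≠ ⊥ ∧ ∀ r : ℝ, (∀ a ∈ A, r * a ∈ A) ↔ ∃ q : ℚ, (q : ℝ) = r

/-- the group `ℚ + ℚ θ` -/
def pair (θ : ℝ) : AddSubgroup ℝ where
  carrier := {r | ∃ a b : ℚ, r = a + b * θ}
  zero_mem' := ⟨0, 0, by simp⟩
  add_mem' := by
    rintro _ _ ⟨a, b, rfl⟩ ⟨c, d, rfl⟩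
    exact ⟨a + c, b + d, by push_cast; ring⟩
  neg_mem' := by
    rintro _ ⟨a, b, rfl⟩
    exact ⟨-a, -b, by push_cast; ring⟩

/-- `θ` is not a root of a nonzero rational polynomial of degree at most two. -/
def NonQuadratic (θ : ℝ) : Prop :=
  ∀ a b c : ℚ, (a : ℝ) * θ ^ 2 + b * θ + c = 0 → a = 0 ∧ b = 0 ∧ c = 0

/-! Isomorphism types -/

/-- the commutative semigroup structures on the set `ι` that solve Q1 -/
def Sol1 (ι : Type u) : Type u := {s : AddCommSemigroup ι // @SolvesQ1 ι s}

/-- the commutative semigroup structures on the set `ι` that solve Q2 -/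
def Sol2 (ι : Type u) : Type u := {s : AddCommSemigroup ι // @SolvesQ2 ι s}

/-- two structures are isomorphic -/
def Isom {ι : Type u} (s t : AddCommSemigroup ι) : Prop :=
  ∃ e : ι ≃ ι, ∀ a b, e (s.add a b) = t.add (e a) (e b)

theorem Isom.refl {ι : Type u} (s : AddCommSemigroup ι) : Isom s s := ⟨Equiv.refl ι, fun _ _ => rfl⟩

theorem Isom.symm {ι : Type u} {s t : AddCommSemigroup ι} (h : Isom s t) : Isom t s := by
  obtain ⟨e, he⟩ := h
  refine ⟨e.symm, fun a b => ?_⟩
  apply e.injective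
  rw [he, e.apply_symm_apply, e.apply_symm_apply, e.apply_symm_apply]

theorem Isom.trans {ι : Type u} {s t r : AddCommSemigroup ι} (h : Isom s t) (h' : Isom t r) :
    Isom s r := by
  obtain ⟨e, he⟩ := h
  obtain ⟨f, hf⟩ := h'
  refine ⟨e.trans f, fun a b => ?_⟩
  rw [Equiv.trans_apply, he, hf]
  rfl

/-- isomorphism on the solutions of Q1 with underlying set `ι` -/
def isoSetoid1 (ι : Type u) : Setoid (Sol1 ι) :=
  ⟨fun s t => Isom s.1 t.1, fun s => Isom.refl s.1, fun h => h.symm, fun h h' => h.trans h'⟩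

/-- isomorphism on the solutions of Q2 with underlying set `ι` -/
def isoSetoid2 (ι : Type u) : Setoid (Sol2 ι) :=
  ⟨fun s t => Isom s.1 t.1, fun s => Isom.refl s.1, fun h => h.symm, fun h h' => h.trans h'⟩

end Pool.Agent.Helper142.RatEnd
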