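import Pool.Agent.Helper142.RatDefs

open Cardinal

universe u v

namespace Pool.Agent.Helper142.RatEnd

section basics

variable {S : Type u} [AddCommSemigroup S]

theorem coe_multiple (n : ℕ) (s : S) :
    ((multiple n s : S) : WithZero S) = (n + 1) • (s : WithZero S) := by
  induction n with
  | zero => simp [multiple]
  | succ n ih => rw [multiple, WithZero.coe_add, ih, succ_nsmul _ (n + 1)]

theorem multiple_map {F : Type*} {A : Type u} {B : Type v} [Add A] [Add B] [FunLike F A B]
    [AddHomClass F A B] (f : F) (n : ℕ) (s : A) :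
    f (multiple n s) = multiple n (f s) := by
  induction n with
  | zero => rfl
  | succ n ih => rw [multiple, multiple, map_add, ih]

theorem multiple_apply (f : S →ₙ+ S) (n : ℕ) (s : S) :
    (multiple n f) s = multiple n (f s) := by
  induction n with
  | zero => rfl
  | succ n ih => rw [multiple, multiple, AddHom.add_apply, ih]

theorem multiple_add (n : ℕ) (s t : S) : multiple n (s + t) = multiple n s + multiple n t := by
  apply WithZero.coe_injective
  rw [WithZero.coe_add, coe_multiple, coe_multiple, coe_multiple, WithZero.coe_add, nsmul_add]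

/-- `multiple n` as an endomorphism. -/
def multipleHom (S : Type u) [AddCommSemigroup S] (n : ℕ) : S →ₙ+ S where
  toFun := multiple n
  map_add' := multiple_add n

theorem exists_idempotent (s : S) (a d : ℕ) (ha : 0 < a) (hd : 0 < d)
    (h : a • (s : WithZero S) = (a + d) • (s : WithZero S)) :
    ∃ c : ℕ, multiple c s + multiple c s = multiple c s := by
  have h1 : ∀ j : ℕ, a • (s : WithZero S) = (a + j * d) • (s : WithZero S) := by
    intro j
    induction j with
    | zero => simp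
    | succ j ih =>
      calc a • (s : WithZero S) = (a + d) • (s : WithZero S) := h
        _ = a • (s : WithZero S) + d • (s : WithZero S) := add_nsmul _ _ _
        _ = (a + j * d) • (s : WithZero S) + d • (s : WithZero S) := by rw [← ih]
        _ = (a + (j + 1) * d) • (s : WithZero S) := by rw [← add_nsmul]; congr 1; ring
  obtain ⟨d', rfl⟩ : ∃ d', d = d' + 1 := ⟨d - 1, by omega⟩
  obtain ⟨a', rfl⟩ : ∃ a', a = a' + 1 := ⟨a - 1, by omega⟩
  set c := (a' + 1) * (d' + 1) with hc
  have hca : a' + 1 ≤ c := by rw [hc]; nlinarith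
  obtain ⟨e, he⟩ : ∃ e, c = (a' + 1) + e := ⟨c - (a' + 1), by omega⟩
  obtain ⟨c', hc'⟩ : ∃ c', c = c' + 1 := ⟨c - 1, by omega⟩
  have h2 : c • (s : WithZero S) = (c + c) • (s : WithZero S) := by
    have := h1 (a' + 1)
    calc c • (s : WithZero S) = (a' + 1) • (s : WithZero S) + e • (s : WithZero S) := by
            rw [← add_nsmul, ← he]
      _ = (a' + 1 + (a' + 1) * (d' + 1)) • (s : WithZero S) + e • (s : WithZero S) := by
            rw [← this]
      _ = (c + c) • (s : WithZero S) := by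
            rw [← add_nsmul]; congr 1; rw [← hc]; omega
  refine ⟨c', ?_⟩
  apply WithZero.coe_injective
  rw [WithZero.coe_add, coe_multiple, ← add_nsmul, ← hc', ← h2]

end basics

section rat

theorem coe_multiple_pos (n : ℕ) (q : {q : ℚ // 0 < q}) :
    ((multiple n q : {q : ℚ // 0 < q}) : ℚ) = (n + 1) * (q : ℚ) := by
  induction n with
  | zero => simp [multiple]
  | succ n ih => rw [multiple, Positive.coe_add, ih]; push_cast; ring

theorem coe_multiple_nonneg (n : ℕ) (q : {q : ℚ // 0 ≤ q}) :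
    ((multiple n q : {q : ℚ // 0 ≤ q}) : ℚ) = (n + 1) * (q : ℚ) := by
  induction n with
  | zero => simp [multiple]
  | succ n ih => rw [multiple, Nonneg.coe_add, ih]; push_cast; ring

theorem exists_nat_ratio (a b : ℚ) (ha : 0 < a) (hb : 0 < b) :
    ∃ k m : ℕ, ((m : ℚ) + 1) * a = (k + 1) * b := by
  have hr : 0 < a / b := div_pos ha hb
  set r := a / b with hrdef
  have hnum : 0 < r.num := Rat.num_pos.mpr hr
  refine ⟨r.num.toNat - 1, r.den - 1, ?_⟩
  have h1 : ((r.den - 1 : ℕ) : ℚ) + 1 = (r.den : ℚ) := by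
    have := r.den_pos
    have h : (r.den - 1) + 1 = r.den := by omega
    exact_mod_cast h
  have h2 : ((r.num.toNat - 1 : ℕ) : ℚ) + 1 = (r.num : ℚ) := by
    have h : (r.num.toNat - 1) + 1 = r.num.toNat := by omega
    have h' : ((r.num.toNat : ℤ)) = r.num := Int.toNat_of_nonneg hnum.le
    calc ((r.num.toNat - 1 : ℕ) : ℚ) + 1 = (((r.num.toNat - 1) + 1 : ℕ) : ℚ) := by push_cast; ring
      _ = ((r.num.toNat : ℕ) : ℚ) := by rw [h]
      _ = (((r.num.toNat : ℤ)) : ℚ) := by push_cast; rfl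
      _ = (r.num : ℚ) := by rw [h']
  rw [h1, h2]
  have h3 : a = r * b := by rw [hrdef]; field_simp
  have h4 : (r.den : ℚ) * r = r.num := by
    rw [mul_comm]; exact Rat.mul_den_eq_num r
  rw [h3, ← mul_assoc, h4]

end rat

end Pool.Agent.Helper142.RatEnd


namespace Pool.Agent.Helper142.RatEnd

section charQ1

variable {S : Type u} [AddCommSemigroup S]

/-- the constant endomorphism at an idempotent -/
def constHom (f : S) (hf : f + f = f) : S →ₙ+ S where
  toFun := fun _ => f
  map_add' := fun _ _ => hf.symm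

theorem multiple_injective_of (h : UniquelyDivisible S) (n : ℕ) (hn : 0 < n) {s t : S}
    (hst : n • (s : WithZero S) = n • (t : WithZero S)) : s = t := by
  obtain ⟨m, rfl⟩ : ∃ m, n = m + 1 := ⟨n - 1, by omega⟩
  rw [← coe_multiple, ← coe_multiple] at hst
  exact (h m).1 (WithZero.coe_injective hst)

/-- division as an isomorphism -/
noncomputable def divE (h : UniquelyDivisible S) (n : ℕ) : S ≃+ S :=
  AddEquiv.ofBijective (multipleHom S n) (h n)

/-- multiplication by `(k + 1) / (m + 1)` -/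
noncomputable def ratHom (h : UniquelyDivisible S) (k m : ℕ) : S →ₙ+ S where
  toFun s := (divE h m).symm (multiple k s)
  map_add' a b := by rw [multiple_add, map_add]

theorem ratHom_spec (h : UniquelyDivisible S) (k m : ℕ) (s : S) :
    multiple m (ratHom h k m s) = multiple k s :=
  (divE h m).apply_symm_apply (multiple k s)

/-- the relation `a • φ = b • id` in `WithZero S` -/
theorem rel_coe {φ : S → S} {k m : ℕ} {s : S} :
    multiple m (φ s) = multiple k s ↔
      (m + 1) • (φ s : WithZero S) = (k + 1) • (s : WithZero S) := by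
  rw [← coe_multiple, ← coe_multiple]
  exact WithZero.coe_injective.eq_iff.symm

theorem ratio_unique (hid : ∀ f : S, f + f ≠ f) {x s : S} {k m k' m' : ℕ}
    (h : (m + 1) • (x : WithZero S) = (k + 1) • (s : WithZero S))
    (h' : (m' + 1) • (x : WithZero S) = (k' + 1) • (s : WithZero S)) :
    (k + 1) * (m' + 1) = (k' + 1) * (m + 1) := by
  have e : ((k + 1) * (m' + 1)) • (s : WithZero S) = ((k' + 1) * (m + 1)) • (s : WithZero S) := by
    rw [mul_comm (k + 1), mul_smul, ← h, ← mul_smul, mul_comm (m' + 1), mul_smul, h', ← mul_smul,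
      mul_comm (m + 1)]
  by_contra hne
  rcases lt_or_gt_of_ne hne with hlt | hlt
  · obtain ⟨d, hd⟩ : ∃ d, (k' + 1) * (m + 1) = (k + 1) * (m' + 1) + d :=
      ⟨(k' + 1) * (m + 1) - (k + 1) * (m' + 1), by omega⟩
    obtain ⟨f, hf⟩ := exists_idempotent s ((k + 1) * (m' + 1)) d (by positivity) (by omega)
      (by rw [e, hd])
    exact hid _ hf
  · obtain ⟨d, hd⟩ : ∃ d, (k + 1) * (m' + 1) = (k' + 1) * (m + 1) + d :=
      ⟨(k + 1) * (m' + 1) - (k' + 1) * (m + 1), by omega⟩
    obtain ⟨f, hf⟩ := exists_idempotent s ((k' + 1) * (m + 1)) d (by positivity) (by omega)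
      (by rw [← e, hd])
    exact hid _ hf

theorem solvesQ1_iff :
    SolvesQ1 S ↔ Nonempty S ∧ UniquelyDivisible S ∧ (∀ f : S, f + f ≠ f) ∧
      ∀ φ : S →ₙ+ S, IsRationalMultiple φ := by
  constructor
  · rintro ⟨e⟩
    set ε := e (AddHom.id S) with hε
    have hdiv : ∀ n : ℕ, ∃ φ : S →ₙ+ S, multiple n φ = AddHom.id S := by
      intro n
      have hpos : 0 < (ε : ℚ) / (n + 1) := div_pos ε.2 (by positivity)
      refine ⟨e.symm ⟨(ε : ℚ) / (n + 1), hpos⟩, ?_⟩
      apply e.injective
      have : e (multiple n (e.symm ⟨(ε : ℚ) / (n + 1), hpos⟩)) =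
          multiple n (e (e.symm ⟨(ε : ℚ) / (n + 1), hpos⟩)) :=
        multiple_map e n _
      rw [this, e.apply_symm_apply]
      apply Subtype.ext
      rw [coe_multiple_pos, ← hε]
      field_simp
    have hne : Nonempty S := by
      by_contra hemp
      rw [not_nonempty_iff] at hemp
      have h1 : e.symm ⟨1, one_pos⟩ = e.symm ⟨2, two_pos⟩ := by
        ext s
        exact hemp.elim s
      have h2 := congrArg Subtype.val (e.symm.injective h1)
      norm_num at h2
    refine ⟨hne, ?_, ?_, ?_⟩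
    · intro n
      obtain ⟨φ, hφ⟩ := hdiv n
      have h1 : ∀ s, multiple n (φ s) = s := by
        intro s
        rw [← multiple_apply, hφ]
        rfl
      have h2 : ∀ s, φ (multiple n s) = s := by
        intro s
        rw [multiple_map, h1]
      exact ⟨fun a b hab => by rw [← h2 a, ← h2 b, hab], fun s => ⟨φ s, h1 s⟩⟩
    · intro f hf
      have h1 : constHom f hf + constHom f hf = constHom f hf := by
        ext s
        exact hf
      have h2 := congrArg e h1
      rw [map_add] at h2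
      have h3 := congrArg Subtype.val h2
      rw [Positive.coe_add] at h3
      have h4 := (e (constHom f hf)).2
      linarith
    · intro φ
      obtain ⟨k, m, hkm⟩ := exists_nat_ratio (e φ) ε (e φ).2 ε.2
      refine ⟨k, m, fun s => ?_⟩
      have h1 : multiple m φ = multiple k (AddHom.id S) := by
        apply e.injective
        have a1 : e (multiple m φ) = multiple m (e φ) :=
          multiple_map e m _
        have a2 : e (multiple k (AddHom.id S)) = multiple k (e (AddHom.id S)) :=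
          multiple_map e k _
        rw [a1, a2]
        apply Subtype.ext
        rw [coe_multiple_pos, coe_multiple_pos, ← hε]
        exact hkm
      have h2 := DFunLike.congr_fun h1 s
      rw [multiple_apply, multiple_apply] at h2
      exact h2
  · rintro ⟨⟨s₀⟩, hdiv, hid, hrat⟩
    choose k m hkm using hrat
    -- the value of an endomorphism
    let val : (S →ₙ+ S) → {q : ℚ // 0 < q} := fun φ => ⟨((k φ : ℚ) + 1) / (m φ + 1), by positivity⟩
    have hrel : ∀ φ s, (m φ + 1) • (φ s : WithZero S) = (k φ + 1) • (s : WithZero S) :=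
      fun φ s => rel_coe.1 (hkm φ s)
    -- if `a • φ s₀ = b • s₀` then `val φ = b / a`
    have hval : ∀ (φ : S →ₙ+ S) (a b : ℕ),
        (a + 1) • (φ s₀ : WithZero S) = (b + 1) • (s₀ : WithZero S) →
          (val φ : ℚ) = ((b : ℚ) + 1) / (a + 1) := by
      intro φ a b hab
      have h1 := ratio_unique hid (hrel φ s₀) hab
      have h2 : ((k φ : ℚ) + 1) * (a + 1) = (b + 1) * (m φ + 1) := by exact_mod_cast h1
      show ((k φ : ℚ) + 1) / (m φ + 1) = _
      rw [div_eq_div_iff (by positivity) (by positivity)]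
      exact h2
    have hinj : Function.Injective val := by
      intro φ ψ h
      have h' : ((k φ : ℚ) + 1) / (m φ + 1) = ((k ψ : ℚ) + 1) / (m ψ + 1) :=
        congrArg Subtype.val h
      rw [div_eq_div_iff (by positivity) (by positivity)] at h'
      have h2 : (k φ + 1) * (m ψ + 1) = (k ψ + 1) * (m φ + 1) := by exact_mod_cast h'
      ext s
      apply multiple_injective_of hdiv ((m φ + 1) * (m ψ + 1)) (by positivity)
      calc ((m φ + 1) * (m ψ + 1)) • (φ s : WithZero S)
          = (m ψ + 1) • (m φ + 1) • (φ s : WithZero S) := by rw [← mul_smul, mul_comm]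
        _ = ((k φ + 1) * (m ψ + 1)) • (s : WithZero S) := by rw [hrel, ← mul_smul, mul_comm]
        _ = (m φ + 1) • (k ψ + 1) • (s : WithZero S) := by rw [h2, ← mul_smul, mul_comm]
        _ = ((m φ + 1) * (m ψ + 1)) • (ψ s : WithZero S) := by rw [← hrel, ← mul_smul]
    have hsurj : Function.Surjective val := by
      rintro ⟨q, hq⟩
      obtain ⟨a, b, hab⟩ := exists_nat_ratio q 1 hq one_pos
      refine ⟨ratHom hdiv a b, Subtype.ext ?_⟩
      rw [hval _ b a (rel_coe.1 (ratHom_spec hdiv a b s₀))]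
      rw [div_eq_iff (by positivity)]
      linarith
    have hadd : ∀ φ ψ, val (φ + ψ) = val φ + val ψ := by
      intro φ ψ
      apply Subtype.ext
      obtain ⟨a, ha⟩ : ∃ a, a + 1 = (m φ + 1) * (m ψ + 1) :=
        ⟨(m φ + 1) * (m ψ + 1) - 1, Nat.sub_add_cancel (by nlinarith)⟩
      obtain ⟨b, hb⟩ : ∃ b, b + 1 = (m ψ + 1) * (k φ + 1) + (m φ + 1) * (k ψ + 1) :=
        ⟨(m ψ + 1) * (k φ + 1) + (m φ + 1) * (k ψ + 1) - 1, Nat.sub_add_cancel (by nlinarith)⟩
      rw [hval (φ + ψ) a b]
      · have ha' : ((a : ℚ) + 1) = (m φ + 1) * (m ψ + 1) := by exact_mod_cast ha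
        have hb' : ((b : ℚ) + 1) = (m ψ + 1) * (k φ + 1) + (m φ + 1) * (k ψ + 1) := by
          exact_mod_cast hb
        rw [ha', hb', Positive.coe_add]
        show _ = ((k φ : ℚ) + 1) / (m φ + 1) + ((k ψ : ℚ) + 1) / (m ψ + 1)
        field_simp
      · rw [ha, hb, AddHom.add_apply, WithZero.coe_add, nsmul_add, add_nsmul]
        congr 1
        · rw [mul_comm (m φ + 1), mul_smul, hrel, ← mul_smul]
        · rw [mul_smul, hrel, ← mul_smul]
    exact ⟨AddEquiv.ofBijective (⟨val, hadd⟩ : (S →ₙ+ S) →ₙ+ {q : ℚ // 0 < q}) ⟨hinj, hsurj⟩⟩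

end charQ1

end Pool.Agent.Helper142.RatEnd


namespace Pool.Agent.Helper142.RatEnd

section charQ2

theorem multiple_eq_nsmul {M : Type u} [AddCommMonoid M] (n : ℕ) (s : M) :
    multiple n s = (n + 1) • s := by
  induction n with
  | zero => simp [multiple]
  | succ n ih => rw [multiple, ih, succ_nsmul _ (n + 1)]

theorem solvesQ2_of_monoid {M : Type u} [AddCommMonoid M] (s₀ : M) (hs₀ : s₀ ≠ 0)
    (hid : ∀ f : M, f + f = f → f = 0) (hdiv : UniquelyDivisible M)
    (hrat : ∀ φ : M →ₙ+ M, (∀ s, φ s = 0) ∨ IsRationalMultiple φ) : SolvesQ2 M := by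
  have hcancel : ∀ (n : ℕ) (x y : M), (n + 1) • x = (n + 1) • y → x = y := by
    intro n x y h
    rw [← multiple_eq_nsmul, ← multiple_eq_nsmul] at h
    exact (hdiv n).1 h
  have htf : ∀ (n : ℕ), (n + 1) • s₀ ≠ 0 := by
    intro n h
    exact hs₀ (hcancel n s₀ 0 (by rw [h, smul_zero]))
  have huniq : ∀ a b : ℕ, a • s₀ = b • s₀ → a = b := by
    have key : ∀ a d : ℕ, 0 < d → a • s₀ ≠ (a + d) • s₀ := by
      intro a d hd h
      rcases Nat.eq_zero_or_pos a with rfl | ha
      · obtain ⟨d', rfl⟩ : ∃ d', d = d' + 1 := ⟨d - 1, by omega⟩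
        rw [zero_smul, zero_add] at h
        exact htf d' h.symm
      · have h' : a • (s₀ : WithZero M) = (a + d) • (s₀ : WithZero M) := by
          obtain ⟨a', rfl⟩ : ∃ a', a = a' + 1 := ⟨a - 1, by omega⟩
          have e : a' + 1 + d = (a' + d) + 1 := by ring
          rw [e, ← coe_multiple, ← coe_multiple, multiple_eq_nsmul, multiple_eq_nsmul, h, e]
        obtain ⟨c, hc⟩ := exists_idempotent s₀ a d ha hd h'
        have := hid _ hc
        rw [multiple_eq_nsmul] at this
        exact htf c this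
    intro a b hab
    rcases lt_trichotomy a b with h | h | h
    · exact absurd (by rw [Nat.add_sub_cancel' h.le]; exact hab) (key a (b - a) (by omega))
    · exact h
    · exact absurd (by rw [Nat.add_sub_cancel' h.le]; exact hab.symm) (key b (a - b) (by omega))
  have hrat' : ∀ φ : M →ₙ+ M, ∃ k m : ℕ, ∀ s, (m + 1) • φ s = k • s := by
    intro φ
    rcases hrat φ with h | ⟨k, m, h⟩
    · exact ⟨0, 0, fun s => by rw [h s, smul_zero, zero_smul]⟩
    · refine ⟨k + 1, m, fun s => ?_⟩
      have := h s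
      rwa [multiple_eq_nsmul, multiple_eq_nsmul] at this
  choose k m hrel using hrat'
  let val : (M →ₙ+ M) → {q : ℚ // 0 ≤ q} := fun φ => ⟨(k φ : ℚ) / (m φ + 1), by positivity⟩
  have hval : ∀ (φ : M →ₙ+ M) (a b : ℕ), (a + 1) • φ s₀ = b • s₀ →
      (val φ : ℚ) = (b : ℚ) / (a + 1) := by
    intro φ a b hab
    have h1 : (k φ * (a + 1)) • s₀ = (b * (m φ + 1)) • s₀ := by
      calc (k φ * (a + 1)) • s₀ = (a + 1) • (k φ • s₀) := by rw [← mul_smul, mul_comm]
        _ = (a + 1) • ((m φ + 1) • φ s₀) := by rw [hrel]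
        _ = (m φ + 1) • ((a + 1) • φ s₀) := by rw [← mul_smul, ← mul_smul, mul_comm]
        _ = (b * (m φ + 1)) • s₀ := by rw [hab, ← mul_smul, mul_comm]
    have h2 : (k φ : ℚ) * (a + 1) = b * (m φ + 1) := by exact_mod_cast huniq _ _ h1
    show (k φ : ℚ) / (m φ + 1) = _
    rw [div_eq_div_iff (by positivity) (by positivity)]
    exact h2
  have hinj : Function.Injective val := by
    intro φ ψ h
    have h' : (k φ : ℚ) / (m φ + 1) = (k ψ : ℚ) / (m ψ + 1) := congrArg Subtype.val h
    rw [div_eq_div_iff (by positivity) (by positivity)] at h'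
    have h2 : k φ * (m ψ + 1) = k ψ * (m φ + 1) := by exact_mod_cast h'
    ext s
    obtain ⟨N, hN⟩ : ∃ N, N + 1 = (m φ + 1) * (m ψ + 1) :=
      ⟨(m φ + 1) * (m ψ + 1) - 1, Nat.sub_add_cancel (by nlinarith)⟩
    apply hcancel N
    rw [hN]
    calc ((m φ + 1) * (m ψ + 1)) • φ s
        = (m ψ + 1) • (m φ + 1) • φ s := by rw [← mul_smul, mul_comm]
      _ = (k φ * (m ψ + 1)) • s := by rw [hrel, ← mul_smul, mul_comm]
      _ = (m φ + 1) • k ψ • s := by rw [h2, ← mul_smul, mul_comm]
      _ = ((m φ + 1) * (m ψ + 1)) • ψ s := by rw [← hrel, ← mul_smul]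
  have hsurj : Function.Surjective val := by
    rintro ⟨q, hq⟩
    rcases hq.eq_or_lt with h0 | hpos
    · refine ⟨⟨fun _ => 0, fun _ _ => (add_zero 0).symm⟩, Subtype.ext ?_⟩
      rw [hval _ 0 0 (by simp)]
      simpa using h0
    · obtain ⟨a, b, hab⟩ := exists_nat_ratio q 1 hpos one_pos
      refine ⟨ratHom hdiv a b, Subtype.ext ?_⟩
      have := ratHom_spec hdiv a b s₀
      rw [multiple_eq_nsmul, multiple_eq_nsmul] at this
      rw [hval _ b (a + 1) this]
      rw [div_eq_iff (by positivity)]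
      push_cast
      linarith
  have hadd : ∀ φ ψ, val (φ + ψ) = val φ + val ψ := by
    intro φ ψ
    apply Subtype.ext
    obtain ⟨a, ha⟩ : ∃ a, a + 1 = (m φ + 1) * (m ψ + 1) :=
      ⟨(m φ + 1) * (m ψ + 1) - 1, Nat.sub_add_cancel (by nlinarith)⟩
    rw [hval (φ + ψ) a ((m ψ + 1) * k φ + (m φ + 1) * k ψ)]
    · have ha' : ((a : ℚ) + 1) = (m φ + 1) * (m ψ + 1) := by exact_mod_cast ha
      rw [ha', Nonneg.coe_add]
      show _ = (k φ : ℚ) / (m φ + 1) + (k ψ : ℚ) / (m ψ + 1)
      push_cast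
      field_simp
    · rw [ha, AddHom.add_apply, nsmul_add, add_nsmul]
      congr 1
      · rw [mul_comm (m φ + 1), mul_smul, hrel, ← mul_smul]
      · rw [mul_smul, hrel, ← mul_smul]
  exact ⟨AddEquiv.ofBijective (⟨val, hadd⟩ : (M →ₙ+ M) →ₙ+ {q : ℚ // 0 ≤ q}) ⟨hinj, hsurj⟩⟩

theorem solvesQ2_iff {S : Type u} [AddCommSemigroup S] :
    SolvesQ2 S ↔ ∃ z : S, (∀ s, z + s = s) ∧ (∃ s, s ≠ z) ∧ (∀ f : S, f + f = f → f = z) ∧
      UniquelyDivisible S ∧ ∀ φ : S →ₙ+ S, (∀ s, φ s = z) ∨ IsRationalMultiple φ := by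
  constructor
  · rintro ⟨e⟩
    have hnsub : ∀ φ ψ : S →ₙ+ S, (∀ φ ψ : S →ₙ+ S, φ = ψ) → False := by
      intro _ _ h
      have h1 := h (e.symm ⟨1, zero_le_one⟩) (e.symm ⟨2, zero_le_two⟩)
      have h2 := congrArg Subtype.val (e.symm.injective h1)
      norm_num at h2
    have hne : Nonempty S := by
      by_contra hemp
      rw [not_nonempty_iff] at hemp
      exact hnsub (AddHom.id S) (AddHom.id S) (fun φ ψ => by ext s; exact hemp.elim s)
    obtain ⟨s₀⟩ := hne
    set ζ := e.symm 0 with hζ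
    have hζ1 : ∀ φ, ζ + φ = φ := by
      intro φ
      apply e.injective
      rw [map_add, hζ, e.apply_symm_apply, zero_add]
    have hconst : ∀ f : S, f + f = f → ∀ s, ζ s = f := by
      intro f hf s
      have h1 : constHom f hf + constHom f hf = constHom f hf := by
        ext s
        exact hf
      have h2 := congrArg e h1
      rw [map_add] at h2
      have h3 : e (constHom f hf) = 0 := by
        apply Subtype.ext
        have h3 := congrArg Subtype.val h2
        rw [Nonneg.coe_add] at h3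
        have : ((e (constHom f hf) : {q : ℚ // 0 ≤ q}) : ℚ) = 0 := by linarith
        exact this
      have h4 : constHom f hf = ζ := by
        apply e.injective
        rw [h3, hζ, e.apply_symm_apply]
      rw [← h4]
      rfl
    set z := ζ s₀ with hz
    have hzz : z + z = z := by
      have := DFunLike.congr_fun (hζ1 ζ) s₀
      simpa [AddHom.add_apply] using this
    have hζs : ∀ s, ζ s = z := hconst z hzz
    have hz0 : ∀ s, z + s = s := by
      intro s
      have := DFunLike.congr_fun (hζ1 (AddHom.id S)) s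
      rw [AddHom.add_apply, hζs] at this
      exact this
    have hnt : ∃ s, s ≠ z := by
      by_contra hall
      push Not at hall
      exact hnsub ζ ζ (fun φ ψ => by ext s; rw [hall (φ s), hall (ψ s)])
    obtain ⟨s₁, hs₁⟩ := hnt
    set ε := e (AddHom.id S) with hε
    have hεpos : 0 < (ε : ℚ) := by
      rcases ε.2.eq_or_lt with h | h
      · exfalso
        have h1 : ε = 0 := Subtype.ext h.symm
        have h2 : AddHom.id S = ζ := by
          apply e.injective
          rw [← hε, h1, hζ, e.apply_symm_apply]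
        have h3 := DFunLike.congr_fun h2 s₁
        rw [hζs] at h3
        exact hs₁ h3
      · exact h
    have hdiv : ∀ n : ℕ, ∃ φ : S →ₙ+ S, multiple n φ = AddHom.id S := by
      intro n
      have hpos : 0 ≤ (ε : ℚ) / (n + 1) := by positivity
      refine ⟨e.symm ⟨(ε : ℚ) / (n + 1), hpos⟩, ?_⟩
      apply e.injective
      have : e (multiple n (e.symm ⟨(ε : ℚ) / (n + 1), hpos⟩)) =
          multiple n (e (e.symm ⟨(ε : ℚ) / (n + 1), hpos⟩)) :=
        multiple_map e n _
      rw [this, e.apply_symm_apply]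
      apply Subtype.ext
      rw [coe_multiple_nonneg, ← hε]
      field_simp
    refine ⟨z, hz0, ⟨s₁, hs₁⟩, fun f hf => by rw [← hconst f hf s₀], ?_, ?_⟩
    · intro n
      obtain ⟨φ, hφ⟩ := hdiv n
      have h1 : ∀ s, multiple n (φ s) = s := by
        intro s
        rw [← multiple_apply, hφ]
        rfl
      have h2 : ∀ s, φ (multiple n s) = s := by
        intro s
        rw [multiple_map, h1]
      exact ⟨fun a b hab => by rw [← h2 a, ← h2 b, hab], fun s => ⟨φ s, h1 s⟩⟩
    · intro φ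
      rcases (e φ).2.eq_or_lt with h | hpos
      · left
        have h1 : e φ = 0 := Subtype.ext h.symm
        have h2 : φ = ζ := by
          apply e.injective
          rw [h1, hζ, e.apply_symm_apply]
        intro s
        rw [h2, hζs]
      · right
        obtain ⟨k, m, hkm⟩ := exists_nat_ratio (e φ) ε hpos hεpos
        refine ⟨k, m, fun s => ?_⟩
        have h1 : multiple m φ = multiple k (AddHom.id S) := by
          apply e.injective
          have a1 : e (multiple m φ) = multiple m (e φ) := multiple_map e m _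
          have a2 : e (multiple k (AddHom.id S)) = multiple k (e (AddHom.id S)) :=
            multiple_map e k _
          rw [a1, a2]
          apply Subtype.ext
          rw [coe_multiple_nonneg, coe_multiple_nonneg, ← hε]
          exact hkm
        have h2 := DFunLike.congr_fun h1 s
        rw [multiple_apply, multiple_apply] at h2
        exact h2
  · rintro ⟨z, hz, ⟨s₀, hs₀⟩, hid, hdiv, hrat⟩
    let i0 : Zero S := ⟨z⟩
    let inst : AddCommMonoid S :=
      { (inferInstance : AddCommSemigroup S), i0 with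
        zero_add := hz
        add_zero := fun s => by rw [add_comm]; exact hz s
        nsmul := nsmulRec
        nsmul_zero := fun _ => rfl
        nsmul_succ := fun _ _ => rfl }
    exact @solvesQ2_of_monoid S inst s₀ hs₀ hid hdiv hrat

end charQ2

end Pool.Agent.Helper142.RatEnd


namespace Pool.Agent.Helper142.RatEnd

section ordered

theorem coe_multiple_cone {G : Type u} [AddCommGroup G] [LinearOrder G] [IsOrderedAddMonoid G]
    (n : ℕ) (x : {x : G // 0 < x}) :
    ((multiple n x : {x : G // 0 < x}) : G) = (n + 1) • (x : G) := by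
  induction n with
  | zero => simp [multiple]
  | succ n ih => rw [multiple, Positive.coe_add, ih, succ_nsmul _ (n + 1)]

theorem ratio_const {G : Type u} [AddCommGroup G] [LinearOrder G] [IsOrderedAddMonoid G]
    {H : Type v} [AddCommGroup H] [LinearOrder H] [IsOrderedAddMonoid H]
    (f : G →+ ℝ) (hf : ∀ x, 0 < x → 0 < f x) (g : H →+ ℝ) (hg : ∀ x, 0 < x → 0 < g x)
    (φ : {x : G // 0 < x} →ₙ+ {x : H // 0 < x}) (x y : {x : G // 0 < x}) :
    g (φ x) * f y = g (φ y) * f x := by
  have key : ∀ x y : {x : G // 0 < x}, ¬ (g (φ x) * f y < g (φ y) * f x) := by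
    intro x y h
    have fx := hf x x.2
    have fy := hf y y.2
    have gx := hg (φ x) (φ x).2
    have gy := hg (φ y) (φ y).2
    have h1 : g (φ x) / g (φ y) < f x / f y := by
      rw [div_lt_div_iff₀ gy fy]
      linarith
    obtain ⟨p, hp1, hp2⟩ := exists_rat_btwn h1
    have hp0 : 0 < p := by
      have : (0 : ℝ) < p := lt_trans (div_pos gx gy) hp1
      exact_mod_cast this
    obtain ⟨k, m, hkm⟩ := exists_nat_ratio p 1 hp0 one_pos
    have hkm' : ((m : ℝ) + 1) * p = k + 1 := by
      have : (((m : ℚ) + 1) * p : ℚ) = k + 1 := by rw [hkm]; ring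
      exact_mod_cast this
    have hm : (0 : ℝ) < (m : ℝ) + 1 := by positivity
    -- `(k+1) f y < (m+1) f x`
    have h2 : ((k : ℝ) + 1) * f y < (m + 1) * f x := by
      rw [← hkm', mul_assoc]
      apply mul_lt_mul_of_pos_left _ hm
      rwa [← lt_div_iff₀ fy]
    have h3 : ((m : ℝ) + 1) * g (φ x) < (k + 1) * g (φ y) := by
      rw [← hkm', mul_assoc]
      apply mul_lt_mul_of_pos_left _ hm
      rwa [← div_lt_iff₀ gy]
    have h4 : (k + 1) • (y : G) < (m + 1) • (x : G) := by
      by_contra hle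
      push Not at hle
      have : f ((m + 1) • (x : G)) ≤ f ((k + 1) • (y : G)) := by
        rcases hle.eq_or_lt with h | h
        · rw [h]
        · have := hf _ (sub_pos.mpr h)
          rw [map_sub] at this
          linarith
      rw [map_nsmul, map_nsmul, nsmul_eq_mul, nsmul_eq_mul] at this
      push_cast at this
      linarith
    let z : {x : G // 0 < x} := ⟨(m + 1) • (x : G) - (k + 1) • (y : G), sub_pos.mpr h4⟩
    have h5 : multiple m x = multiple k y + z := by
      apply Subtype.ext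
      rw [Positive.coe_add, coe_multiple_cone, coe_multiple_cone]
      show _ = _ + ((m + 1) • (x : G) - (k + 1) • (y : G))
      abel
    have h6 := congrArg φ h5
    rw [map_add, multiple_map, multiple_map] at h6
    have h7 := congrArg (fun t : {x : H // 0 < x} => g (t : H)) h6
    simp only [Positive.coe_add, coe_multiple_cone, map_add, map_nsmul, nsmul_eq_mul] at h7
    push_cast at h7
    have h8 := hg (φ z) (φ z).2
    linarith
  rcases lt_trichotomy (g (φ x) * f y) (g (φ y) * f x) with h | h | h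
  · exact absurd h (key x y)
  · exact h
  · exact absurd h (key y x)

variable {G : Type u} [AddCommGroup G] [LinearOrder G] [IsOrderedAddMonoid G]

/-- a positive scaling endomorphism -/
theorem solvesQ1_of_rigid (f : G →+ ℝ) (hf : ∀ x, 0 < x → 0 < f x) (hr : IsRigid f.range) :
    SolvesQ1 {x : G // 0 < x} := by
  have hfinj : Function.Injective f := by
    rw [injective_iff_map_eq_zero]
    intro x hx
    rcases lt_trichotomy x 0 with h | h | h
    · have := hf (-x) (neg_pos.mpr h)
      rw [map_neg, hx] at this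
      simp at this
    · exact h
    · exact absurd hx (hf x h).ne'
  have hpos : ∀ x, 0 < f x → 0 < x := by
    intro x hx
    rcases lt_trichotomy x 0 with h | h | h
    · have := hf (-x) (neg_pos.mpr h)
      rw [map_neg] at this
      linarith
    · rw [h, map_zero] at hx
      exact absurd hx (lt_irrefl _)
    · exact h
  obtain ⟨hbot, hmul⟩ := hr
  have hratmul : ∀ (q : ℚ) (x : G), ∃ y, f y = q * f x := by
    intro q x
    exact (hmul q).2 ⟨q, rfl⟩ (f x) ⟨x, rfl⟩
  rw [solvesQ1_iff]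
  have hne : Nonempty {x : G // 0 < x} := by
    obtain ⟨⟨a, x, rfl⟩, ha0⟩ := AddSubgroup.ne_bot_iff_exists_ne_zero.1 hbot
    have hx : x ≠ 0 := by
      rintro rfl
      exact ha0 (Subtype.ext (map_zero f))
    exact ⟨⟨|x|, abs_pos.mpr hx⟩⟩
  refine ⟨hne, ?_, ?_, ?_⟩
  · intro n
    constructor
    · intro x y h
      apply Subtype.ext
      have h1 := congrArg Subtype.val h
      rw [coe_multiple_cone, coe_multiple_cone] at h1
      have h2 := congrArg f h1
      rw [map_nsmul, map_nsmul, nsmul_eq_mul, nsmul_eq_mul] at h2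
      apply hfinj
      have : ((n + 1 : ℕ) : ℝ) ≠ 0 := by positivity
      exact mul_left_cancel₀ this h2
    · intro x
      obtain ⟨y, hy⟩ := hratmul (1 / ((n : ℚ) + 1)) x
      have hy0 : 0 < y := by
        apply hpos
        rw [hy]
        have := hf x x.2
        push_cast
        positivity
      refine ⟨⟨y, hy0⟩, Subtype.ext ?_⟩
      rw [coe_multiple_cone]
      apply hfinj
      rw [map_nsmul, nsmul_eq_mul, hy]
      push_cast
      field_simp
  · intro x hx
    have := congrArg Subtype.val hx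
    rw [Positive.coe_add] at this
    have h2 : (x : G) = 0 := by simpa using this
    exact x.2.ne' h2
  · intro φ
    obtain ⟨x₀⟩ := hne
    have fx₀ := hf x₀ x₀.2
    set r := f (φ x₀) / f x₀ with hr
    have hφ : ∀ x, f (φ x) = r * f x := by
      intro x
      have := ratio_const f hf f hf φ x x₀
      rw [hr]
      field_simp
      linarith
    have hr0 : 0 < r := div_pos (hf _ (φ x₀).2) fx₀
    have hrA : ∀ a ∈ f.range, r * a ∈ f.range := by
      rintro _ ⟨x, rfl⟩
      rcases lt_trichotomy x 0 with h | h | h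
      · refine ⟨-(φ ⟨-x, neg_pos.mpr h⟩ : G), ?_⟩
        rw [map_neg, hφ]
        simp
      · exact ⟨0, by rw [h]; simp⟩
      · exact ⟨φ ⟨x, h⟩, hφ _⟩
    obtain ⟨q, hq⟩ := (hmul r).1 hrA
    have hq0 : 0 < q := by
      have : (0 : ℝ) < q := by rw [hq]; exact hr0
      exact_mod_cast this
    obtain ⟨k, m, hkm⟩ := exists_nat_ratio q 1 hq0 one_pos
    have hkm' : ((m : ℝ) + 1) * q = k + 1 := by
      have : (((m : ℚ) + 1) * q : ℚ) = k + 1 := by rw [hkm]; ring
      exact_mod_cast this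
    refine ⟨k, m, fun x => Subtype.ext (hfinj ?_)⟩
    rw [coe_multiple_cone, coe_multiple_cone, map_nsmul, map_nsmul, nsmul_eq_mul, nsmul_eq_mul,
      hφ, ← hq]
    push_cast
    rw [← mul_assoc, hkm']

end ordered

end Pool.Agent.Helper142.RatEnd


namespace Pool.Agent.Helper142.RatEnd

section ordered2

variable {G : Type u} [AddCommGroup G] [LinearOrder G] [IsOrderedAddMonoid G]

theorem nsmul_surj (hdiv : UniquelyDivisible {x : G // 0 < x}) (n : ℕ) (hn : n ≠ 0) :
    Function.Surjective (fun x : G => n • x) := by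
  obtain ⟨n, rfl⟩ : ∃ m, n = m + 1 := ⟨n - 1, by omega⟩
  intro x
  rcases lt_trichotomy x 0 with h | h | h
  · obtain ⟨y, hy⟩ := (hdiv n).2 ⟨-x, neg_pos.mpr h⟩
    refine ⟨-(y : G), ?_⟩
    have := congrArg Subtype.val hy
    rw [coe_multiple_cone] at this
    show (n + 1) • (-(y : G)) = x
    rw [smul_neg, this, neg_neg]
  · exact ⟨0, by rw [h]; exact smul_zero _⟩
  · obtain ⟨y, hy⟩ := (hdiv n).2 ⟨x, h⟩
    refine ⟨(y : G), ?_⟩
    have := congrArg Subtype.val hy
    rw [coe_multiple_cone] at this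
    exact this

/-- the convex subgroup generated by `a` -/
def convexHullOf (a : G) : AddSubgroup G where
  carrier := {x | ∃ n : ℕ, |x| ≤ n • a}
  zero_mem' := ⟨0, by simp⟩
  add_mem' := by
    rintro x y ⟨n, hn⟩ ⟨m, hm⟩
    refine ⟨n + m, ?_⟩
    rw [add_nsmul]
    exact (abs_add_le x y).trans (add_le_add hn hm)
  neg_mem' := by
    rintro x ⟨n, hn⟩
    exact ⟨n, by rwa [abs_neg]⟩

theorem archimedean_of (hdiv : UniquelyDivisible {x : G // 0 < x})
    (hrat : ∀ φ : {x : G // 0 < x} →ₙ+ {x : G // 0 < x}, IsRationalMultiple φ) :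
    Archimedean G := by
  constructor
  intro b a ha
  by_contra hna
  push Not at hna
  have hb : 0 < b := by simpa using hna 0
  set H := convexHullOf a with hH
  have hmemH : ∀ x : G, x ∈ H ↔ ∃ n : ℕ, |x| ≤ n • a := fun x => Iff.rfl
  have habs : ∀ (n : ℤ) (x : G), |n • x| = n.natAbs • |x| := by
    intro n x
    rw [abs_zsmul, Int.abs_eq_natAbs, natCast_zsmul]
  -- divisibility
  let dG : DivisibleBy G ℤ := by
    apply divisibleByOfSMulRightSurj G ℤ
    intro n hn x
    obtain ⟨y, hy⟩ := nsmul_surj hdiv n.natAbs (Int.natAbs_ne_zero.mpr hn) x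
    have hy' : n.natAbs • y = x := hy
    rcases Int.natAbs_eq n with h | h
    · refine ⟨y, ?_⟩
      show n • y = x
      rw [h, natCast_zsmul, hy']
    · refine ⟨-y, ?_⟩
      show n • (-y) = x
      rw [h, neg_smul, smul_neg, neg_neg, natCast_zsmul, hy']
  -- a rational valued functional on `G ⧸ H`
  let f : ℤ →ₗ[ℤ] (G ⧸ H) := LinearMap.toSpanSingleton ℤ (G ⧸ H) (QuotientAddGroup.mk b)
  have hf1 : ∀ n : ℤ, f n = QuotientAddGroup.mk (n • b) := fun n => by
    show n • (QuotientAddGroup.mk b : G ⧸ H) = _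
    rfl
  have hfinj : Function.Injective f := by
    rw [injective_iff_map_eq_zero]
    intro n hn
    rw [hf1, QuotientAddGroup.eq_zero_iff, hmemH] at hn
    obtain ⟨k, hk⟩ := hn
    by_contra hn0
    rw [habs, abs_of_pos hb] at hk
    have h1 : b ≤ n.natAbs • b := by
      conv_lhs => rw [← one_nsmul b]
      exact nsmul_le_nsmul_left hb.le (Nat.one_le_iff_ne_zero.mpr (Int.natAbs_ne_zero.mpr hn0))
    exact absurd (h1.trans hk) (not_le.mpr (hna k))
  obtain ⟨h, hh⟩ := (Module.Baer.of_divisible ℚ).extension_property f hfinj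
    (Int.castAddHom ℚ).toIntLinearMap
  let g : ℤ →ₗ[ℤ] ℚ := (Int.castAddHom ℚ).toIntLinearMap
  have hginj : Function.Injective g := fun x y hxy => Int.cast_injective hxy
  obtain ⟨L, hL⟩ := (Module.Baer.of_divisible G).extension_property g hginj
    (LinearMap.toSpanSingleton ℤ G a)
  have hL1 : ∀ n : ℤ, L (n : ℚ) = n • a := fun n => LinearMap.congr_fun hL n
  have hh1 : h (QuotientAddGroup.mk b) = 1 := by
    have := LinearMap.congr_fun hh 1
    have e : f 1 = QuotientAddGroup.mk b := by rw [hf1, one_smul]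
    rw [LinearMap.comp_apply, e] at this
    rw [this]
    simp
  let ψ : G →+ G := (L.toAddMonoidHom.comp h.toAddMonoidHom).comp (QuotientAddGroup.mk' H)
  have hψ : ∀ x, ψ x = L (h (QuotientAddGroup.mk x)) := fun _ => rfl
  have hψH : ∀ x ∈ H, ψ x = 0 := by
    intro x hx
    rw [hψ, (QuotientAddGroup.eq_zero_iff x).2 hx, map_zero, map_zero]
  have hψb : ψ b = a := by
    rw [hψ, hh1]
    have := hL1 1
    simpa using this
  have hLH : ∀ q : ℚ, L q ∈ H := by
    intro q
    rw [hmemH]
    refine ⟨q.num.natAbs, ?_⟩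
    have h1 : (q.den : ℤ) • L q = q.num • a := by
      rw [← map_smul, ← hL1]
      congr 1
      rw [zsmul_eq_mul, mul_comm]
      exact_mod_cast Rat.mul_den_eq_num q
    have h2 := congrArg abs h1
    rw [habs, habs, abs_of_pos ha, Int.natAbs_natCast] at h2
    rw [← h2]
    conv_lhs => rw [← one_nsmul |L q|]
    exact nsmul_le_nsmul_left (abs_nonneg _) q.den_pos
  have hψmem : ∀ x, ψ x ∈ H := fun x => hLH _
  have hpos : ∀ x : G, 0 < x → 0 < x + ψ x := by
    intro x hx
    by_cases hxH : x ∈ H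
    · rw [hψH x hxH, add_zero]
      exact hx
    · by_contra hle
      push Not at hle
      obtain ⟨n, hn⟩ := (hmemH _).1 (hψmem x)
      apply hxH
      refine (hmemH _).2 ⟨n, ?_⟩
      rw [abs_of_pos hx]
      calc x ≤ -ψ x := by
              have := sub_nonneg.mpr hle
              have e : 0 - (x + ψ x) = -ψ x - x := by abel
              rw [e] at this
              exact sub_nonneg.mp this
        _ ≤ |ψ x| := neg_le_abs _
        _ ≤ n • a := hn
  let φ : {x : G // 0 < x} →ₙ+ {x : G // 0 < x} :=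
    { toFun := fun x => ⟨(x : G) + ψ x, hpos x x.2⟩
      map_add' := fun x y => Subtype.ext (by
        simp only [Positive.coe_add, map_add]
        abel) }
  have hφ : ∀ x : {x : G // 0 < x}, (φ x : G) = (x : G) + ψ x := fun _ => rfl
  obtain ⟨k, m, hkm⟩ := hrat φ
  have ha' : (a : G) ∈ H := (hmemH a).2 ⟨1, by rw [abs_of_pos ha, one_smul]⟩
  have e1 := congrArg Subtype.val (hkm ⟨a, ha⟩)
  rw [coe_multiple_cone, coe_multiple_cone, hφ] at e1
  simp only [hψH a ha', add_zero] at e1
  have e2 : m + 1 = k + 1 := by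
    rcases lt_trichotomy (m + 1) (k + 1) with h | h | h
    · exact absurd e1 (nsmul_lt_nsmul_left ha h).ne
    · exact h
    · exact absurd e1.symm (nsmul_lt_nsmul_left ha h).ne
  have e3 := congrArg Subtype.val (hkm ⟨b, hb⟩)
  rw [coe_multiple_cone, coe_multiple_cone, hφ, e2] at e3
  simp only [hψb] at e3
  have e4 : (k + 1) • (b : G) < (k + 1) • (b + a) := by
    apply nsmul_lt_nsmul_right (Nat.succ_ne_zero k)
    exact lt_add_of_pos_right b ha
  exact e4.ne' e3

theorem rigid_of_solvesQ1 (hS : SolvesQ1 {x : G // 0 < x}) :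
    ∃ A : AddSubgroup ℝ, IsRigid A ∧ Nonempty (G ≃+o A) := by
  obtain ⟨⟨x₀⟩, hdiv, -, hrat⟩ := solvesQ1_iff.1 hS
  have := archimedean_of hdiv hrat
  obtain ⟨f, hf⟩ := Archimedean.exists_orderAddMonoidHom_real_injective G
  have hmono : StrictMono f := (OrderHomClass.mono f).strictMono_of_injective hf
  have hpos : ∀ x, 0 < x → 0 < f x := fun x hx => by
    have := hmono hx
    rwa [map_zero] at this
  refine ⟨(f : G →+ ℝ).range, ⟨?_, ?_⟩, ?_⟩
  · intro hbot
    have : f x₀ ∈ (f : G →+ ℝ).range := ⟨x₀, rfl⟩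
    rw [hbot, AddSubgroup.mem_bot] at this
    exact (hpos x₀ x₀.2).ne' this
  · have main : ∀ r : ℝ, 0 < r → (∀ a ∈ (f : G →+ ℝ).range, r * a ∈ (f : G →+ ℝ).range) →
        ∃ q : ℚ, (q : ℝ) = r := by
      intro r hr hrA
      have hex : ∀ x : {x : G // 0 < x}, ∃ y : {x : G // 0 < x}, f (y : G) = r * f x := by
        intro x
        obtain ⟨y, hy⟩ := hrA _ ⟨(x : G), rfl⟩
        have hy' : f y = r * f x := hy
        refine ⟨⟨y, ?_⟩, hy'⟩
        have : f 0 < f y := by
          rw [map_zero, hy']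
          exact mul_pos hr (hpos x x.2)
        exact hmono.lt_iff_lt.1 this
      choose y hy using hex
      let φ : {x : G // 0 < x} →ₙ+ {x : G // 0 < x} :=
        { toFun := y
          map_add' := fun a b => Subtype.ext (hf (by
            rw [Positive.coe_add, map_add, hy, hy, hy, Positive.coe_add, map_add, mul_add])) }
      obtain ⟨k, m, hkm⟩ := hrat φ
      have e1 := congrArg (fun t : {x : G // 0 < x} => f (t : G)) (hkm x₀)
      simp only [coe_multiple_cone, map_nsmul, nsmul_eq_mul] at e1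
      have e2 : f (φ x₀ : G) = r * f x₀ := hy x₀
      rw [e2] at e1
      have hx0 := hpos x₀ x₀.2
      refine ⟨((k : ℚ) + 1) / (m + 1), ?_⟩
      push_cast at e1 ⊢
      rw [div_eq_iff (by positivity)]
      have : (((m : ℝ) + 1) * r) * f x₀ = (k + 1) * f x₀ := by rw [← e1]; ring
      have := mul_right_cancel₀ hx0.ne' this
      linarith
    intro r
    constructor
    · intro hrA
      rcases lt_trichotomy r 0 with h | h | h
      · obtain ⟨q, hq⟩ := main (-r) (neg_pos.mpr h) (fun a ha => by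
          rw [neg_mul]
          exact (f : G →+ ℝ).range.neg_mem (hrA a ha))
        exact ⟨-q, by push_cast; rw [hq]; ring⟩
      · exact ⟨0, by rw [h]; simp⟩
      · exact main r h hrA
    · rintro ⟨q, rfl⟩ _ ⟨x, rfl⟩
      obtain ⟨y, hy⟩ := nsmul_surj hdiv q.den q.den_pos.ne' x
      have hy' : q.den • y = x := hy
      refine ⟨q.num • y, ?_⟩
      show f (q.num • y) = q * f x
      have hq : (q : ℝ) * q.den = q.num := by exact_mod_cast Rat.mul_den_eq_num q
      rw [← hy', map_zsmul, map_nsmul, zsmul_eq_mul, nsmul_eq_mul, ← hq]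
      ring
  · refine ⟨{ toEquiv := Equiv.ofBijective (fun x => (⟨f x, x, rfl⟩ : (f : G →+ ℝ).range)) ⟨?_, ?_⟩, map_add' := ?_, map_le_map_iff' := ?_ }⟩
    · intro x y h
      exact hf (congrArg Subtype.val h)
    · rintro ⟨_, x, rfl⟩
      exact ⟨x, rfl⟩
    · intro x y
      exact Subtype.ext (map_add f x y)
    · intro x y
      exact hmono.le_iff_le

theorem solvesQ1_of_orderIso (A : AddSubgroup ℝ) (hA : IsRigid A) (e : G ≃+o A) :
    SolvesQ1 {x : G // 0 < x} := by
  let f : G →+ ℝ := A.subtype.comp (e : G ≃+ A).toAddMonoidHom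
  have hfe : ∀ x, f x = (e x : ℝ) := fun _ => rfl
  have hrange : f.range = A := by
    ext a
    constructor
    · rintro ⟨x, rfl⟩
      exact (e x).2
    · intro ha
      exact ⟨e.symm ⟨a, ha⟩, by rw [hfe, e.apply_symm_apply]⟩
  apply solvesQ1_of_rigid f
  · intro x hx
    have h1 : e 0 < e x := by
      rw [lt_iff_le_not_ge]
      exact ⟨(map_le_map_iff e).2 hx.le, fun h => absurd ((map_le_map_iff e).1 h) (not_le.mpr hx)⟩
    rw [map_zero] at h1
    exact h1
  · rw [hrange]
    exact hA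

theorem solvesQ1_cone_iff :
    SolvesQ1 {x : G // 0 < x} ↔ ∃ A : AddSubgroup ℝ, IsRigid A ∧ Nonempty (G ≃+o A) :=
  ⟨rigid_of_solvesQ1, fun ⟨A, hA, ⟨e⟩⟩ => solvesQ1_of_orderIso A hA e⟩

end ordered2

end Pool.Agent.Helper142.RatEnd


namespace Pool.Agent.Helper142.RatEnd

section nonneg

variable {G : Type u} [AddCommGroup G] [LinearOrder G] [IsOrderedAddMonoid G]

theorem coe_multiple_nn (n : ℕ) (x : {x : G // 0 ≤ x}) :
    ((multiple n x : {x : G // 0 ≤ x}) : G) = (n + 1) • (x : G) := by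
  induction n with
  | zero => simp [multiple]
  | succ n ih => rw [multiple, Nonneg.coe_add, ih, succ_nsmul _ (n + 1)]

theorem q1_of_q2 (h : SolvesQ2 {x : G // 0 ≤ x}) : SolvesQ1 {x : G // 0 < x} := by
  obtain ⟨z, hz, ⟨s, hs⟩, -, hdiv, hrat⟩ := solvesQ2_iff.1 h
  have hz0 : z = 0 := by
    have := hz 0
    rwa [add_zero] at this
  subst hz0
  have hspos : 0 < (s : G) := lt_of_le_of_ne s.2 (fun h => hs (Subtype.ext h.symm))
  rw [solvesQ1_iff]
  refine ⟨⟨⟨(s : G), hspos⟩⟩, ?_, ?_, ?_⟩
  · intro n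
    constructor
    · intro x y hxy
      have h1 : multiple n (⟨(x : G), x.2.le⟩ : {x : G // 0 ≤ x}) = multiple n ⟨(y : G), y.2.le⟩ := by
        apply Subtype.ext
        rw [coe_multiple_nn, coe_multiple_nn]
        have := congrArg Subtype.val hxy
        rwa [coe_multiple_cone, coe_multiple_cone] at this
      have h2 := congrArg Subtype.val ((hdiv n).1 h1)
      exact Subtype.ext h2
    · intro x
      obtain ⟨y, hy⟩ := (hdiv n).2 ⟨(x : G), x.2.le⟩
      have hy' := congrArg Subtype.val hy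
      rw [coe_multiple_nn] at hy'
      have hy0 : 0 < (y : G) := by
        apply lt_of_le_of_ne y.2
        intro h0
        rw [← h0, smul_zero] at hy'
        exact x.2.ne hy'
      refine ⟨⟨(y : G), hy0⟩, Subtype.ext ?_⟩
      rw [coe_multiple_cone]
      exact hy'
  · intro x hx
    have := congrArg Subtype.val hx
    rw [Positive.coe_add] at this
    have h2 : (x : G) = 0 := by simpa using this
    exact x.2.ne' h2
  · intro φ
    classical
    let ext' : {x : G // 0 ≤ x} → {x : G // 0 ≤ x} := fun x =>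
      if hx : 0 < (x : G) then ⟨(φ ⟨x, hx⟩ : G), (φ ⟨x, hx⟩).2.le⟩ else 0
    have he1 : ∀ (x : {x : G // 0 ≤ x}) (hx : 0 < (x : G)),
        (ext' x : G) = (φ ⟨x, hx⟩ : G) := fun x hx => by
      simp only [ext', dif_pos hx]
    have he2 : ∀ (x : {x : G // 0 ≤ x}), ¬ 0 < (x : G) → x = 0 := fun x hx =>
      Subtype.ext (le_antisymm (not_lt.mp hx) x.2)
    have he0 : ext' 0 = 0 := by
      simp only [ext']
      rw [dif_neg]
      exact lt_irrefl _
    have hadd : ∀ x y, ext' (x + y) = ext' x + ext' y := by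
      intro x y
      by_cases hx : 0 < (x : G)
      · by_cases hy : 0 < (y : G)
        · apply Subtype.ext
          have hxy : 0 < ((x + y : {x : G // 0 ≤ x}) : G) := by
            rw [Nonneg.coe_add]
            exact add_pos hx hy
          rw [Nonneg.coe_add, he1 _ hx, he1 _ hy, he1 _ hxy, ← Positive.coe_add, ← map_add]
          rfl
        · rw [he2 y hy, add_zero, he0, add_zero]
      · rw [he2 x hx, zero_add, he0, zero_add]
    rcases hrat ⟨ext', hadd⟩ with h0 | ⟨k, m, hkm⟩
    · exfalso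
      have h1 := congrArg Subtype.val (h0 s)
      have h2 : (ext' s : G) = 0 := h1
      rw [he1 s hspos] at h2
      exact (φ ⟨s, hspos⟩).2.ne' h2
    · refine ⟨k, m, fun x => Subtype.ext ?_⟩
      have h1 := congrArg Subtype.val (hkm ⟨(x : G), x.2.le⟩)
      rw [coe_multiple_nn, coe_multiple_nn] at h1
      rw [coe_multiple_cone, coe_multiple_cone]
      have h2 : (ext' ⟨(x : G), x.2.le⟩ : G) = (φ x : G) := he1 _ x.2
      rw [← h2]
      exact h1

theorem q2_of_q1 (h : SolvesQ1 {x : G // 0 < x}) : SolvesQ2 {x : G // 0 ≤ x} := by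
  obtain ⟨⟨s⟩, hdiv, -, hrat⟩ := solvesQ1_iff.1 h
  have := archimedean_of hdiv hrat
  rw [solvesQ2_iff]
  refine ⟨0, fun x => zero_add x, ⟨⟨s, s.2.le⟩, fun h0 => s.2.ne' (congrArg Subtype.val h0)⟩,
    ?_, ?_, ?_⟩
  · intro f hf
    have := congrArg Subtype.val hf
    rw [Nonneg.coe_add] at this
    have h2 : (f : G) = 0 := by simpa using this
    exact Subtype.ext h2
  · intro n
    constructor
    · intro x y hxy
      apply Subtype.ext
      have h1 := congrArg Subtype.val hxy
      rw [coe_multiple_nn, coe_multiple_nn] at h1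
      rcases lt_trichotomy (x : G) y with h | h | h
      · exact absurd h1 (nsmul_lt_nsmul_right (Nat.succ_ne_zero n) h).ne
      · exact h
      · exact absurd h1.symm (nsmul_lt_nsmul_right (Nat.succ_ne_zero n) h).ne
    · intro x
      rcases x.2.eq_or_lt with h0 | hpos
      · refine ⟨0, Subtype.ext ?_⟩
        rw [coe_multiple_nn, ← h0]
        simp
      · obtain ⟨y, hy⟩ := (hdiv n).2 ⟨(x : G), hpos⟩
        refine ⟨⟨(y : G), y.2.le⟩, Subtype.ext ?_⟩
        rw [coe_multiple_nn]
        have := congrArg Subtype.val hy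
        rwa [coe_multiple_cone] at this
  · intro φ
    by_cases hall : ∀ x, φ x = 0
    · exact Or.inl hall
    · right
      push Not at hall
      obtain ⟨s₁, hs₁⟩ := hall
      have hφ0 : φ 0 = 0 := by
        have h1 : φ 0 + φ 0 = φ 0 := by rw [← map_add, add_zero]
        have := congrArg Subtype.val h1
        rw [Nonneg.coe_add] at this
        have h2 : (φ 0 : G) = 0 := by simpa using this
        exact Subtype.ext h2
      have hpos : ∀ x : {x : G // 0 < x}, 0 < (φ ⟨(x : G), x.2.le⟩ : G) := by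
        intro x
        apply lt_of_le_of_ne (φ ⟨(x : G), x.2.le⟩).2
        intro h0
        have h0' : φ ⟨(x : G), x.2.le⟩ = 0 := Subtype.ext h0.symm
        obtain ⟨n, hn⟩ := Archimedean.arch (s₁ : G) x.2
        have hn' : (s₁ : G) ≤ (n + 1) • (x : G) :=
          hn.trans (nsmul_le_nsmul_left x.2.le (Nat.le_succ n))
        let w : {x : G // 0 ≤ x} := ⟨(n + 1) • (x : G) - s₁, sub_nonneg.mpr hn'⟩
        have h1 : multiple n (⟨(x : G), x.2.le⟩ : {x : G // 0 ≤ x}) = s₁ + w := by
          apply Subtype.ext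
          rw [coe_multiple_nn, Nonneg.coe_add]
          show _ = (s₁ : G) + ((n + 1) • (x : G) - s₁)
          abel
        have h2 := congrArg φ h1
        rw [multiple_map, map_add, h0'] at h2
        have h3 := congrArg Subtype.val h2
        rw [coe_multiple_nn, Nonneg.coe_add] at h3
        have h4 : (0 : G) = (φ s₁ : G) + (φ w : G) := by
          rw [← h3, Nonneg.coe_zero, smul_zero]
        have h5 : 0 < (φ s₁ : G) := lt_of_le_of_ne (φ s₁).2 (fun h => hs₁ (Subtype.ext h.symm))
        exact (add_pos_of_pos_of_nonneg h5 (φ w).2).ne h4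
      let φ' : {x : G // 0 < x} →ₙ+ {x : G // 0 < x} :=
        { toFun := fun x => ⟨(φ ⟨(x : G), x.2.le⟩ : G), hpos x⟩
          map_add' := fun x y => Subtype.ext (by
            have := congrArg Subtype.val (map_add φ ⟨(x : G), x.2.le⟩ ⟨(y : G), y.2.le⟩)
            exact this) }
      obtain ⟨k, m, hkm⟩ := hrat φ'
      refine ⟨k, m, fun x => Subtype.ext ?_⟩
      rw [coe_multiple_nn, coe_multiple_nn]
      rcases x.2.eq_or_lt with h0 | hx
      · have hx0 : x = 0 := Subtype.ext h0.symm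
        rw [hx0, hφ0]
        simp
      · have h1 := congrArg Subtype.val (hkm ⟨(x : G), hx⟩)
        rw [coe_multiple_cone, coe_multiple_cone] at h1
        exact h1

theorem solvesQ2_cone_iff :
    SolvesQ2 {x : G // 0 ≤ x} ↔ ∃ A : AddSubgroup ℝ, IsRigid A ∧ Nonempty (G ≃+o A) := by
  rw [← solvesQ1_cone_iff]
  exact ⟨q1_of_q2, q2_of_q1⟩

end nonneg

end Pool.Agent.Helper142.RatEnd


namespace Pool.Agent.Helper142.RatEnd

section family

open MvPolynomial

/-- There is an algebraically independent family of reals indexed by any type of cardinality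
at most the continuum. -/
theorem exists_algInd (ι : Type) (hι : #ι ≤ 𝔠) : ∃ x : ι → ℝ, AlgebraicIndependent ℚ x := by
  obtain ⟨s, hs⟩ := exists_isTranscendenceBasis ℚ ℝ
  have hcard : 𝔠 ≤ #s := by
    by_contra hlt
    push Not at hlt
    have : Algebra.IsAlgebraic (Algebra.adjoin ℚ (Set.range (Subtype.val : s → ℝ))) ℝ :=
      hs.isAlgebraic
    have h1 := Algebra.IsAlgebraic.cardinalMk_le_max
      (Algebra.adjoin ℚ (Set.range (Subtype.val : s → ℝ))) ℝ
    have h2 : #(Algebra.adjoin ℚ (Set.range (Subtype.val : s → ℝ))) = #(MvPolynomial s ℚ) :=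
      (Cardinal.mk_congr hs.1.aevalEquiv.toEquiv).symm
    have h3 : #(MvPolynomial s ℚ) ≤ max (max #ℚ #s) ℵ₀ := MvPolynomial.cardinalMk_le_max
    rw [h2] at h1
    have h4 : #ℝ < 𝔠 := by
      refine lt_of_le_of_lt h1 (max_lt (lt_of_le_of_lt h3 (max_lt (max_lt ?_ hlt) ?_)) ?_)
      · rw [Cardinal.mkRat]; exact aleph0_lt_continuum
      · exact aleph0_lt_continuum
      · exact aleph0_lt_continuum
    rw [mk_real] at h4
    exact lt_irrefl _ h4
  obtain ⟨j⟩ : Nonempty (ι ↪ s) := (hι.trans hcard)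
  exact ⟨fun i => (j i : ℝ), hs.1.comp j j.injective⟩

variable {κ : Type} (x : κ → ℝ)

/-- `ℚ + Σ_{t ∈ T} ℚ x_t`, written as the values at `x` of the polynomials of degree `≤ 1` whose
variables lie in `T`. -/
def linSpan (T : Set κ) : AddSubgroup ℝ where
  carrier := {r | ∃ P : MvPolynomial κ ℚ, P.totalDegree ≤ 1 ∧ (P.vars : Set κ) ⊆ T ∧ aeval x P = r}
  zero_mem' := ⟨0, by simp, by simp, by simp⟩
  add_mem' := by
    classical
    rintro _ _ ⟨P, hP1, hP2, rfl⟩ ⟨Q, hQ1, hQ2, rfl⟩
    refine ⟨P + Q, (totalDegree_add P Q).trans (max_le hP1 hQ1), ?_, map_add _ _ _⟩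
    intro i hi
    rcases Finset.mem_union.1 (vars_add_subset P Q hi) with h | h
    · exact hP2 h
    · exact hQ2 h
  neg_mem' := by
    classical
    rintro _ ⟨P, hP1, hP2, rfl⟩
    exact ⟨-P, by rwa [totalDegree_neg], by rwa [vars_neg], map_neg _ _⟩

variable {x}

theorem one_mem (T : Set κ) : (1 : ℝ) ∈ linSpan x T :=
  ⟨1, by simp, by simp, by simp⟩

theorem var_mem {T : Set κ} {i : κ} (hi : i ∈ T) : x i ∈ linSpan x T := by
  classical
  refine ⟨X i, by simp, ?_, by simp⟩
  rw [vars_X]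
  simpa using hi

theorem rat_mul_mem {T : Set κ} (q : ℚ) {a : ℝ} (ha : a ∈ linSpan x T) :
    (q : ℝ) * a ∈ linSpan x T := by
  classical
  obtain ⟨P, hP1, hP2, rfl⟩ := ha
  refine ⟨C q * P, ?_, ?_, ?_⟩
  · refine (totalDegree_mul _ _).trans ?_
    rw [totalDegree_C, zero_add]
    exact hP1
  · intro i hi
    have := vars_mul (C q) P hi
    rw [vars_C, Finset.empty_union] at this
    exact hP2 this
  · rw [map_mul, aeval_C]
    rfl

/-- If `r` and `r x_i` both lie in a span, then `r` is rational. -/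
theorem rat_of_mul_var (hx : AlgebraicIndependent ℚ x) {T : Set κ} {r : ℝ} {i : κ}
    (h1 : r ∈ linSpan x T) (h2 : r * x i ∈ linSpan x T) : ∃ q : ℚ, (q : ℝ) = r := by
  obtain ⟨P, hP1, -, rfl⟩ := h1
  obtain ⟨Q, hQ1, -, hQ⟩ := h2
  have hPQ : Q = P * X i := by
    apply hx
    rw [hQ, map_mul, aeval_X]
  by_cases hP0 : P = 0
  · exact ⟨0, by rw [hP0]; simp⟩
  · have h3 := totalDegree_mul_of_isDomain hP0 (X_ne_zero (R := ℚ) i)
    rw [← hPQ, totalDegree_X] at h3
    have h4 : P.totalDegree = 0 := by omega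
    rw [totalDegree_eq_zero_iff_eq_C] at h4
    refine ⟨coeff 0 P, ?_⟩
    rw [h4, aeval_C]
    simp

theorem isRigid_linSpan (hx : AlgebraicIndependent ℚ x) {T : Set κ} {i : κ} (hi : i ∈ T) :
    IsRigid (linSpan x T) := by
  constructor
  · intro h
    have := one_mem (x := x) T
    rw [h, AddSubgroup.mem_bot] at this
    exact one_ne_zero this
  · intro r
    constructor
    · intro hr
      apply rat_of_mul_var hx (T := T) (i := i)
      · simpa using hr 1 (one_mem T)
      · exact hr _ (var_mem hi)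
    · rintro ⟨q, rfl⟩ a ha
      exact rat_mul_mem q ha

theorem mem_of_linSpan (hx : AlgebraicIndependent ℚ x) {T : Set κ} {i : κ}
    (h : x i ∈ linSpan x T) : i ∈ T := by
  classical
  obtain ⟨P, -, hP, hPi⟩ := h
  have : P = X i := by
    apply hx
    rw [hPi, aeval_X]
  rw [this, vars_X] at hP
  exact hP (by simp)

theorem eq_of_iso (hx : AlgebraicIndependent ℚ x) {T T' : Set κ} {i : κ} (hi : i ∈ T)
    (e : {a : linSpan x T // 0 < a} ≃+ {a : linSpan x T' // 0 < a}) : T = T' := by
  have hone : (0 : linSpan x T) < ⟨1, one_mem T⟩ := by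
    show (0 : ℝ) < 1
    exact one_pos
  set c : ℝ := ((e ⟨⟨1, one_mem T⟩, hone⟩ : linSpan x T') : ℝ) with hc
  have hmul : ∀ a : {a : linSpan x T // 0 < a}, (((e a : linSpan x T')) : ℝ) = c * ((a : linSpan x T) : ℝ) := by
    intro a
    have := ratio_const (linSpan x T).subtype (fun x hx => hx) (linSpan x T').subtype
      (fun x hx => hx) (e : _ →ₙ+ _) a ⟨⟨1, one_mem T⟩, hone⟩
    simp only [AddSubgroup.coe_subtype, mul_one] at this
    exact this
  have hcpos : 0 < c := (e ⟨⟨1, one_mem T⟩, hone⟩).2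
  have hmem : ∀ a ∈ linSpan x T, c * a ∈ linSpan x T' := by
    intro a ha
    rcases lt_trichotomy a 0 with h | h | h
    · have h0 : (0 : linSpan x T) < -⟨a, ha⟩ := by
        show (0 : ℝ) < -a
        linarith
      have := hmul ⟨-⟨a, ha⟩, h0⟩
      have e2 : c * a = -(((e ⟨-⟨a, ha⟩, h0⟩ : linSpan x T')) : ℝ) := by
        rw [this]
        show c * a = -(c * (-a))
        ring
      rw [e2]
      exact (linSpan x T').neg_mem (e ⟨-⟨a, ha⟩, h0⟩ : linSpan x T').2
    · rw [h, mul_zero]
      exact (linSpan x T').zero_mem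
    · have h0 : (0 : linSpan x T) < ⟨a, ha⟩ := h
      have := hmul ⟨⟨a, ha⟩, h0⟩
      have e2 : c * a = (((e ⟨⟨a, ha⟩, h0⟩ : linSpan x T')) : ℝ) := this.symm
      rw [e2]
      exact (e ⟨⟨a, ha⟩, h0⟩ : linSpan x T').2
  have hmem' : ∀ b ∈ linSpan x T', ∃ a ∈ linSpan x T, b = c * a := by
    intro b hb
    rcases lt_trichotomy b 0 with h | h | h
    · have h0 : (0 : linSpan x T') < -⟨b, hb⟩ := by
        show (0 : ℝ) < -b
        linarith
      refine ⟨-((e.symm ⟨-⟨b, hb⟩, h0⟩ : linSpan x T) : ℝ),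
        (linSpan x T).neg_mem (e.symm ⟨-⟨b, hb⟩, h0⟩ : linSpan x T).2, ?_⟩
      have := hmul (e.symm ⟨-⟨b, hb⟩, h0⟩)
      rw [e.apply_symm_apply] at this
      have h3 : -b = c * ((e.symm ⟨-⟨b, hb⟩, h0⟩ : linSpan x T) : ℝ) := this
      linarith
    · exact ⟨0, (linSpan x T).zero_mem, by rw [h, mul_zero]⟩
    · have h0 : (0 : linSpan x T') < ⟨b, hb⟩ := h
      refine ⟨((e.symm ⟨⟨b, hb⟩, h0⟩ : linSpan x T) : ℝ), (e.symm ⟨⟨b, hb⟩, h0⟩ : linSpan x T).2, ?_⟩
      have := hmul (e.symm ⟨⟨b, hb⟩, h0⟩)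
      rw [e.apply_symm_apply] at this
      exact this
  obtain ⟨q, hq⟩ := rat_of_mul_var hx (T := T') (i := i) (by simpa using hmem 1 (one_mem T))
    (hmem _ (var_mem hi))
  have hq0 : q ≠ 0 := by
    rintro rfl
    rw [← hq] at hcpos
    simp at hcpos
  apply Set.Subset.antisymm
  · intro j hj
    apply mem_of_linSpan hx
    have h1 := rat_mul_mem q⁻¹ (hmem _ (var_mem hj))
    have h2 : ((q⁻¹ : ℚ) : ℝ) * (c * x j) = x j := by
      rw [← hq, ← mul_assoc]
      have : ((q⁻¹ : ℚ) : ℝ) * (q : ℝ) = 1 := by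
        exact_mod_cast inv_mul_cancel₀ hq0
      rw [this, one_mul]
    rwa [h2] at h1
  · intro j hj
    apply mem_of_linSpan hx
    obtain ⟨a, ha, hab⟩ := hmem' _ (var_mem hj)
    rw [hab, ← hq]
    exact rat_mul_mem q ha

end family

end Pool.Agent.Helper142.RatEnd


namespace Pool.Agent.Helper142.RatEnd

section family2

open MvPolynomial

/-- An isomorphism of the nonnegative cones restricts to the positive cones. -/
theorem posIso_of_nonneg {G : Type u} [AddCommGroup G] [LinearOrder G] [IsOrderedAddMonoid G]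
    {H : Type v} [AddCommGroup H] [LinearOrder H] [IsOrderedAddMonoid H]
    (e : {x : G // 0 ≤ x} ≃+ {x : H // 0 ≤ x}) :
    Nonempty ({x : G // 0 < x} ≃+ {x : H // 0 < x}) := by
  have hpos : ∀ x : {x : G // 0 < x}, 0 < (e ⟨(x : G), x.2.le⟩ : H) := by
    intro x
    apply lt_of_le_of_ne (e ⟨(x : G), x.2.le⟩).2
    intro h
    have h1 : e ⟨(x : G), x.2.le⟩ = 0 := Subtype.ext h.symm
    have h2 : (⟨(x : G), x.2.le⟩ : {x : G // 0 ≤ x}) = 0 := by
      apply e.injective
      rw [h1, map_zero]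
    exact x.2.ne' (congrArg Subtype.val h2)
  have hpos' : ∀ x : {x : H // 0 < x}, 0 < (e.symm ⟨(x : H), x.2.le⟩ : G) := by
    intro x
    apply lt_of_le_of_ne (e.symm ⟨(x : H), x.2.le⟩).2
    intro h
    have h1 : e.symm ⟨(x : H), x.2.le⟩ = 0 := Subtype.ext h.symm
    have h2 : (⟨(x : H), x.2.le⟩ : {x : H // 0 ≤ x}) = 0 := by
      apply e.symm.injective
      rw [h1, map_zero]
    exact x.2.ne' (congrArg Subtype.val h2)
  refine ⟨{ toFun := fun x => ⟨(e ⟨(x : G), x.2.le⟩ : H), hpos x⟩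
            invFun := fun x => ⟨(e.symm ⟨(x : H), x.2.le⟩ : G), hpos' x⟩
            left_inv := ?_
            right_inv := ?_
            map_add' := ?_ }⟩
  · intro x
    apply Subtype.ext
    have := congrArg Subtype.val (e.symm_apply_apply ⟨(x : G), x.2.le⟩)
    exact this
  · intro x
    apply Subtype.ext
    have := congrArg Subtype.val (e.apply_symm_apply ⟨(x : H), x.2.le⟩)
    exact this
  · intro x y
    apply Subtype.ext
    have := congrArg Subtype.val (map_add e ⟨(x : G), x.2.le⟩ ⟨(y : G), y.2.le⟩)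
    exact this

/-- the index set used for the family -/
def idx {ι : Type} (U : Set ι) : Set (ι ⊕ ι) := Set.range Sum.inl ∪ Sum.inr '' U

theorem idx_injective {ι : Type} : Function.Injective (idx : Set ι → Set (ι ⊕ ι)) := by
  intro U V h
  ext i
  have : ∀ W : Set ι, Sum.inr i ∈ idx W ↔ i ∈ W := by
    intro W
    simp [idx]
  rw [← this U, ← this V, h]

theorem family_exists (ι : Type) [Infinite ι] (hι : #ι ≤ 𝔠) :
    ∃ F : Set ι → AddSubgroup ℝ,
      (∀ U, IsRigid (F U) ∧ SolvesQ1 {a : F U // 0 < a} ∧ SolvesQ2 {a : F U // 0 ≤ a} ∧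
        #{a : F U // 0 < a} = #ι ∧ #{a : F U // 0 ≤ a} = #ι) ∧
      (∀ U V, U ≠ V → IsEmpty ({a : F U // 0 < a} ≃+ {a : F V // 0 < a}) ∧
        IsEmpty ({a : F U // 0 ≤ a} ≃+ {a : F V // 0 ≤ a})) := by
  have hinf : ℵ₀ ≤ #ι := Cardinal.infinite_iff.1 inferInstance
  have hsum : #(ι ⊕ ι) = #ι := by
    rw [Cardinal.mk_sum]
    simp only [Cardinal.lift_id]
    exact Cardinal.add_eq_self hinf
  obtain ⟨x, hx⟩ := exists_algInd (ι ⊕ ι) (by rw [hsum]; exact hι)
  obtain ⟨i₀⟩ : Nonempty ι := inferInstance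
  have hmem : ∀ (U : Set ι) (i : ι), Sum.inl i ∈ idx U := fun U i => Or.inl ⟨i, rfl⟩
  have hq1 : ∀ U : Set ι, SolvesQ1 {a : linSpan x (idx U) // 0 < a} := fun U =>
    solvesQ1_of_orderIso (linSpan x (idx U)) (isRigid_linSpan hx (hmem U i₀)) (OrderAddMonoidIso.refl _)
  have hup : ∀ U : Set ι, #(linSpan x (idx U)) ≤ #ι := by
    intro U
    have h1 : #(linSpan x (idx U)) ≤ #(MvPolynomial (ι ⊕ ι) ℚ) := by
      have hch : ∀ a : linSpan x (idx U), ∃ P : MvPolynomial (ι ⊕ ι) ℚ, aeval x P = (a : ℝ) := by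
        rintro ⟨a, P, -, -, h⟩
        exact ⟨P, h⟩
      choose g hg using hch
      apply Cardinal.mk_le_of_injective (f := g)
      intro a b hab
      apply Subtype.ext
      rw [← hg a, ← hg b, hab]
    refine h1.trans (MvPolynomial.cardinalMk_le_max.trans ?_)
    rw [hsum, Cardinal.mkRat]
    simp [hinf]
  have hinj : Function.Injective (fun i : ι => |x (Sum.inl i)|) := by
    intro i j hij
    have hij' : |x (Sum.inl i)| = |x (Sum.inl j)| := hij
    rcases abs_eq_abs.1 hij' with h | h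
    · exact Sum.inl_injective (hx.injective h)
    · exfalso
      have h1 : (X (Sum.inl i) + X (Sum.inl j) : MvPolynomial (ι ⊕ ι) ℚ) = 0 := by
        apply hx
        rw [map_add, aeval_X, aeval_X, h, map_zero]
        ring
      have h2 := congrArg (MvPolynomial.eval (fun _ => (1 : ℚ))) h1
      simp at h2
  have hpos : ∀ i : ι, 0 < |x (Sum.inl i)| := by
    intro i
    apply abs_pos.mpr
    intro h
    have h1 : (X (Sum.inl i) : MvPolynomial (ι ⊕ ι) ℚ) = 0 := by
      apply hx
      rw [aeval_X, h, map_zero]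
    exact X_ne_zero _ h1
  have hlow : ∀ U : Set ι, #ι ≤ #{a : linSpan x (idx U) // 0 < a} := by
    intro U
    have hm : ∀ i, |x (Sum.inl i)| ∈ linSpan x (idx U) := by
      intro i
      rcases abs_choice (x (Sum.inl i)) with h | h
      · rw [h]; exact var_mem (hmem U i)
      · rw [h]; exact (linSpan x (idx U)).neg_mem (var_mem (hmem U i))
    apply Cardinal.mk_le_of_injective
      (f := fun i : ι => (⟨⟨|x (Sum.inl i)|, hm i⟩, hpos i⟩ : {a : linSpan x (idx U) // 0 < a}))
    intro i j hij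
    apply hinj
    exact congrArg (fun t : {a : linSpan x (idx U) // 0 < a} => ((t : linSpan x (idx U)) : ℝ)) hij
  refine ⟨fun U => linSpan x (idx U), ?_, ?_⟩
  · intro U
    refine ⟨isRigid_linSpan hx (hmem U i₀), hq1 U, q2_of_q1 (hq1 U), ?_, ?_⟩
    · exact le_antisymm ((Cardinal.mk_subtype_le _).trans (hup U)) (hlow U)
    · refine le_antisymm ((Cardinal.mk_subtype_le _).trans (hup U)) ((hlow U).trans ?_)
      exact Cardinal.mk_subtype_mono (fun a ha => le_of_lt ha)
  · intro U V hUV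
    have key : IsEmpty ({a : linSpan x (idx U) // 0 < a} ≃+ {a : linSpan x (idx V) // 0 < a}) :=
      ⟨fun e => hUV (idx_injective (eq_of_iso hx (hmem U i₀) e))⟩
    refine ⟨key, ⟨fun e => ?_⟩⟩
    obtain ⟨e'⟩ := posIso_of_nonneg e
    exact key.elim e'

end family2

end Pool.Agent.Helper142.RatEnd


namespace Pool.Agent.Helper142.RatEnd

section functional

/-- A solution of Q1 with a nonzero additive map to the nonnegative rationals is `(ℚ_{>0}, +)`. -/
theorem eq_rat_of_functional {S : Type u} [AddCommSemigroup S] (hS : SolvesQ1 S)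
    (f : S →ₙ+ {q : ℚ // 0 ≤ q}) (hf : ∃ s, f s ≠ 0) : Nonempty (S ≃+ {q : ℚ // 0 < q}) := by
  obtain ⟨-, hdiv, hid, hrat⟩ := solvesQ1_iff.1 hS
  obtain ⟨e⟩ := hS
  classical
  set ε := e (AddHom.id S) with hε
  -- the rational action
  let act : {q : ℚ // 0 < q} → (S →ₙ+ S) := fun q => e.symm (q * ε)
  have act_add : ∀ p q s, act (p + q) s = act p s + act q s := by
    intro p q s
    show e.symm ((p + q) * ε) s = _
    rw [add_mul, map_add]
    rfl
  have act_spec : ∀ (q : {q : ℚ // 0 < q}) (k m : ℕ) (s : S), ((m : ℚ) + 1) * q = k + 1 →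
      multiple m (act q s) = multiple k s := by
    intro q k m s h
    have h1 : multiple m (act q) = multiple k (AddHom.id S) := by
      apply e.injective
      have a1 : e (multiple m (act q)) = multiple m (e (act q)) := multiple_map e m _
      have a2 : e (multiple k (AddHom.id S)) = multiple k (e (AddHom.id S)) :=
        multiple_map e k _
      rw [a1, a2]
      apply Subtype.ext
      rw [coe_multiple_pos, coe_multiple_pos, ← hε]
      show ((m : ℚ) + 1) * ((e (e.symm (q * ε)) : {q : ℚ // 0 < q}) : ℚ) = _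
      rw [e.apply_symm_apply, Positive.val_mul, ← mul_assoc, h]
    have h2 := DFunLike.congr_fun h1 s
    rw [multiple_apply, multiple_apply] at h2
    exact h2
  have f_act : ∀ (q : {q : ℚ // 0 < q}) (s : S), ((f (act q s) : {q : ℚ // 0 ≤ q}) : ℚ) = q * f s := by
    intro q s
    obtain ⟨k, m, hkm⟩ := exists_nat_ratio q 1 q.2 one_pos
    rw [mul_one] at hkm
    have h1 := congrArg f (act_spec q k m s hkm)
    rw [multiple_map, multiple_map] at h1
    have h2 := congrArg Subtype.val h1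
    rw [coe_multiple_nonneg, coe_multiple_nonneg, ← hkm, mul_assoc] at h2
    exact mul_left_cancel₀ (by positivity) h2
  obtain ⟨s₀, hs₀⟩ := hf
  have hs₀pos : 0 < (f s₀ : ℚ) := lt_of_le_of_ne (f s₀).2 (fun h => hs₀ (Subtype.ext h.symm))
  -- for `a` with `f a > 0`, the endomorphism `s ↦ s + f(s) a`
  have endo : ∀ a : S, ∃ φ : S →ₙ+ S, (∀ s, (f s : ℚ) = 0 → φ s = s) ∧
      ∀ s (h : 0 < (f s : ℚ)), φ s = s + act ⟨f s, h⟩ a := by
    intro a
    let g : S → S := fun s => if h : 0 < (f s : ℚ) then s + act ⟨f s, h⟩ a else s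
    have g1 : ∀ s (h : 0 < (f s : ℚ)), g s = s + act ⟨f s, h⟩ a := fun s h => by
      simp only [g, dif_pos h]
    have g2 : ∀ s, ¬ 0 < (f s : ℚ) → g s = s := fun s h => by
      simp only [g, dif_neg h]
    have hfadd : ∀ s t, (f (s + t) : ℚ) = f s + f t := fun s t => by
      rw [map_add, Nonneg.coe_add]
    refine ⟨⟨g, ?_⟩, fun s h => g2 s (by rw [h]; exact lt_irrefl _), g1⟩
    intro s t
    have hs := (f s).2
    have ht := (f t).2
    by_cases h1 : 0 < (f s : ℚ)
    · by_cases h2 : 0 < (f t : ℚ)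
      · have h3 : 0 < (f (s + t) : ℚ) := by rw [hfadd]; exact add_pos h1 h2
        rw [g1 _ h1, g1 _ h2, g1 _ h3]
        have : (⟨f (s + t), h3⟩ : {q : ℚ // 0 < q}) = ⟨f s, h1⟩ + ⟨f t, h2⟩ :=
          Subtype.ext (hfadd s t)
        rw [this, act_add, add_add_add_comm]
      · have h2' : (f t : ℚ) = 0 := le_antisymm (not_lt.mp h2) ht
        have h3 : 0 < (f (s + t) : ℚ) := by rw [hfadd, h2', add_zero]; exact h1
        rw [g1 _ h1, g2 _ h2, g1 _ h3]
        have : (⟨f (s + t), h3⟩ : {q : ℚ // 0 < q}) = ⟨f s, h1⟩ :=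
          Subtype.ext (by rw [hfadd, h2', add_zero])
        rw [this, add_right_comm]
    · have h1' : (f s : ℚ) = 0 := le_antisymm (not_lt.mp h1) hs
      by_cases h2 : 0 < (f t : ℚ)
      · have h3 : 0 < (f (s + t) : ℚ) := by rw [hfadd, h1', zero_add]; exact h2
        rw [g2 _ h1, g1 _ h2, g1 _ h3]
        have : (⟨f (s + t), h3⟩ : {q : ℚ // 0 < q}) = ⟨f t, h2⟩ :=
          Subtype.ext (by rw [hfadd, h1', zero_add])
        rw [this, add_assoc]
      · have h2' : (f t : ℚ) = 0 := le_antisymm (not_lt.mp h2) ht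
        have h3 : ¬ 0 < (f (s + t) : ℚ) := by rw [hfadd, h1', h2']; simp
        rw [g2 _ h1, g2 _ h2, g2 _ h3]
  -- `f` is positive
  have hfpos : ∀ s, 0 < (f s : ℚ) := by
    intro s
    by_contra h
    have h0 : (f s : ℚ) = 0 := le_antisymm (not_lt.mp h) (f s).2
    obtain ⟨φ, hφ1, hφ2⟩ := endo s₀
    obtain ⟨k, m, hkm⟩ := hrat φ
    have e1 := hkm s₀
    rw [hφ2 s₀ hs₀pos] at e1
    have e2 := congrArg (fun t => (f t : ℚ)) e1
    simp only [multiple_map, coe_multiple_nonneg, map_add, Nonneg.coe_add, f_act] at e2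
    have e3 : ((m : ℚ) + 1) * (1 + f s₀) = k + 1 := by
      have : (((m : ℚ) + 1) * (1 + f s₀)) * f s₀ = (k + 1) * f s₀ := by rw [← e2]; ring
      exact mul_right_cancel₀ hs₀pos.ne' this
    have e4 : m < k := by
      have : ((m : ℚ) + 1) < k + 1 := by rw [← e3]; nlinarith
      have : (m : ℚ) < k := by linarith
      exact_mod_cast this
    have e5 := hkm s
    rw [hφ1 s h0] at e5
    obtain ⟨c, hc⟩ := exists_idempotent s (m + 1) (k - m) (Nat.succ_pos m) (by omega) (by
      have : m + 1 + (k - m) = k + 1 := by omega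
      rw [this, ← coe_multiple, ← coe_multiple, e5])
    exact hid _ hc
  -- two elements with `f = 1` agree
  have hone : ∀ s a, (f s : ℚ) = 1 → (f a : ℚ) = 1 → multiple 1 s = s + a := by
    intro s a hs ha
    obtain ⟨φ, -, hφ2⟩ := endo a
    obtain ⟨k, m, hkm⟩ := hrat φ
    have e1 := hkm s
    rw [hφ2 s (hfpos s)] at e1
    have e2 := congrArg (fun t => (f t : ℚ)) e1
    simp only [multiple_map, coe_multiple_nonneg, map_add, Nonneg.coe_add, f_act, hs, ha] at e2
    have e3 : k + 1 = (m + 1) * 2 := by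
      have : (k : ℚ) + 1 = (m + 1) * 2 := by linarith
      exact_mod_cast this
    have e4 : act ⟨f s, hfpos s⟩ a = a := by
      have := act_spec ⟨f s, hfpos s⟩ 0 0 a (by
        show (((0 : ℕ) : ℚ) + 1) * (f s : ℚ) = ((0 : ℕ) : ℚ) + 1
        rw [hs, mul_one])
      exact this
    rw [e4] at e1
    apply (hdiv m).1
    rw [e1]
    apply WithZero.coe_injective
    rw [coe_multiple, coe_multiple, coe_multiple, e3, mul_smul]
  have huniq : ∀ s a, (f s : ℚ) = 1 → (f a : ℚ) = 1 → s = a := by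
    intro s a hs ha
    apply (hdiv 1).1
    rw [hone s a hs ha, hone a s ha hs, add_comm]
  -- the element with value one
  let inv : {q : ℚ // 0 < q} → {q : ℚ // 0 < q} := fun q => ⟨(q : ℚ)⁻¹, inv_pos.mpr q.2⟩
  have hnorm : ∀ s, (f (act (inv ⟨f s, hfpos s⟩) s) : ℚ) = 1 := by
    intro s
    rw [f_act]
    exact inv_mul_cancel₀ (hfpos s).ne'
  let F : S →ₙ+ {q : ℚ // 0 < q} :=
    { toFun := fun s => ⟨f s, hfpos s⟩
      map_add' := fun s t => Subtype.ext (by
        show ((f (s + t) : {q : ℚ // 0 ≤ q}) : ℚ) = _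
        rw [map_add, Nonneg.coe_add]
        rfl) }
  refine ⟨AddEquiv.ofBijective F ⟨?_, ?_⟩⟩
  · intro s t hst
    have h1 : (⟨f s, hfpos s⟩ : {q : ℚ // 0 < q}) = ⟨f t, hfpos t⟩ := hst
    have h2 : act (inv ⟨f s, hfpos s⟩) s = act (inv ⟨f t, hfpos t⟩) t :=
      huniq _ _ (hnorm s) (hnorm t)
    rw [h1] at h2
    obtain ⟨k, m, hkm⟩ := exists_nat_ratio (inv ⟨f t, hfpos t⟩) 1 (inv ⟨f t, hfpos t⟩).2 one_pos
    rw [mul_one] at hkm
    have h3 := congrArg (multiple m) h2
    rw [act_spec _ k m s hkm, act_spec _ k m t hkm] at h3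
    exact (hdiv k).1 h3
  · intro q
    refine ⟨act q (act (inv ⟨f s₀, hfpos s₀⟩) s₀), Subtype.ext ?_⟩
    show (f (act q (act (inv ⟨f s₀, hfpos s₀⟩) s₀)) : ℚ) = q
    rw [f_act, hnorm, mul_one]

end functional

end Pool.Agent.Helper142.RatEnd





namespace Pool.Agent.Helper142.RatEnd

section combinatorics

variable {X : Type u} [LinearOrder X]

/-- `δ` is the supremum of a strictly increasing sequence. -/
def IsLim (δ : X) : Prop := ∃ s : ℕ → X, StrictMono s ∧ IsLUB (Set.range s) δ

/-- a chosen strictly increasing sequence with supremum `δ` -/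
noncomputable def ladder {δ : X} (h : IsLim δ) : ℕ → X := Classical.choose h

theorem ladder_strictMono {δ : X} (h : IsLim δ) : StrictMono (ladder h) :=
  (Classical.choose_spec h).1

theorem ladder_isLUB {δ : X} (h : IsLim δ) : IsLUB (Set.range (ladder h)) δ :=
  (Classical.choose_spec h).2

/-- The labelled relation: label `0` is the order, label `1` marks the elements of `U`, label
`i + 2` relates the `i`-th member of the chosen sequence to its supremum. -/
def Rel (U : Set X) : ℕ → X → X → Prop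
  | 0, a, b => a < b
  | 1, a, b => a = b ∧ a ∈ U
  | i + 2, a, b => ∃ h : IsLim b, ladder h i = a

theorem rigid [WellFoundedLT X] [OrderTop X] {U U' : Set X} (Sg : X → Finset X)
    (hne : ∀ a, (Sg a).Nonempty)
    (h1 : ∀ ℓ a b, Rel U ℓ a b → ∀ a' ∈ Sg a, ∃ b' ∈ Sg b, Rel U' ℓ a' b')
    (h2 : ∀ ℓ a b, Rel U ℓ a b → ∀ b' ∈ Sg b, ∃ a' ∈ Sg a, Rel U' ℓ a' b') :
    ∀ a, Sg a = {a} := by
  set f : X → X := fun a => (Sg a).max' (hne a) with hf
  set g : X → X := fun a => (Sg a).min' (hne a) with hg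
  have fmem : ∀ a, f a ∈ Sg a := fun a => Finset.max'_mem _ _
  have gmem : ∀ a, g a ∈ Sg a := fun a => Finset.min'_mem _ _
  have lef : ∀ a, ∀ b ∈ Sg a, b ≤ f a := fun a b hb => Finset.le_max' _ _ hb
  have gle : ∀ a, ∀ b ∈ Sg a, g a ≤ b := fun a b hb => Finset.min'_le _ _ hb
  have fmono : StrictMono f := by
    intro a b hab
    obtain ⟨b', hb', hlt⟩ := h1 0 a b hab (f a) (fmem a)
    exact lt_of_lt_of_le hlt (lef b b' hb')
  have gmono : StrictMono g := by
    intro a b hab
    obtain ⟨a', ha', hlt⟩ := h2 0 a b hab (g b) (gmem b)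
    exact lt_of_le_of_lt (gle a a' ha') hlt
  have fid : ∀ a, a ≤ f a := fun a => fmono.le_apply
  have gid : ∀ a, a ≤ g a := fun a => gmono.le_apply
  have ffix : ∀ a, f a = a := by
    intro a₀
    by_contra hne0
    have hlt0 : a₀ < f a₀ := lt_of_le_of_ne (fid a₀) (Ne.symm hne0)
    set s : ℕ → X := fun n => f^[n] a₀ with hs
    have hs0 : s 0 = a₀ := rfl
    have hsucc : ∀ n, s (n + 1) = f (s n) := fun n => Function.iterate_succ_apply' f n a₀
    have hsmono : StrictMono s := by
      apply strictMono_nat_of_lt_succ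
      intro n
      induction n with
      | zero => rw [hsucc, hs0]; exact hlt0
      | succ n ih => rw [hsucc, hsucc (n + 1)]; exact fmono ih
    -- the supremum
    obtain ⟨δ, hδ⟩ : ∃ δ, IsLUB (Set.range s) δ := by
      have hnonempty : (upperBounds (Set.range s)).Nonempty := ⟨⊤, fun _ _ => le_top⟩
      refine ⟨WellFounded.min wellFounded_lt _ hnonempty,
        WellFounded.min_mem wellFounded_lt _ hnonempty, ?_⟩
      intro y hy
      exact not_lt.mp (fun h => WellFounded.not_lt_min wellFounded_lt _ hy h)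
    have hlim : IsLim δ := ⟨s, hsmono, hδ⟩
    have hbelow : ∀ b, b < δ → ∃ n, b < s n := by
      intro b hb
      by_contra hall
      push Not at hall
      exact absurd (hδ.2 (by rintro _ ⟨n, rfl⟩; exact hall n)) (not_le.mpr hb)
    have hfδ : ∀ b, b < δ → f b < δ := by
      intro b hb
      obtain ⟨n, hn⟩ := hbelow b hb
      calc f b < f (s n) := fmono hn
        _ = s (n + 1) := (hsucc n).symm
        _ ≤ δ := hδ.1 ⟨n + 1, rfl⟩
    have hla : ∀ i, ladder hlim i < δ := by
      intro i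
      exact lt_of_lt_of_le (ladder_strictMono hlim (Nat.lt_succ_self i))
        ((ladder_isLUB hlim).1 ⟨i + 1, rfl⟩)
    have hrel : ∀ i, Rel U (i + 2) (ladder hlim i) δ := fun i => ⟨hlim, rfl⟩
    have hSδ : ∀ η ∈ Sg δ, η = δ := by
      intro η hη
      apply le_antisymm
      · obtain ⟨_, -, hη', -⟩ := h2 (0 + 2) _ _ (hrel 0) η hη
        apply (ladder_isLUB hη').2
        rintro _ ⟨i, rfl⟩
        obtain ⟨a', ha', hη'', he⟩ := h2 (i + 2) _ _ (hrel i) η hη
        have : ladder hη' i = a' := he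
        rw [this]
        exact ((lef _ a' ha').trans_lt (hfδ _ (hla i))).le
      · exact (gid δ).trans (gle δ η hη)
    obtain ⟨i, hi⟩ : ∃ i, a₀ < ladder hlim i := by
      by_contra hall
      push Not at hall
      have h3 : δ ≤ a₀ := (ladder_isLUB hlim).2 (by rintro _ ⟨n, rfl⟩; exact hall n)
      have h4 : s 1 ≤ δ := hδ.1 ⟨1, rfl⟩
      have h5 : a₀ < s 1 := by rw [← hs0]; exact hsmono Nat.zero_lt_one
      exact absurd (h5.trans_le (h4.trans h3)) (lt_irrefl _)
    set b := ladder hlim i with hb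
    have hfb : f b = b := by
      obtain ⟨δ', hδ', hrel'⟩ := h1 (i + 2) _ _ (hrel i) (f b) (fmem b)
      rw [hSδ δ' hδ'] at hrel'
      obtain ⟨h6, h7⟩ := hrel'
      exact h7.symm
    have hfb' : b < f b := by
      obtain ⟨n, hn⟩ := hbelow b (hla i)
      obtain ⟨m, hm1, hm2⟩ : ∃ m, s m ≤ b ∧ b < s (m + 1) := by
        induction n with
        | zero => exact absurd (hn.trans (by rw [hs0]; exact hi)) (lt_irrefl _)
        | succ n ih =>
          by_cases h : b < s n
          · exact ih h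
          · exact ⟨n, not_lt.mp h, hn⟩
      calc b < s (m + 1) := hm2
        _ = f (s m) := hsucc m
        _ ≤ f b := fmono.monotone hm1
    exact absurd hfb hfb'.ne'
  intro a
  ext b
  rw [Finset.mem_singleton]
  constructor
  · intro hb
    apply le_antisymm
    · have := lef a b hb
      rwa [ffix] at this
    · exact (gid a).trans (gle a b hb)
  · rintro rfl
    have := fmem b
    rwa [ffix] at this

end combinatorics

end Pool.Agent.Helper142.RatEnd


namespace Pool.Agent.Helper142.RatEnd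

section coneDef

open Finsupp

/-- The coordinates: one for every point of `X` and one for every labelled pair. -/
abbrev Ix (X : Type u) := X ⊕ (ℕ × X × X)

/-- A coordinate is active if it is a point or an edge of the labelled relation `R`. -/
def Active {X : Type u} (R : ℕ → X → X → Prop) : Ix X → Prop
  | .inl _ => True
  | .inr r => R r.1 r.2.1 r.2.2

variable {X : Type u} (x : Option (ℕ × Fin 3) → ℝ) (R : ℕ → X → X → Prop)

/-- The vector `s_ℓ e_a + t_ℓ e_b + u_ℓ e_(ℓ,a,b)` attached to a labelled pair. -/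
noncomputable def edgeVec (ℓ : ℕ) (a b : X) : Ix X →₀ ℝ :=
  single (Sum.inl a) (x (some (ℓ, 0))) + single (Sum.inl b) (x (some (ℓ, 1))) +
    single (Sum.inr (ℓ, a, b)) (x (some (ℓ, 2)))

/-- generators of the rational vector space `latt` -/
inductive IsGen : (Ix X →₀ ℝ) → Prop
  | one (k : Ix X) (hk : Active R k) : IsGen (single k 1)
  | theta (k : Ix X) (hk : Active R k) : IsGen (single k (x none))
  | edge (ℓ : ℕ) (a b : X) (h : R ℓ a b) : IsGen (edgeVec x ℓ a b)

/-- the rational vector space spanned by the generators -/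
noncomputable def latt : Submodule ℚ (Ix X →₀ ℝ) := Submodule.span ℚ {v | IsGen x R v}

/-- the nonzero nonnegative elements of `latt` -/
noncomputable def posCone : AddSubsemigroup (Ix X →₀ ℝ) where
  carrier := {v | v ∈ latt x R ∧ 0 ≤ v ∧ v ≠ 0}
  add_mem' := by
    rintro v w ⟨hv1, hv2, hv3⟩ ⟨hw1, hw2, hw3⟩
    refine ⟨(latt x R).add_mem hv1 hw1, add_nonneg hv2 hw2, fun h => hv3 ?_⟩
    apply le_antisymm _ hv2
    have h1 : v ≤ v + w := le_add_of_nonneg_right hw2
    rwa [h] at h1

/-- the nonnegative elements of `latt` -/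
noncomputable def nnCone : AddSubmonoid (Ix X →₀ ℝ) where
  carrier := {v | v ∈ latt x R ∧ 0 ≤ v}
  zero_mem' := ⟨(latt x R).zero_mem, le_refl _⟩
  add_mem' := by
    rintro v w ⟨hv1, hv2⟩ ⟨hw1, hw2⟩
    exact ⟨(latt x R).add_mem hv1 hw1, add_nonneg hv2 hw2⟩

end coneDef

section coneBasic

open Finsupp

variable {X : Type u} {x : Option (ℕ × Fin 3) → ℝ} {R R' : ℕ → X → X → Prop}

theorem latt_induction {p : (Ix X →₀ ℝ) → Prop} (h0 : p 0)
    (hg : ∀ v, IsGen x R v → p v) (hadd : ∀ v w, p v → p w → p (v + w))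
    (hsmul : ∀ (q : ℚ) v, p v → p (q • v)) {v : Ix X →₀ ℝ} (hv : v ∈ latt x R) : p v :=
  Submodule.span_induction (p := fun v _ => p v) (fun v h => hg v h) h0
    (fun v w _ _ h1 h2 => hadd v w h1 h2) (fun q v _ h => hsmul q v h) hv

theorem gen_mem {v : Ix X →₀ ℝ} (h : IsGen x R v) : v ∈ latt x R := Submodule.subset_span h

theorem rat_smul_apply (q : ℚ) (v : Ix X →₀ ℝ) (k : Ix X) : (q • v) k = (q : ℝ) * v k := by
  rw [Finsupp.smul_apply, Rat.smul_def]

theorem eq_zero_of_not_active {v : Ix X →₀ ℝ} (hv : v ∈ latt x R) {k : Ix X}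
    (hk : ¬ Active R k) : v k = 0 := by
  classical
  refine latt_induction (p := fun v => v k = 0) rfl ?_ ?_ ?_ hv
  · intro v h
    cases h with
    | one k' hk' =>
      rw [single_apply, if_neg]
      rintro rfl
      exact hk hk'
    | theta k' hk' =>
      rw [single_apply, if_neg]
      rintro rfl
      exact hk hk'
    | edge ℓ a b h =>
      rw [edgeVec, Finsupp.add_apply, Finsupp.add_apply, single_apply, single_apply, single_apply, if_neg, if_neg,
        if_neg]
      · simp
      · rintro rfl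
        exact hk h
      · rintro rfl
        exact hk trivial
      · rintro rfl
        exact hk trivial
  · intro v w h1 h2
    rw [Finsupp.add_apply, h1, h2, add_zero]
  · intro q v h
    rw [rat_smul_apply, h, mul_zero]

theorem mem_linSpan_of_latt {v : Ix X →₀ ℝ} (hv : v ∈ latt x R) (k : Ix X) :
    v k ∈ linSpan x Set.univ := by
  classical
  have hs : ∀ (k k' : Ix X) (w : Option (ℕ × Fin 3)),
      (single k' (x w) : Ix X →₀ ℝ) k ∈ linSpan x Set.univ := by
    intro k k' w
    rw [single_apply]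
    split_ifs
    · exact var_mem (Set.mem_univ _)
    · exact (linSpan x Set.univ).zero_mem
  refine latt_induction (p := fun v => v k ∈ linSpan x Set.univ) (linSpan x Set.univ).zero_mem
    ?_ ?_ ?_ hv
  · intro v h
    cases h with
    | one k' hk' =>
      rw [single_apply]
      split_ifs
      · exact one_mem _
      · exact (linSpan x Set.univ).zero_mem
    | theta k' hk' => exact hs k k' none
    | edge ℓ a b h =>
      rw [edgeVec, Finsupp.add_apply, Finsupp.add_apply]
      exact (linSpan x Set.univ).add_mem ((linSpan x Set.univ).add_mem (hs _ _ _) (hs _ _ _))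
        (hs _ _ _)
  · intro v w h1 h2
    show (v + w) k ∈ _
    rw [Finsupp.add_apply]
    exact (linSpan x Set.univ).add_mem h1 h2
  · intro q v h
    show (q • v) k ∈ _
    rw [rat_smul_apply]
    exact rat_mul_mem q h

theorem ray_mem {k : Ix X} (hk : Active R k) : (single k 1 : Ix X →₀ ℝ) ∈ posCone x R := by
  refine ⟨gen_mem (.one k hk), ?_, ?_⟩
  · exact Finsupp.single_nonneg.2 zero_le_one
  · intro h
    exact one_ne_zero (Finsupp.single_eq_zero.1 h)

end coneBasic

section matrix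

open Finsupp

variable {X : Type u} {x : Option (ℕ × Fin 3) → ℝ} {R R' : ℕ → X → X → Prop}

/-- extension of a homomorphism of cones by zero -/
noncomputable def extz (φ : posCone x R →ₙ+ posCone x R') (v : Ix X →₀ ℝ) : Ix X →₀ ℝ :=
  open Classical in if h : v ∈ posCone x R then (φ ⟨v, h⟩ : Ix X →₀ ℝ) else 0

variable (φ : posCone x R →ₙ+ posCone x R')

theorem extz_of_mem {v : Ix X →₀ ℝ} (h : v ∈ posCone x R) : extz φ v = φ ⟨v, h⟩ := dif_pos h

theorem extz_zero : extz φ 0 = 0 := dif_neg (fun h => h.2.2 rfl)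

theorem extz_mem (v : Ix X →₀ ℝ) : extz φ v ∈ latt x R' := by
  unfold extz
  split_ifs with h
  · exact (φ ⟨v, h⟩).2.1
  · exact (latt x R').zero_mem

theorem extz_nonneg (v : Ix X →₀ ℝ) : 0 ≤ extz φ v := by
  unfold extz
  split_ifs with h
  · exact (φ ⟨v, h⟩).2.2.1
  · exact le_refl _

theorem extz_add {v w : Ix X →₀ ℝ} (hv : v ∈ nnCone x R) (hw : w ∈ nnCone x R) :
    extz φ (v + w) = extz φ v + extz φ w := by
  by_cases h1 : v = 0
  · rw [h1, zero_add, extz_zero, zero_add]
  by_cases h2 : w = 0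
  · rw [h2, add_zero, extz_zero, add_zero]
  have hv' : v ∈ posCone x R := ⟨hv.1, hv.2, h1⟩
  have hw' : w ∈ posCone x R := ⟨hw.1, hw.2, h2⟩
  rw [extz_of_mem φ hv', extz_of_mem φ hw', extz_of_mem φ (AddMemClass.add_mem hv' hw')]
  have := congrArg Subtype.val (map_add φ ⟨v, hv'⟩ ⟨w, hw'⟩)
  exact this

theorem extz_mono {v w : Ix X →₀ ℝ} (hv : v ∈ nnCone x R) (hw : w ∈ nnCone x R) (h : v ≤ w) :
    extz φ v ≤ extz φ w := by
  have h1 : w - v ∈ nnCone x R := ⟨(latt x R).sub_mem hw.1 hv.1, sub_nonneg.mpr h⟩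
  have h2 : w = v + (w - v) := by abel
  rw [h2, extz_add φ hv h1]
  exact le_add_of_nonneg_right (extz_nonneg φ _)

theorem nsmul_mem_nn {v : Ix X →₀ ℝ} (hv : v ∈ nnCone x R) (n : ℕ) : n • v ∈ nnCone x R :=
  AddSubmonoid.nsmul_mem _ hv n

theorem rat_smul_mem_nn {v : Ix X →₀ ℝ} (hv : v ∈ nnCone x R) {q : ℚ} (hq : 0 ≤ q) :
    q • v ∈ nnCone x R := by
  refine ⟨(latt x R).smul_mem q hv.1, ?_⟩
  intro k
  rw [rat_smul_apply]
  exact mul_nonneg (by exact_mod_cast hq) (hv.2 k)

theorem extz_nsmul {v : Ix X →₀ ℝ} (hv : v ∈ nnCone x R) (n : ℕ) :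
    extz φ (n • v) = n • extz φ v := by
  induction n with
  | zero => rw [zero_smul, zero_smul, extz_zero]
  | succ n ih => rw [succ_nsmul, succ_nsmul, extz_add φ (nsmul_mem_nn hv n) hv, ih]

theorem extz_rat_smul {v : Ix X →₀ ℝ} (hv : v ∈ nnCone x R) {q : ℚ} (hq : 0 ≤ q) :
    extz φ (q • v) = (q : ℝ) • extz φ v := by
  rcases hq.eq_or_lt with rfl | hq0
  · rw [zero_smul, extz_zero]
    simp
  obtain ⟨k, m, hkm⟩ := exists_nat_ratio q 1 hq0 one_pos
  rw [mul_one] at hkm
  have hkm' : ((m : ℝ) + 1) * q = k + 1 := by exact_mod_cast hkm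
  have h1 : (m + 1) • (q • v) = (k + 1) • v := by
    ext i
    have e1 : ((m + 1) • (q • v)) i = (m + 1) • ((q • v) i) := Finsupp.smul_apply _ _ _
    have e2 : ((k + 1) • v) i = (k + 1) • (v i) := Finsupp.smul_apply _ _ _
    rw [e1, e2, rat_smul_apply, nsmul_eq_mul, nsmul_eq_mul]
    push_cast
    rw [← mul_assoc, hkm']
  have h2 := extz_nsmul φ (rat_smul_mem_nn hv hq) (m + 1)
  rw [h1, extz_nsmul φ hv] at h2
  ext i
  have h3 := congrArg (fun t => t i) h2
  simp only [Finsupp.smul_apply, nsmul_eq_mul] at h3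
  rw [Finsupp.smul_apply, smul_eq_mul]
  push_cast at h3
  have hm : ((m : ℝ) + 1) ≠ 0 := by positivity
  apply mul_left_cancel₀ hm
  rw [← h3, ← mul_assoc, hkm']

/-- images of the unit vectors -/
noncomputable def col (k : Ix X) : Ix X →₀ ℝ := extz φ (single k 1)

theorem col_nonneg (k j : Ix X) : 0 ≤ col φ k j := extz_nonneg φ _ j

/-- on rational nonnegative combinations of unit vectors -/
theorem extz_rat_comb (w : Ix X →₀ ℚ≥0) (hw : ∀ k, w k ≠ 0 → Active R k) :
    (w.mapRange (fun q : ℚ≥0 => (q : ℝ)) (by simp) ∈ nnCone x R) ∧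
    extz φ (w.mapRange (fun q : ℚ≥0 => (q : ℝ)) (by simp)) = w.sum (fun k a => (a : ℝ) • col φ k) := by
  classical
  induction w using Finsupp.induction with
  | zero =>
    refine ⟨?_, ?_⟩
    · rw [Finsupp.mapRange_zero]
      exact (nnCone x R).zero_mem
    · rw [Finsupp.mapRange_zero, extz_zero, Finsupp.sum_zero_index]
  | single_add a b f haf hb ih =>
    have hfa : f a = 0 := by simpa using haf
    have hact : Active R a := hw a (by rw [Finsupp.add_apply, single_eq_same, hfa, add_zero]; exact hb)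
    have hf : ∀ k, f k ≠ 0 → Active R k := by
      intro k hk
      apply hw k
      rw [Finsupp.add_apply, single_apply, if_neg, zero_add]
      · exact hk
      · rintro rfl
        exact hk hfa
    obtain ⟨ih1, ih2⟩ := ih hf
    have e1 : ((single a b : Ix X →₀ ℚ≥0).mapRange (fun q : ℚ≥0 => (q : ℝ)) (by simp)) =
        (b : ℚ) • (single a 1 : Ix X →₀ ℝ) := by
      rw [Finsupp.mapRange_single]
      ext i
      rw [rat_smul_apply, single_apply, single_apply]
      split_ifs
      · simp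
      · simp
    have e2 : ((single a b + f : Ix X →₀ ℚ≥0).mapRange (fun q : ℚ≥0 => (q : ℝ)) (by simp)) =
        (b : ℚ) • (single a 1 : Ix X →₀ ℝ) + f.mapRange (fun q : ℚ≥0 => (q : ℝ)) (by simp) := by
      rw [← e1]
      apply Finsupp.mapRange_add
      intro p q
      push_cast
      rfl
    have hray : (single a 1 : Ix X →₀ ℝ) ∈ nnCone x R :=
      ⟨(ray_mem (x := x) hact).1, (ray_mem (x := x) hact).2.1⟩
    have hb0 : (0 : ℚ) ≤ (b : ℚ) := b.2
    refine ⟨?_, ?_⟩
    · rw [e2]
      exact (nnCone x R).add_mem (rat_smul_mem_nn hray hb0) ih1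
    · rw [e2, extz_add φ (rat_smul_mem_nn hray hb0) ih1, ih2, extz_rat_smul φ hray hb0,
        Finsupp.sum_add_index', Finsupp.sum_single_index]
      · rfl
      · simp
      · intro k; simp
      · intro k p q; push_cast; rw [add_smul]

theorem approx {v : Ix X →₀ ℝ} (hv : 0 ≤ v) {α β : ℝ} (hα : 0 ≤ α) (hαβ : α < β) :
    ∃ w : Ix X →₀ ℚ≥0, (∀ k, α * v k ≤ (w k : ℝ)) ∧ (∀ k, (w k : ℝ) ≤ β * v k) ∧
      (∀ k, v k = 0 → w k = 0) := by
  classical
  have hex : ∀ k : Ix X, ∃ q : ℚ≥0, α * v k ≤ (q : ℝ) ∧ (q : ℝ) ≤ β * v k ∧ (v k = 0 → q = 0) := by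
    intro k
    rcases (hv k).eq_or_lt with h | h
    · refine ⟨0, ?_, ?_, fun _ => rfl⟩
      · rw [← h]; simp
      · rw [← h]; simp
    · have h1 : α * v k < β * v k := mul_lt_mul_of_pos_right hαβ h
      obtain ⟨q, hq1, hq2⟩ := exists_rat_btwn h1
      have hq0 : 0 ≤ q := by
        have : (0 : ℝ) ≤ q := (mul_nonneg hα h.le).trans hq1.le
        exact_mod_cast this
      exact ⟨⟨q, hq0⟩, hq1.le, hq2.le, fun h0 => absurd h0 h.ne'⟩
  choose g hg1 hg2 hg3 using hex
  refine ⟨Finsupp.onFinset v.support g (fun k hk => ?_), hg1, hg2, hg3⟩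
  rw [Finsupp.mem_support_iff]
  intro h
  exact hk (hg3 k h)

theorem extz_eq_sum {v : Ix X →₀ ℝ} (hv : v ∈ nnCone x R) :
    extz φ v = v.sum (fun k a => a • col φ k) := by
  classical
  ext j
  rw [Finsupp.sum_apply]
  simp only [Finsupp.smul_apply, smul_eq_mul]
  set T : ℝ := v.sum (fun k a => a * col φ k j) with hT
  have hT0 : 0 ≤ T := Finset.sum_nonneg (fun k _ => mul_nonneg (hv.2 k) (col_nonneg φ k j))
  have hactive : ∀ w : Ix X →₀ ℚ≥0, (∀ k, v k = 0 → w k = 0) → ∀ k, w k ≠ 0 → Active R k := by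
    intro w hw k hk
    by_contra hna
    exact hk (hw k (eq_zero_of_not_active hv.1 hna))
  have hsum : ∀ w : Ix X →₀ ℚ≥0, (∀ k, v k = 0 → w k = 0) →
      extz φ (w.mapRange (fun q : ℚ≥0 => (q : ℝ)) (by simp)) j =
        ∑ k ∈ v.support, (w k : ℝ) * col φ k j := by
    intro w hw
    rw [(extz_rat_comb φ w (hactive w hw)).2, Finsupp.sum_apply]
    simp only [Finsupp.smul_apply, smul_eq_mul]
    apply Finsupp.sum_of_support_subset
    · intro k hk
      rw [Finsupp.mem_support_iff] at hk ⊢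
      exact fun h => hk (hw k h)
    · intro k _
      simp
  have hlow : ∀ ε : ℝ, 0 < ε → ε < 1 → (1 - ε) * T ≤ extz φ v j := by
    intro ε hε hε1
    obtain ⟨w, hw1, hw2, hw3⟩ := approx hv.2 (α := 1 - ε) (β := 1) (by linarith) (by linarith)
    have hle : w.mapRange (fun q : ℚ≥0 => (q : ℝ)) (by simp) ≤ v := by
      intro k
      rw [Finsupp.mapRange_apply]
      simpa using hw2 k
    have := extz_mono φ (extz_rat_comb φ w (hactive w hw3)).1 hv hle j
    rw [hsum w hw3] at this
    refine le_trans ?_ this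
    rw [hT, Finsupp.sum, Finset.mul_sum]
    apply Finset.sum_le_sum
    intro k _
    rw [← mul_assoc]
    exact mul_le_mul_of_nonneg_right (hw1 k) (col_nonneg φ k j)
  have hup : ∀ ε : ℝ, 0 < ε → extz φ v j ≤ (1 + ε) * T := by
    intro ε hε
    obtain ⟨w, hw1, hw2, hw3⟩ := approx hv.2 (α := 1) (β := 1 + ε) (by linarith) (by linarith)
    have hle : v ≤ w.mapRange (fun q : ℚ≥0 => (q : ℝ)) (by simp) := by
      intro k
      rw [Finsupp.mapRange_apply]
      simpa using hw1 k
    have := extz_mono φ hv (extz_rat_comb φ w (hactive w hw3)).1 hle j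
    rw [hsum w hw3] at this
    refine le_trans this ?_
    rw [hT, Finsupp.sum, Finset.mul_sum]
    apply Finset.sum_le_sum
    intro k _
    rw [← mul_assoc]
    exact mul_le_mul_of_nonneg_right (hw2 k) (col_nonneg φ k j)
  apply le_antisymm
  · apply le_of_forall_pos_le_add
    intro δ hδ
    have h1 := hup (δ / (T + 1)) (by positivity)
    have h2 : δ / (T + 1) * T ≤ δ := by
      rw [div_mul_eq_mul_div, div_le_iff₀ (by positivity)]
      nlinarith
    linarith
  · apply le_of_forall_pos_le_add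
    intro δ hδ
    have hε1 : min (1 / 2) (δ / (T + 1)) < 1 := lt_of_le_of_lt (min_le_left _ _) (by norm_num)
    have hε0 : 0 < min (1 / 2) (δ / (T + 1)) := lt_min (by norm_num) (by positivity)
    have h1 := hlow _ hε0 hε1
    have h2 : δ / (T + 1) * T ≤ δ := by
      rw [div_mul_eq_mul_div, div_le_iff₀ (by positivity)]
      nlinarith
    have h3 : min (1 / 2) (δ / (T + 1)) * T ≤ δ / (T + 1) * T :=
      mul_le_mul_of_nonneg_right (min_le_right _ _) hT0
    linarith

end matrix

end Pool.Agent.Helper142.RatEnd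


namespace Pool.Agent.Helper142.RatEnd

section functionals

open Finsupp

/-- a countable algebraically independent family of positive reals -/
theorem exists_pos_algInd (κ : Type) (hκ : #κ ≤ 𝔠) :
    ∃ x : κ → ℝ, AlgebraicIndependent ℚ x ∧ ∀ i, 0 < x i := by
  obtain ⟨x, hx⟩ := exists_algInd κ hκ
  have hne : ∀ i, x i ≠ 0 := by
    intro i h
    have h1 : (MvPolynomial.X i : MvPolynomial κ ℚ) = 0 := by
      apply hx
      rw [MvPolynomial.aeval_X, h, map_zero]
    exact MvPolynomial.X_ne_zero _ h1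
  have h2 := hx.polynomial_aeval_of_transcendental (f := fun _ => (Polynomial.X ^ 2 : Polynomial ℚ))
    (fun i => (Polynomial.transcendental_X ℚ).pow two_pos)
  refine ⟨_, h2, fun i => ?_⟩
  simp only [map_pow, Polynomial.aeval_X]
  have := hne i
  positivity

/-- the coefficient functionals -/
theorem exists_coeff_functional {κ : Type} {x : κ → ℝ} (hx : AlgebraicIndependent ℚ x) :
    ∃ lam : κ → (ℝ →ₗ[ℚ] ℚ), (∀ w, lam w 1 = 0) ∧ (∀ w, lam w (x w) = 1) ∧
      ∀ w w', w' ≠ w → lam w (x w') = 0 := by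
  classical
  obtain ⟨g, hg⟩ := LinearMap.exists_leftInverse_of_injective
    (MvPolynomial.aeval x : MvPolynomial κ ℚ →ₐ[ℚ] ℝ).toLinearMap (LinearMap.ker_eq_bot.2 hx)
  have hg' : ∀ P : MvPolynomial κ ℚ, g (MvPolynomial.aeval x P) = P := fun P =>
    LinearMap.congr_fun hg P
  refine ⟨fun w => (MvPolynomial.lcoeff ℚ (Finsupp.single w 1)).comp g, ?_, ?_, ?_⟩
  · intro w
    have h := hg' 1
    rw [map_one] at h
    show MvPolynomial.coeff (Finsupp.single w 1) (g 1) = 0
    rw [h, MvPolynomial.coeff_one, if_neg]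
    intro h0
    have := congrArg (fun t => t w) h0
    simp at this
  · intro w
    have h := hg' (MvPolynomial.X w)
    rw [MvPolynomial.aeval_X] at h
    show MvPolynomial.coeff (Finsupp.single w 1) (g (x w)) = 1
    rw [h, MvPolynomial.coeff_X, if_pos rfl]
  · intro w w' hne
    have h := hg' (MvPolynomial.X w')
    rw [MvPolynomial.aeval_X] at h
    show MvPolynomial.coeff (Finsupp.single w 1) (g (x w')) = 0
    rw [h, MvPolynomial.coeff_X, if_neg]
    intro h0
    have := congrArg (fun t => t w') h0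
    simp [hne.symm] at this

end functionals

section structure'

open Finsupp

variable {X : Type u} {x : Option (ℕ × Fin 3) → ℝ} {R R' : ℕ → X → X → Prop}

/-- a linear functional vanishing on the generators vanishes on `latt` -/
theorem latt_functional (L : (Ix X →₀ ℝ) →ₗ[ℚ] ℚ) (hL : ∀ v, IsGen x R v → L v = 0)
    {v : Ix X →₀ ℝ} (hv : v ∈ latt x R) : L v = 0 := by
  have h : latt x R ≤ LinearMap.ker L := Submodule.span_le.2 (fun w hw => hL w hw)
  exact h hv

/-- sum of a functional over the coordinates satisfying `P` -/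
noncomputable def omega (P : Ix X → Prop) (l : ℝ →ₗ[ℚ] ℚ) : (Ix X →₀ ℝ) →ₗ[ℚ] ℚ :=
  open Classical in Finsupp.lsum ℚ (fun k => if P k then l else 0)

theorem omega_single (P : Ix X → Prop) (l : ℝ →ₗ[ℚ] ℚ) (k : Ix X) (c : ℝ) :
    omega P l (single k c) = open Classical in if P k then l c else 0 := by
  classical
  rw [omega, Finsupp.lsum_single]
  split_ifs <;> rfl

theorem omega_apply (P : Ix X → Prop) (l : ℝ →ₗ[ℚ] ℚ) (v : Ix X →₀ ℝ) :
    omega P l v = open Classical in v.sum (fun k c => if P k then l c else 0) := by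
  classical
  rw [omega, Finsupp.lsum_apply]
  apply Finsupp.sum_congr
  intro k _
  split_ifs <;> rfl

variable {lam : Option (ℕ × Fin 3) → (ℝ →ₗ[ℚ] ℚ)} (h0 : ∀ w, lam w 1 = 0)
  (h1 : ∀ w, lam w (x w) = 1) (h2 : ∀ w w', w' ≠ w → lam w (x w') = 0)

include h0 h1 h2

omit h1 in
theorem latt_u_inl {v : Ix X →₀ ℝ} (hv : v ∈ latt x R) (ℓ : ℕ) (a : X) :
    lam (some (ℓ, 2)) (v (Sum.inl a)) = 0 := by
  classical
  refine latt_functional ((lam (some (ℓ, 2))).comp (Finsupp.lapply (Sum.inl a))) ?_ hv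
  intro v hv
  rw [LinearMap.comp_apply, Finsupp.lapply_apply]
  cases hv with
  | one k hk =>
    rw [single_apply]
    split_ifs
    · exact h0 _
    · exact map_zero _
  | theta k hk =>
    rw [single_apply]
    split_ifs
    · exact h2 _ _ (by simp)
    · exact map_zero _
  | edge ℓ' a' b' h =>
    rw [edgeVec, Finsupp.add_apply, Finsupp.add_apply, map_add, map_add, single_apply, single_apply,
      single_apply, if_neg (show ¬ (Sum.inr (ℓ', a', b') : Ix X) = Sum.inl a by simp), map_zero,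
      add_zero]
    have e1 : ∀ (P : Prop) [Decidable P],
        lam (some (ℓ, 2)) (if P then x (some (ℓ', 0)) else 0) = 0 := by
      intro P _
      split_ifs
      · exact h2 _ _ (by simp)
      · exact map_zero _
    have e2 : ∀ (P : Prop) [Decidable P],
        lam (some (ℓ, 2)) (if P then x (some (ℓ', 1)) else 0) = 0 := by
      intro P _
      split_ifs
      · exact h2 _ _ (by simp)
      · exact map_zero _
    rw [e1, e2, add_zero]

omit h1 in
theorem latt_u_inr {v : Ix X →₀ ℝ} (hv : v ∈ latt x R) (ℓ : ℕ) (r : ℕ × X × X) (hr : r.1 ≠ ℓ) :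
    lam (some (ℓ, 2)) (v (Sum.inr r)) = 0 := by
  classical
  refine latt_functional ((lam (some (ℓ, 2))).comp (Finsupp.lapply (Sum.inr r))) ?_ hv
  intro v hv
  rw [LinearMap.comp_apply, Finsupp.lapply_apply]
  cases hv with
  | one k hk =>
    rw [single_apply]
    split_ifs
    · exact h0 _
    · exact map_zero _
  | theta k hk =>
    rw [single_apply]
    split_ifs
    · exact h2 _ _ (by simp)
    · exact map_zero _
  | edge ℓ' a' b' h =>
    rw [edgeVec, Finsupp.add_apply, Finsupp.add_apply, map_add, map_add, single_apply, single_apply,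
      single_apply, if_neg (show ¬ (Sum.inl a' : Ix X) = Sum.inr r by simp),
      if_neg (show ¬ (Sum.inl b' : Ix X) = Sum.inr r by simp), map_zero, add_zero, zero_add]
    split_ifs with hk
    · apply h2
      intro hne
      simp only [Option.some.injEq, Prod.mk.injEq, and_true] at hne
      apply hr
      rw [← Sum.inr_injective hk]
      exact hne
    · exact map_zero _

omit h1 in
theorem latt_st_inr {v : Ix X →₀ ℝ} (hv : v ∈ latt x R) (ℓ : ℕ) (i : Fin 3) (hi : i ≠ 2)
    (r : ℕ × X × X) : lam (some (ℓ, i)) (v (Sum.inr r)) = 0 := by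
  classical
  refine latt_functional ((lam (some (ℓ, i))).comp (Finsupp.lapply (Sum.inr r))) ?_ hv
  intro v hv
  rw [LinearMap.comp_apply, Finsupp.lapply_apply]
  cases hv with
  | one k hk =>
    rw [single_apply]
    split_ifs
    · exact h0 _
    · exact map_zero _
  | theta k hk =>
    rw [single_apply]
    split_ifs
    · exact h2 _ _ (by simp)
    · exact map_zero _
  | edge ℓ' a' b' h =>
    rw [edgeVec, Finsupp.add_apply, Finsupp.add_apply, map_add, map_add, single_apply, single_apply,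
      single_apply, if_neg (show ¬ (Sum.inl a' : Ix X) = Sum.inr r by simp),
      if_neg (show ¬ (Sum.inl b' : Ix X) = Sum.inr r by simp), map_zero, add_zero, zero_add]
    split_ifs with hk
    · apply h2
      intro hne
      simp only [Option.some.injEq, Prod.mk.injEq] at hne
      exact hi hne.2.symm
    · exact map_zero _

theorem latt_s_inl {v : Ix X →₀ ℝ} (hv : v ∈ latt x R) (ℓ : ℕ) (a : X) :
    lam (some (ℓ, 0)) (v (Sum.inl a)) =
      omega (fun k => ∃ b, k = Sum.inr (ℓ, a, b)) (lam (some (ℓ, 2))) v := by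
  classical
  rw [← sub_eq_zero]
  refine latt_functional ((lam (some (ℓ, 0))).comp (Finsupp.lapply (Sum.inl a)) -
    omega (fun k => ∃ b, k = Sum.inr (ℓ, a, b)) (lam (some (ℓ, 2)))) ?_ hv
  intro v hv
  rw [LinearMap.sub_apply, LinearMap.comp_apply, Finsupp.lapply_apply, sub_eq_zero]
  cases hv with
  | one k hk =>
    rw [omega_single, h0, ite_self, single_apply]
    split_ifs
    · exact h0 _
    · exact map_zero _
  | theta k hk =>
    rw [omega_single, h2 _ _ (by simp), ite_self, single_apply]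
    split_ifs
    · exact h2 _ _ (by simp)
    · exact map_zero _
  | edge ℓ' a' b' h =>
    rw [edgeVec, map_add, map_add, omega_single, omega_single, omega_single,
      if_neg (by rintro ⟨_, hb⟩; exact Sum.inl_ne_inr hb),
      if_neg (by rintro ⟨_, hb⟩; exact Sum.inl_ne_inr hb), zero_add, zero_add,
      Finsupp.add_apply, Finsupp.add_apply, map_add, map_add, single_apply, single_apply,
      single_apply, if_neg (show ¬ (Sum.inr (ℓ', a', b') : Ix X) = Sum.inl a by simp), map_zero,
      add_zero]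
    have e2 : ∀ (P : Prop) [Decidable P],
        lam (some (ℓ, 0)) (if P then x (some (ℓ', 1)) else 0) = 0 := by
      intro P _
      split_ifs
      · exact h2 _ _ (by simp)
      · exact map_zero _
    rw [e2, add_zero]
    by_cases hℓ : ℓ' = ℓ
    · subst hℓ
      by_cases ha : a' = a
      · subst ha
        rw [if_pos rfl, if_pos ⟨b', rfl⟩, h1, h1]
      · rw [if_neg (fun h => ha (Sum.inl_injective h)), if_neg, map_zero]
        rintro ⟨b, hb⟩
        have := Sum.inr_injective hb
        simp only [Prod.mk.injEq] at this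
        exact ha this.2.1
    · have hne : (some (ℓ', (0 : Fin 3))) ≠ some (ℓ, 0) := by
        simp [hℓ]
      have hne2 : (some (ℓ', (2 : Fin 3))) ≠ some (ℓ, 2) := by
        simp [hℓ]
      rw [h2 _ _ hne2, ite_self]
      split_ifs
      · exact h2 _ _ hne
      · exact map_zero _

theorem latt_t_inl {v : Ix X →₀ ℝ} (hv : v ∈ latt x R) (ℓ : ℕ) (b : X) :
    lam (some (ℓ, 1)) (v (Sum.inl b)) =
      omega (fun k => ∃ a, k = Sum.inr (ℓ, a, b)) (lam (some (ℓ, 2))) v := by
  classical
  rw [← sub_eq_zero]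
  refine latt_functional ((lam (some (ℓ, 1))).comp (Finsupp.lapply (Sum.inl b)) -
    omega (fun k => ∃ a, k = Sum.inr (ℓ, a, b)) (lam (some (ℓ, 2)))) ?_ hv
  intro v hv
  rw [LinearMap.sub_apply, LinearMap.comp_apply, Finsupp.lapply_apply, sub_eq_zero]
  cases hv with
  | one k hk =>
    rw [omega_single, h0, ite_self, single_apply]
    split_ifs
    · exact h0 _
    · exact map_zero _
  | theta k hk =>
    rw [omega_single, h2 _ _ (by simp), ite_self, single_apply]
    split_ifs
    · exact h2 _ _ (by simp)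
    · exact map_zero _
  | edge ℓ' a' b' h =>
    rw [edgeVec, map_add, map_add, omega_single, omega_single, omega_single,
      if_neg (by rintro ⟨_, hb⟩; exact Sum.inl_ne_inr hb),
      if_neg (by rintro ⟨_, hb⟩; exact Sum.inl_ne_inr hb), zero_add, zero_add,
      Finsupp.add_apply, Finsupp.add_apply, map_add, map_add, single_apply, single_apply,
      single_apply, if_neg (show ¬ (Sum.inr (ℓ', a', b') : Ix X) = Sum.inl b by simp), map_zero,
      add_zero]
    have e2 : ∀ (P : Prop) [Decidable P],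
        lam (some (ℓ, 1)) (if P then x (some (ℓ', 0)) else 0) = 0 := by
      intro P _
      split_ifs
      · exact h2 _ _ (by simp)
      · exact map_zero _
    rw [e2, zero_add]
    by_cases hℓ : ℓ' = ℓ
    · subst hℓ
      by_cases hb : b' = b
      · subst hb
        rw [if_pos rfl, if_pos ⟨a', rfl⟩, h1, h1]
      · rw [if_neg (fun h => hb (Sum.inl_injective h)), if_neg, map_zero]
        rintro ⟨a, ha⟩
        have := Sum.inr_injective ha
        simp only [Prod.mk.injEq] at this
        exact hb this.2.2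
    · have hne : (some (ℓ', (1 : Fin 3))) ≠ some (ℓ, 1) := by
        simp [hℓ]
      have hne2 : (some (ℓ', (2 : Fin 3))) ≠ some (ℓ, 2) := by
        simp [hℓ]
      rw [h2 _ _ hne2, ite_self]
      split_ifs
      · exact h2 _ _ hne
      · exact map_zero _

end structure'

end Pool.Agent.Helper142.RatEnd


namespace Pool.Agent.Helper142.RatEnd

section edges

open Finsupp

variable {X : Type u} {x : Option (ℕ × Fin 3) → ℝ} {R R' : ℕ → X → X → Prop}

theorem single_mem_nn {k : Ix X} {c : ℝ} (hc : 0 < c) (h : single k c ∈ latt x R) :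
    single k c ∈ nnCone x R := ⟨h, Finsupp.single_nonneg.2 hc.le⟩

theorem edge_mem_nn (hpos : ∀ i, 0 < x i) {ℓ : ℕ} {a b : X} (h : R ℓ a b) :
    edgeVec x ℓ a b ∈ nnCone x R :=
  ⟨gen_mem (.edge ℓ a b h), add_nonneg (add_nonneg (Finsupp.single_nonneg.2 (hpos _).le)
    (Finsupp.single_nonneg.2 (hpos _).le)) (Finsupp.single_nonneg.2 (hpos _).le)⟩

variable (φ : posCone x R →ₙ+ posCone x R')

theorem extz_single {k : Ix X} {c : ℝ} (h : single k c ∈ nnCone x R) :
    extz φ (single k c) = c • col φ k := by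
  have hz : (0 : ℝ) • col φ k = 0 := zero_smul _ _
  rw [extz_eq_sum φ h, Finsupp.sum_single_index hz]

theorem extz_edge (hpos : ∀ i, 0 < x i) {ℓ : ℕ} {a b : X} (h : R ℓ a b) :
    extz φ (edgeVec x ℓ a b) = x (some (ℓ, 0)) • col φ (Sum.inl a) +
      x (some (ℓ, 1)) • col φ (Sum.inl b) + x (some (ℓ, 2)) • col φ (Sum.inr (ℓ, a, b)) := by
  classical
  have hz : ∀ k : Ix X, (0 : ℝ) • col φ k = 0 := fun k => zero_smul _ _
  have ha : ∀ (k : Ix X) (b₁ b₂ : ℝ), (b₁ + b₂) • col φ k = b₁ • col φ k + b₂ • col φ k :=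
    fun k b₁ b₂ => add_smul _ _ _
  rw [extz_eq_sum φ (edge_mem_nn hpos h), edgeVec, Finsupp.sum_add_index' hz ha,
    Finsupp.sum_add_index' hz ha, Finsupp.sum_single_index (hz _), Finsupp.sum_single_index (hz _),
    Finsupp.sum_single_index (hz _)]

theorem col_rat (hx : AlgebraicIndependent ℚ x) (hpos : ∀ i, 0 < x i) {k : Ix X}
    (hk : Active R k) (j : Ix X) : ∃ q : ℚ, (q : ℝ) = col φ k j := by
  apply rat_of_mul_var hx (T := Set.univ) (i := none)
  · exact mem_linSpan_of_latt (extz_mem φ _) j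
  · have h := extz_single φ (single_mem_nn (hpos none) (gen_mem (.theta k hk)))
    have h2 := mem_linSpan_of_latt (extz_mem φ (single k (x none))) j
    rw [h, Finsupp.smul_apply, smul_eq_mul, mul_comm] at h2
    exact h2

variable {lam : Option (ℕ × Fin 3) → (ℝ →ₗ[ℚ] ℚ)}

/-- value of a coefficient functional at a rational multiple of a variable -/
theorem lam_same (h1 : ∀ w, lam w (x w) = 1) {r : ℝ} (hr : ∃ q : ℚ, (q : ℝ) = r)
    (w : Option (ℕ × Fin 3)) : ((lam w (x w * r) : ℚ) : ℝ) = r := by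
  obtain ⟨q, rfl⟩ := hr
  have e : x w * (q : ℝ) = q • x w := by rw [Rat.smul_def, mul_comm]
  rw [e, map_smul, h1, smul_eq_mul, mul_one]

theorem lam_diff (h2 : ∀ w w', w' ≠ w → lam w (x w') = 0) {r : ℝ} (hr : ∃ q : ℚ, (q : ℝ) = r)
    {w w' : Option (ℕ × Fin 3)} (hne : w' ≠ w) : lam w (x w' * r) = 0 := by
  obtain ⟨q, rfl⟩ := hr
  have e : x w' * (q : ℝ) = q • x w' := by rw [Rat.smul_def, mul_comm]
  rw [e, map_smul, h2 _ _ hne, smul_zero]

theorem lam_three (h1 : ∀ w, lam w (x w) = 1) (h2 : ∀ w w', w' ≠ w → lam w (x w') = 0)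
    {r₀ r₁ r₂ : ℝ} (hr₀ : ∃ q : ℚ, (q : ℝ) = r₀) (hr₁ : ∃ q : ℚ, (q : ℝ) = r₁)
    (hr₂ : ∃ q : ℚ, (q : ℝ) = r₂) (ℓ : ℕ) :
    ((lam (some (ℓ, 0)) (x (some (ℓ, 0)) * r₀ + x (some (ℓ, 1)) * r₁ + x (some (ℓ, 2)) * r₂) : ℚ) : ℝ)
        = r₀ ∧
    ((lam (some (ℓ, 1)) (x (some (ℓ, 0)) * r₀ + x (some (ℓ, 1)) * r₁ + x (some (ℓ, 2)) * r₂) : ℚ) : ℝ)
        = r₁ ∧
    ((lam (some (ℓ, 2)) (x (some (ℓ, 0)) * r₀ + x (some (ℓ, 1)) * r₁ + x (some (ℓ, 2)) * r₂) : ℚ) : ℝ)
        = r₂ := by
  refine ⟨?_, ?_, ?_⟩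
  · rw [map_add, map_add, lam_diff h2 hr₁ (by simp), lam_diff h2 hr₂ (by simp), add_zero, add_zero,
      lam_same h1 hr₀]
  · rw [map_add, map_add, lam_diff h2 hr₀ (by simp), lam_diff h2 hr₂ (by simp), add_zero, zero_add,
      lam_same h1 hr₁]
  · rw [map_add, map_add, lam_diff h2 hr₀ (by simp), lam_diff h2 hr₁ (by simp), add_zero, zero_add,
      lam_same h1 hr₂]

theorem omega_eq_sum (P : Ix X → Prop) (l : ℝ →ₗ[ℚ] ℚ) (w c : Ix X →₀ ℝ)
    (hwc : ∀ k, ((l (w k) : ℚ) : ℝ) = c k) :
    ((omega P l w : ℚ) : ℝ) = open Classical in c.sum (fun k t => if P k then t else 0) := by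
  classical
  rw [omega_apply, Finsupp.sum, Rat.cast_sum]
  have hsub : c.support ⊆ w.support := by
    intro k hk
    rw [Finsupp.mem_support_iff] at hk ⊢
    intro h
    apply hk
    rw [← hwc k, h, map_zero, Rat.cast_zero]
  rw [Finsupp.sum_of_support_subset c hsub _ (by intro k _; exact ite_self _)]
  apply Finset.sum_congr rfl
  intro k _
  split_ifs
  · exact hwc k
  · exact Rat.cast_zero

theorem edge_eqs (hx : AlgebraicIndependent ℚ x) (hpos : ∀ i, 0 < x i)
    (hact : ∀ ℓ a b, R ℓ a b → Active R (Sum.inr (ℓ, a, b))) {ℓ : ℕ} {β γ : X} (h : R ℓ β γ) :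
    (∀ r', col φ (Sum.inl β) (Sum.inr r') = 0) ∧ (∀ r', col φ (Sum.inl γ) (Sum.inr r') = 0) ∧
    (∀ a, col φ (Sum.inr (ℓ, β, γ)) (Sum.inl a) = 0) ∧
    (∀ r' : ℕ × X × X, r'.1 ≠ ℓ → col φ (Sum.inr (ℓ, β, γ)) (Sum.inr r') = 0) ∧
    (∀ a, col φ (Sum.inl β) (Sum.inl a) = open Classical in
      (col φ (Sum.inr (ℓ, β, γ))).sum (fun k t => if (∃ b, k = Sum.inr (ℓ, a, b)) then t else 0)) ∧
    (∀ b, col φ (Sum.inl γ) (Sum.inl b) = open Classical in
      (col φ (Sum.inr (ℓ, β, γ))).sum (fun k t => if (∃ a, k = Sum.inr (ℓ, a, b)) then t else 0)) := by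
  classical
  obtain ⟨lam, h0, h1, h2⟩ := exists_coeff_functional hx
  set w := extz φ (edgeVec x ℓ β γ) with hw
  have hwm : w ∈ latt x R' := extz_mem φ _
  have r0 := fun j => col_rat φ hx hpos (k := Sum.inl β) trivial j
  have r1 := fun j => col_rat φ hx hpos (k := Sum.inl γ) trivial j
  have r2 := fun j => col_rat φ hx hpos (k := Sum.inr (ℓ, β, γ)) (hact ℓ β γ h) j
  have hwj : ∀ j, w j = x (some (ℓ, 0)) * col φ (Sum.inl β) j +
      x (some (ℓ, 1)) * col φ (Sum.inl γ) j + x (some (ℓ, 2)) * col φ (Sum.inr (ℓ, β, γ)) j := by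
    intro j
    rw [hw, extz_edge φ hpos h, Finsupp.add_apply, Finsupp.add_apply, Finsupp.smul_apply,
      Finsupp.smul_apply, Finsupp.smul_apply, smul_eq_mul, smul_eq_mul, smul_eq_mul]
  have key : ∀ j, ((lam (some (ℓ, 0)) (w j) : ℚ) : ℝ) = col φ (Sum.inl β) j ∧
      ((lam (some (ℓ, 1)) (w j) : ℚ) : ℝ) = col φ (Sum.inl γ) j ∧
      ((lam (some (ℓ, 2)) (w j) : ℚ) : ℝ) = col φ (Sum.inr (ℓ, β, γ)) j := by
    intro j
    rw [hwj]
    exact lam_three h1 h2 (r0 j) (r1 j) (r2 j) ℓ
  refine ⟨?_, ?_, ?_, ?_, ?_, ?_⟩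
  · intro r'
    rw [← (key _).1, latt_st_inr h0 h2 hwm ℓ 0 (by decide), Rat.cast_zero]
  · intro r'
    rw [← (key _).2.1, latt_st_inr h0 h2 hwm ℓ 1 (by decide), Rat.cast_zero]
  · intro a
    rw [← (key _).2.2, latt_u_inl h0 h2 hwm ℓ a, Rat.cast_zero]
  · intro r' hr'
    rw [← (key _).2.2, latt_u_inr h0 h2 hwm ℓ r' hr', Rat.cast_zero]
  · intro a
    rw [← (key _).1, latt_s_inl h0 h1 h2 hwm ℓ a]
    exact omega_eq_sum _ _ w (col φ (Sum.inr (ℓ, β, γ))) (fun k => (key k).2.2)
  · intro b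
    rw [← (key _).2.1, latt_t_inl h0 h1 h2 hwm ℓ b]
    exact omega_eq_sum _ _ w (col φ (Sum.inr (ℓ, β, γ))) (fun k => (key k).2.2)

end edges

end Pool.Agent.Helper142.RatEnd


namespace Pool.Agent.Helper142.RatEnd

section main

open Finsupp

variable {X : Type u} {x : Option (ℕ × Fin 3) → ℝ}

theorem sum_ite_eq_zero_iff {P : Ix X → Prop} {c : Ix X →₀ ℝ} (hc : ∀ k, 0 ≤ c k) :
    (open Classical in c.sum (fun k t => if P k then t else 0)) = 0 ↔ ∀ k, P k → c k = 0 := by
  classical
  rw [Finsupp.sum, Finset.sum_eq_zero_iff_of_nonneg]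
  · constructor
    · intro h k hk
      by_contra hne
      have := h k (Finsupp.mem_support_iff.2 hne)
      rw [if_pos hk] at this
      exact hne this
    · intro h k _
      split_ifs with hk
      · exact h k hk
      · rfl
  · intro k _
    split_ifs
    · exact hc k
    · exact le_refl _

theorem matrix_rigid [LinearOrder X] [WellFoundedLT X] [OrderTop X] [Nontrivial X] {U U' : Set X}
    (hx : AlgebraicIndependent ℚ x) (hpos : ∀ i, 0 < x i)
    (φ : posCone x (Rel U) →ₙ+ posCone x (Rel U')) :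
    U ⊆ U' ∧ ∃ m : ℚ, 0 < m ∧ ∀ v : posCone x (Rel U), (φ v : Ix X →₀ ℝ) = (m : ℝ) • (v : Ix X →₀ ℝ) := by
  classical
  have E := fun {ℓ : ℕ} {β γ : X} (h : Rel U ℓ β γ) =>
    edge_eqs φ hx hpos (fun ℓ a b h => h) h
  have hnn := fun k j => col_nonneg φ k j
  -- every point lies on an edge
  have hedge : ∀ β : X, ∀ r', col φ (Sum.inl β) (Sum.inr r') = 0 := by
    intro β
    obtain ⟨γ, hγ⟩ := exists_ne β
    rcases lt_or_gt_of_ne hγ with h | h
    · exact (E (ℓ := 0) (β := γ) (γ := β) h).2.1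
    · exact (E (ℓ := 0) (β := β) (γ := γ) h).1
  -- the support of a column
  let Sg : X → Finset X := fun β =>
    ((col φ (Sum.inl β)).comapDomain Sum.inl Sum.inl_injective.injOn).support
  have hSg : ∀ β a, a ∈ Sg β ↔ col φ (Sum.inl β) (Sum.inl a) ≠ 0 := by
    intro β a
    show a ∈ Finsupp.support _ ↔ _
    rw [Finsupp.mem_support_iff, Finsupp.comapDomain_apply]
  have hcolne : ∀ k, Active (Rel U) k → col φ k ≠ 0 := by
    intro k hk h
    rw [col, extz_of_mem φ (ray_mem (x := x) hk)] at h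
    exact (φ ⟨_, ray_mem (x := x) hk⟩).2.2.2 h
  have hcolact : ∀ k j, ¬ Active (Rel U') j → col φ k j = 0 := fun k j hj =>
    eq_zero_of_not_active (extz_mem φ _) hj
  have hne : ∀ β, (Sg β).Nonempty := by
    intro β
    by_contra hemp
    rw [Finset.not_nonempty_iff_eq_empty] at hemp
    apply hcolne (Sum.inl β) trivial
    ext j
    rcases j with a | r
    · by_contra hne
      have := (hSg β a).2 hne
      rw [hemp] at this
      simp at this
    · exact hedge β r
  have hH1 : ∀ ℓ a b, Rel U ℓ a b → ∀ a' ∈ Sg a, ∃ b' ∈ Sg b, Rel U' ℓ a' b' := by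
    intro ℓ a b h a' ha'
    rw [hSg, (E h).2.2.2.2.1 a', Ne, sum_ite_eq_zero_iff (hnn _)] at ha'
    push Not at ha'
    obtain ⟨_, ⟨b', rfl⟩, hne'⟩ := ha'
    refine ⟨b', ?_, ?_⟩
    · rw [hSg, (E h).2.2.2.2.2 b', Ne, sum_ite_eq_zero_iff (hnn _)]
      intro hall
      exact hne' (hall _ ⟨a', rfl⟩)
    · by_contra hna
      exact hne' (hcolact _ _ hna)
  have hH2 : ∀ ℓ a b, Rel U ℓ a b → ∀ b' ∈ Sg b, ∃ a' ∈ Sg a, Rel U' ℓ a' b' := by
    intro ℓ a b h b' hb'
    rw [hSg, (E h).2.2.2.2.2 b', Ne, sum_ite_eq_zero_iff (hnn _)] at hb'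
    push Not at hb'
    obtain ⟨_, ⟨a', rfl⟩, hne'⟩ := hb'
    refine ⟨a', ?_, ?_⟩
    · rw [hSg, (E h).2.2.2.2.1 a', Ne, sum_ite_eq_zero_iff (hnn _)]
      intro hall
      exact hne' (hall _ ⟨b', rfl⟩)
    · by_contra hna
      exact hne' (hcolact _ _ hna)
  have hS := rigid Sg hne hH1 hH2
  -- the columns at points
  have hpt : ∀ β a, a ≠ β → col φ (Sum.inl β) (Sum.inl a) = 0 := by
    intro β a hab
    by_contra h
    have := (hSg β a).2 h
    rw [hS, Finset.mem_singleton] at this
    exact hab this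
  have hptpos : ∀ β, 0 < col φ (Sum.inl β) (Sum.inl β) := by
    intro β
    have h : β ∈ Sg β := by rw [hS]; exact Finset.mem_singleton_self β
    exact lt_of_le_of_ne (hnn _ _) (Ne.symm ((hSg β β).1 h))
  -- the columns at edges
  have hedgecol : ∀ {ℓ β γ}, Rel U ℓ β γ → ∀ j, j ≠ Sum.inr (ℓ, β, γ) →
      col φ (Sum.inr (ℓ, β, γ)) j = 0 := by
    intro ℓ β γ h j hj
    rcases j with a | ⟨ℓ', a, b⟩
    · exact (E h).2.2.1 a
    · by_cases hℓ : ℓ' = ℓ
      · subst hℓ
        by_cases ha : a = β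
        · by_cases hb : b = γ
          · exact absurd (by rw [ha, hb]) hj
          · have h3 := (E h).2.2.2.2.2 b
            rw [hpt γ b hb] at h3
            exact (sum_ite_eq_zero_iff (hnn _)).1 h3.symm _ ⟨a, rfl⟩
        · have h3 := (E h).2.2.2.2.1 a
          rw [hpt β a ha] at h3
          exact (sum_ite_eq_zero_iff (hnn _)).1 h3.symm _ ⟨b, rfl⟩
      · exact (E h).2.2.2.1 _ hℓ
  have hsumone : ∀ {ℓ β γ}, Rel U ℓ β γ → ∀ (P : Ix X → Prop), P (Sum.inr (ℓ, β, γ)) →
      ((col φ (Sum.inr (ℓ, β, γ))).sum (fun k t => if P k then t else 0)) =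
        col φ (Sum.inr (ℓ, β, γ)) (Sum.inr (ℓ, β, γ)) := by
    intro ℓ β γ h P hP
    rw [Finsupp.sum, Finset.sum_eq_single (Sum.inr (ℓ, β, γ))]
    · rw [if_pos hP]
    · intro k _ hk
      rw [hedgecol h k hk, ite_self]
    · intro hk
      rw [Finsupp.notMem_support_iff.1 hk, ite_self]
  have heq1 : ∀ {ℓ β γ}, Rel U ℓ β γ → col φ (Sum.inl β) (Sum.inl β) =
      col φ (Sum.inr (ℓ, β, γ)) (Sum.inr (ℓ, β, γ)) := by
    intro ℓ β γ h
    rw [(E h).2.2.2.2.1 β]
    exact hsumone h _ ⟨γ, rfl⟩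
  have heq2 : ∀ {ℓ β γ}, Rel U ℓ β γ → col φ (Sum.inl γ) (Sum.inl γ) =
      col φ (Sum.inr (ℓ, β, γ)) (Sum.inr (ℓ, β, γ)) := by
    intro ℓ β γ h
    rw [(E h).2.2.2.2.2 γ]
    exact hsumone h _ ⟨β, rfl⟩
  obtain ⟨q, hq⟩ := col_rat φ hx hpos (k := Sum.inl (⊤ : X)) trivial (Sum.inl ⊤)
  have hall : ∀ β, col φ (Sum.inl β) (Sum.inl β) = q := by
    intro β
    by_cases h : β = ⊤
    · rw [h, hq]
    · have h' : Rel U 0 β ⊤ := lt_top_iff_ne_top.2 h
      rw [heq1 h', ← heq2 h', hq]
  have hq0 : 0 < q := by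
    have := hptpos (⊤ : X)
    rw [hall] at this
    exact_mod_cast this
  refine ⟨?_, q, hq0, ?_⟩
  · intro a ha
    have h : Rel U 1 a a := ⟨rfl, ha⟩
    have h3 := heq1 h
    rw [hall] at h3
    by_contra hna
    have h4 : ¬ Active (Rel U') (Sum.inr (1, a, a)) := fun h => hna h.2
    rw [hcolact _ _ h4] at h3
    have : (0 : ℝ) < q := by exact_mod_cast hq0
    exact this.ne' h3
  · have hcol : ∀ k, Active (Rel U) k → col φ k = (q : ℝ) • (single k 1 : Ix X →₀ ℝ) := by
      intro k hk
      ext j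
      rw [Finsupp.smul_apply, single_apply, smul_eq_mul]
      rcases k with β | ⟨ℓ, β, γ⟩
      · by_cases hj : Sum.inl β = j
        · subst hj
          rw [if_pos rfl, mul_one, hall]
        · rw [if_neg hj, mul_zero]
          rcases j with a | r
          · exact hpt β a (fun h => hj (by rw [h]))
          · exact hedge β r
      · have hk' : Rel U ℓ β γ := hk
        by_cases hj : Sum.inr (ℓ, β, γ) = j
        · subst hj
          rw [if_pos rfl, mul_one, ← heq1 hk', hall]
        · rw [if_neg hj, mul_zero]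
          exact hedgecol hk' j (Ne.symm hj)
    intro v
    have hv : (v : Ix X →₀ ℝ) ∈ nnCone x (Rel U) := ⟨v.2.1, v.2.2.1⟩
    have h1 : (φ v : Ix X →₀ ℝ) = extz φ v := by
      rw [extz_of_mem φ v.2]
    rw [h1, extz_eq_sum φ hv]
    have h2 : ((v : Ix X →₀ ℝ).sum fun k a => a • col φ k) =
        (v : Ix X →₀ ℝ).sum fun k a => (q : ℝ) • (single k a : Ix X →₀ ℝ) := by
      apply Finsupp.sum_congr
      intro k hk
      have hka : Active (Rel U) k := by
        by_contra hna
        exact Finsupp.mem_support_iff.1 hk (eq_zero_of_not_active v.2.1 hna)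
      rw [hcol k hka, smul_comm, Finsupp.smul_single, smul_eq_mul, mul_one]
    rw [h2, ← Finsupp.smul_sum, Finsupp.sum_single]

end main

end Pool.Agent.Helper142.RatEnd


namespace Pool.Agent.Helper142.RatEnd

section solutions

open Finsupp

variable {X : Type u} {x : Option (ℕ × Fin 3) → ℝ} {R R' : ℕ → X → X → Prop}

theorem coe_multiple_pc (n : ℕ) (v : posCone x R) :
    ((multiple n v : posCone x R) : Ix X →₀ ℝ) = (n + 1) • (v : Ix X →₀ ℝ) := by
  induction n with
  | zero => simp [multiple]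
  | succ n ih => rw [multiple, AddMemClass.coe_add, ih, succ_nsmul _ (n + 1)]

theorem coe_multiple_nc (n : ℕ) (v : nnCone x R) :
    ((multiple n v : nnCone x R) : Ix X →₀ ℝ) = (n + 1) • (v : Ix X →₀ ℝ) := by
  induction n with
  | zero => simp [multiple]
  | succ n ih => rw [multiple, AddSubmonoid.coe_add, ih, succ_nsmul _ (n + 1)]

theorem nsmul_fs_apply (n : ℕ) (v : Ix X →₀ ℝ) (k : Ix X) : ((n + 1) • v) k = ((n : ℝ) + 1) * v k := by
  have e : ((n + 1) • v) k = (n + 1) • (v k) := Finsupp.smul_apply _ _ _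
  rw [e, nsmul_eq_mul]
  push_cast
  rfl

theorem nsmul_fs_inj (n : ℕ) {v w : Ix X →₀ ℝ} (h : (n + 1) • v = (n + 1) • w) : v = w := by
  ext k
  have := congrArg (fun t => t k) h
  simp only [nsmul_fs_apply] at this
  have hn : ((n : ℝ) + 1) ≠ 0 := by positivity
  exact mul_left_cancel₀ hn this

theorem div_fs (n : ℕ) (v : Ix X →₀ ℝ) : (n + 1) • ((1 / ((n : ℚ) + 1)) • v) = v := by
  ext k
  rw [nsmul_fs_apply, rat_smul_apply]
  push_cast
  field_simp

theorem rat_relation {q : ℚ} (hq : 0 < q) : ∃ k m : ℕ, ∀ v w : Ix X →₀ ℝ, w = (q : ℝ) • v →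
    (m + 1) • w = (k + 1) • v := by
  obtain ⟨k, m, hkm⟩ := exists_nat_ratio q 1 hq one_pos
  rw [mul_one] at hkm
  have hkm' : ((m : ℝ) + 1) * q = k + 1 := by exact_mod_cast hkm
  refine ⟨k, m, ?_⟩
  rintro v w rfl
  ext i
  rw [nsmul_fs_apply, nsmul_fs_apply, Finsupp.smul_apply, smul_eq_mul, ← mul_assoc, hkm']

theorem pc_div : UniquelyDivisible (posCone x R) := by
  intro n
  constructor
  · intro v w h
    apply Subtype.ext
    have h1 := congrArg Subtype.val h
    rw [coe_multiple_pc, coe_multiple_pc] at h1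
    exact nsmul_fs_inj n h1
  · intro v
    have h1 : (1 / ((n : ℚ) + 1)) • (v : Ix X →₀ ℝ) ∈ nnCone x R :=
      rat_smul_mem_nn ⟨v.2.1, v.2.2.1⟩ (by positivity)
    have h2 : (1 / ((n : ℚ) + 1)) • (v : Ix X →₀ ℝ) ≠ 0 := by
      intro h
      have := div_fs n (v : Ix X →₀ ℝ)
      rw [h, smul_zero] at this
      exact v.2.2.2 this.symm
    refine ⟨⟨_, h1.1, h1.2, h2⟩, Subtype.ext ?_⟩
    rw [coe_multiple_pc]
    exact div_fs n _

theorem nc_div : UniquelyDivisible (nnCone x R) := by
  intro n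
  constructor
  · intro v w h
    apply Subtype.ext
    have h1 := congrArg Subtype.val h
    rw [coe_multiple_nc, coe_multiple_nc] at h1
    exact nsmul_fs_inj n h1
  · intro v
    refine ⟨⟨_, rat_smul_mem_nn v.2 (q := 1 / ((n : ℚ) + 1)) (by positivity)⟩, Subtype.ext ?_⟩
    rw [coe_multiple_nc]
    exact div_fs n _

variable [LinearOrder X] [WellFoundedLT X] [OrderTop X] [Nontrivial X]

theorem solvesQ1_posCone (hx : AlgebraicIndependent ℚ x) (hpos : ∀ i, 0 < x i) (U : Set X) :
    SolvesQ1 (posCone x (Rel U)) := by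
  rw [solvesQ1_iff]
  refine ⟨⟨⟨_, ray_mem (x := x) (R := Rel U) (k := Sum.inl ⊤) trivial⟩⟩, pc_div, ?_, ?_⟩
  · intro f hf
    have := congrArg Subtype.val hf
    rw [AddMemClass.coe_add] at this
    exact f.2.2.2 (by simpa using this)
  · intro φ
    obtain ⟨-, m, hm, hφ⟩ := matrix_rigid hx hpos φ
    obtain ⟨k, n, hkn⟩ := rat_relation (X := X) hm
    refine ⟨k, n, fun v => Subtype.ext ?_⟩
    rw [coe_multiple_pc, coe_multiple_pc]
    exact hkn _ _ (hφ v)

theorem solvesQ2_nnCone (hx : AlgebraicIndependent ℚ x) (hpos : ∀ i, 0 < x i) (U : Set X) :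
    SolvesQ2 (nnCone x (Rel U)) := by
  have hray := ray_mem (x := x) (R := Rel U) (k := Sum.inl (⊤ : X)) trivial
  apply solvesQ2_of_monoid (⟨_, hray.1, hray.2.1⟩ : nnCone x (Rel U))
  · intro h
    exact hray.2.2 (congrArg Subtype.val h)
  · intro f hf
    simpa using hf
  · exact nc_div
  · intro φ
    have hφ0 : φ 0 = 0 := by
      have h1 : φ 0 + φ 0 = φ 0 := by rw [← map_add, add_zero]
      simpa using h1
    let ψ : posCone x (Rel U) →ₙ+ posCone x (Rel U) :=
      { toFun := fun v => ⟨(v : Ix X →₀ ℝ) + (φ ⟨v, v.2.1, v.2.2.1⟩ : Ix X →₀ ℝ),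
          (latt x (Rel U)).add_mem v.2.1 (φ ⟨v, v.2.1, v.2.2.1⟩).2.1,
          add_nonneg v.2.2.1 (φ ⟨v, v.2.1, v.2.2.1⟩).2.2, by
            intro h
            apply v.2.2.2
            apply le_antisymm _ v.2.2.1
            have h1 : (v : Ix X →₀ ℝ) ≤ (v : Ix X →₀ ℝ) + (φ ⟨v, v.2.1, v.2.2.1⟩ : Ix X →₀ ℝ) :=
              le_add_of_nonneg_right (φ ⟨v, v.2.1, v.2.2.1⟩).2.2
            rwa [h] at h1⟩
        map_add' := fun v w => Subtype.ext (by
          have h1 := congrArg Subtype.val (map_add φ ⟨v, v.2.1, v.2.2.1⟩ ⟨w, w.2.1, w.2.2.1⟩)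
          rw [AddSubmonoid.coe_add] at h1
          show ((v : Ix X →₀ ℝ) + (w : Ix X →₀ ℝ)) + _ = ((v : Ix X →₀ ℝ) + _) + ((w : Ix X →₀ ℝ) + _)
          have h2 : (φ ⟨((v + w : posCone x (Rel U)) : Ix X →₀ ℝ), (v + w).2.1, (v + w).2.2.1⟩ :
              Ix X →₀ ℝ) = (φ ⟨v, v.2.1, v.2.2.1⟩ : Ix X →₀ ℝ) + (φ ⟨w, w.2.1, w.2.2.1⟩ : Ix X →₀ ℝ) := h1
          rw [h2]
          abel) }
    obtain ⟨-, m, hm, hψ⟩ := matrix_rigid hx hpos ψ
    have hφm : ∀ v : posCone x (Rel U), (φ ⟨v, v.2.1, v.2.2.1⟩ : Ix X →₀ ℝ) =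
        ((m : ℝ) - 1) • (v : Ix X →₀ ℝ) := by
      intro v
      have h1 : (v : Ix X →₀ ℝ) + (φ ⟨v, v.2.1, v.2.2.1⟩ : Ix X →₀ ℝ) = (m : ℝ) • (v : Ix X →₀ ℝ) :=
        hψ v
      rw [sub_smul, one_smul, ← h1]
      abel
    have hm1 : 1 ≤ m := by
      by_contra hlt
      push Not at hlt
      have h1 := hφm ⟨_, hray⟩
      have h2 := (φ ⟨_, hray.1, hray.2.1⟩).2.2 (Sum.inl ⊤)
      have h3 : ((φ ⟨_, hray.1, hray.2.1⟩ : nnCone x (Rel U)) : Ix X →₀ ℝ) (Sum.inl ⊤) =
          (m : ℝ) - 1 := by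
        have := congrArg (fun t => t (Sum.inl (⊤ : X))) h1
        simp only [Finsupp.smul_apply, smul_eq_mul] at this
        rw [Finsupp.single_eq_same, mul_one] at this
        exact this
      have h4 : (0 : ℝ) ≤ (m : ℝ) - 1 := by
        rw [← h3]
        exact h2
      have h5 : (m : ℝ) < 1 := by exact_mod_cast hlt
      linarith
    rcases hm1.eq_or_lt with h | h
    · left
      intro s
      by_cases hs : (s : Ix X →₀ ℝ) = 0
      · have : s = 0 := Subtype.ext hs
        rw [this, hφ0]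
      · have h1 := hφm ⟨s, s.2.1, s.2.2, hs⟩
        rw [← h, Rat.cast_one, sub_self, zero_smul] at h1
        exact Subtype.ext h1
    · right
      have hq : 0 < m - 1 := sub_pos.2 h
      obtain ⟨k, n, hkn⟩ := rat_relation (X := X) hq
      refine ⟨k, n, fun s => Subtype.ext ?_⟩
      rw [coe_multiple_nc, coe_multiple_nc]
      apply hkn
      by_cases hs : (s : Ix X →₀ ℝ) = 0
      · have : s = 0 := Subtype.ext hs
        rw [this, hφ0]
        simp
      · have h1 := hφm ⟨s, s.2.1, s.2.2, hs⟩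
        push_cast
        exact h1

theorem posCone_noniso (hx : AlgebraicIndependent ℚ x) (hpos : ∀ i, 0 < x i) {U U' : Set X}
    (e : posCone x (Rel U) ≃+ posCone x (Rel U')) : U = U' :=
  Set.Subset.antisymm (matrix_rigid hx hpos (e : _ →ₙ+ _)).1
    (matrix_rigid hx hpos (e.symm : _ →ₙ+ _)).1

omit [LinearOrder X] [WellFoundedLT X] [OrderTop X] [Nontrivial X] in
theorem posCone_iso_of_nn (e : nnCone x R ≃+ nnCone x R') :
    Nonempty (posCone x R ≃+ posCone x R') := by
  have key : ∀ {R R' : ℕ → X → X → Prop} (e : nnCone x R ≃+ nnCone x R') (v : posCone x R),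
      (e ⟨v, v.2.1, v.2.2.1⟩ : Ix X →₀ ℝ) ≠ 0 := by
    intro R R' e v h
    have h1 : e ⟨v, v.2.1, v.2.2.1⟩ = 0 := Subtype.ext h
    have h2 : (⟨v, v.2.1, v.2.2.1⟩ : nnCone x R) = 0 := by
      apply e.injective
      rw [h1, map_zero]
    exact v.2.2.2 (congrArg Subtype.val h2)
  refine ⟨{ toFun := fun v => ⟨(e ⟨v, v.2.1, v.2.2.1⟩ : Ix X →₀ ℝ), (e ⟨v, v.2.1, v.2.2.1⟩).2.1,
              (e ⟨v, v.2.1, v.2.2.1⟩).2.2, key e v⟩
            invFun := fun v => ⟨(e.symm ⟨v, v.2.1, v.2.2.1⟩ : Ix X →₀ ℝ),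
              (e.symm ⟨v, v.2.1, v.2.2.1⟩).2.1, (e.symm ⟨v, v.2.1, v.2.2.1⟩).2.2, key e.symm v⟩
            left_inv := ?_
            right_inv := ?_
            map_add' := ?_ }⟩
  · intro v
    apply Subtype.ext
    have h := congrArg Subtype.val (e.symm_apply_apply ⟨v, v.2.1, v.2.2.1⟩)
    exact h
  · intro v
    apply Subtype.ext
    have h := congrArg Subtype.val (e.apply_symm_apply ⟨v, v.2.1, v.2.2.1⟩)
    exact h
  · intro v w
    apply Subtype.ext
    have h := congrArg Subtype.val (map_add e ⟨v, v.2.1, v.2.2.1⟩ ⟨w, w.2.1, w.2.2.1⟩)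
    exact h

omit [LinearOrder X] [WellFoundedLT X] [OrderTop X] [Nontrivial X] in
theorem card_latt [Infinite X] : #(latt x R) ≤ #X := by
  classical
  -- the generators are indexed by a type of cardinality `#X`
  let g : (Ix X ⊕ Ix X) ⊕ (ℕ × X × X) → (Ix X →₀ ℝ) := fun i => match i with
    | .inl (.inl k) => single k 1
    | .inl (.inr k) => single k (x none)
    | .inr r => edgeVec x r.1 r.2.1 r.2.2
  have hle : latt x R ≤ LinearMap.range (Finsupp.linearCombination ℚ g) := by
    rw [Finsupp.range_linearCombination]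
    apply Submodule.span_mono
    intro v hv
    cases hv with
    | one k hk => exact ⟨.inl (.inl k), rfl⟩
    | theta k hk => exact ⟨.inl (.inr k), rfl⟩
    | edge ℓ a b h => exact ⟨.inr (ℓ, a, b), rfl⟩
  have h1 : #(latt x R) ≤ #(LinearMap.range (Finsupp.linearCombination ℚ g)) :=
    Cardinal.mk_le_of_injective (Submodule.inclusion_injective hle)
  have h2 : #(LinearMap.range (Finsupp.linearCombination ℚ g)) ≤
      #(((Ix X ⊕ Ix X) ⊕ (ℕ × X × X)) →₀ ℚ) := by
    have hs : Function.Surjective (Finsupp.linearCombination ℚ g).rangeRestrict :=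
      LinearMap.surjective_rangeRestrict _
    exact Cardinal.mk_le_of_surjective hs
  have hX : ℵ₀ ≤ #X := Cardinal.infinite_iff.1 inferInstance
  have h3 : #(ℕ × X × X) = #X := by
    rw [Cardinal.mk_prod, Cardinal.mk_prod]
    simp only [Cardinal.lift_id, Cardinal.lift_uzero, Cardinal.mk_nat, Cardinal.lift_aleph0]
    rw [Cardinal.mul_eq_self hX, Cardinal.aleph0_mul_eq hX]
  have h4 : #(Ix X) = #X := by
    rw [Cardinal.mk_sum, Cardinal.lift_id, Cardinal.lift_id, h3, Cardinal.add_eq_self hX]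
  have h5 : #((Ix X ⊕ Ix X) ⊕ (ℕ × X × X)) = #X := by
    rw [Cardinal.mk_sum, Cardinal.mk_sum]
    simp only [Cardinal.lift_id]
    rw [h4, h3, Cardinal.add_eq_self hX, Cardinal.add_eq_self hX]
  refine h1.trans (h2.trans ?_)
  rw [Cardinal.mk_finsupp_lift_of_infinite, h5, Cardinal.mkRat]
  simp [hX]

omit [LinearOrder X] [WellFoundedLT X] [OrderTop X] [Nontrivial X] in
theorem card_cones [Infinite X] : #(posCone x R) = #X ∧ #(nnCone x R) = #X := by
  classical
  have hlow : #X ≤ #(posCone x R) := by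
    apply Cardinal.mk_le_of_injective
      (f := fun a : X => (⟨_, ray_mem (x := x) (R := R) (k := Sum.inl a) trivial⟩ : posCone x R))
    intro a b hab
    have h := congrArg Subtype.val hab
    have h2 := (Finsupp.single_left_inj (one_ne_zero (α := ℝ))).1 h
    exact Sum.inl_injective h2
  have hmid : #(posCone x R) ≤ #(nnCone x R) := by
    apply Cardinal.mk_le_of_injective
      (f := fun v : posCone x R => (⟨v, v.2.1, v.2.2.1⟩ : nnCone x R))
    intro v w h
    have h' := congrArg Subtype.val h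
    exact Subtype.ext h'
  have hup : #(nnCone x R) ≤ #X := by
    refine le_trans ?_ (card_latt (x := x) (R := R))
    apply Cardinal.mk_le_of_injective
      (f := fun v : nnCone x R => (⟨v, v.2.1⟩ : latt x R))
    intro v w h
    have h' := congrArg Subtype.val h
    exact Subtype.ext h'
  exact ⟨le_antisymm (hmid.trans hup) hlow, le_antisymm hup (hlow.trans hmid)⟩

end solutions

end Pool.Agent.Helper142.RatEnd


namespace Pool.Agent.Helper142.RatEnd

section count

/-- Solutions of Q1 are closed under isomorphism. -/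
theorem SolvesQ1.congr {S : Type u} {T : Type v} [AddCommSemigroup S] [AddCommSemigroup T]
    (e : S ≃+ T) (h : SolvesQ1 S) : SolvesQ1 T := by
  obtain ⟨f⟩ := h
  let g : (T →ₙ+ T) ≃+ (S →ₙ+ S) :=
    { toFun := fun φ => ((e.symm : T →ₙ+ S).comp φ).comp (e : S →ₙ+ T)
      invFun := fun φ => ((e : S →ₙ+ T).comp φ).comp (e.symm : T →ₙ+ S)
      left_inv := fun φ => by
        ext t
        show e (e.symm (φ (e (e.symm t)))) = φ t
        rw [e.apply_symm_apply, e.apply_symm_apply]
      right_inv := fun φ => by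
        ext t
        show e.symm (e (φ (e.symm (e t)))) = φ t
        rw [e.symm_apply_apply, e.symm_apply_apply]
      map_add' := fun φ ψ => by
        ext t
        show e.symm (φ (e t) + ψ (e t)) = e.symm (φ (e t)) + e.symm (ψ (e t))
        rw [map_add] }
  exact ⟨g.trans f⟩

/-- Solutions of Q2 are closed under isomorphism. -/
theorem SolvesQ2.congr {S : Type u} {T : Type v} [AddCommSemigroup S] [AddCommSemigroup T]
    (e : S ≃+ T) (h : SolvesQ2 S) : SolvesQ2 T := by
  obtain ⟨f⟩ := h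
  let g : (T →ₙ+ T) ≃+ (S →ₙ+ S) :=
    { toFun := fun φ => ((e.symm : T →ₙ+ S).comp φ).comp (e : S →ₙ+ T)
      invFun := fun φ => ((e : S →ₙ+ T).comp φ).comp (e.symm : T →ₙ+ S)
      left_inv := fun φ => by
        ext t
        show e (e.symm (φ (e (e.symm t)))) = φ t
        rw [e.apply_symm_apply, e.apply_symm_apply]
      right_inv := fun φ => by
        ext t
        show e.symm (e (φ (e.symm (e t)))) = φ t
        rw [e.symm_apply_apply, e.symm_apply_apply]
      map_add' := fun φ ψ => by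
        ext t
        show e.symm (φ (e t) + ψ (e t)) = e.symm (φ (e t)) + e.symm (ψ (e t))
        rw [map_add] }
  exact ⟨g.trans f⟩

/-- the subset of `ι` coding `U`; codes of different sets are incomparable -/
def code {ι : Type u} (e : ι ⊕ ι ≃ ι) (U : Set ι) : Set ι :=
  {i | ∃ a, (a ∈ U ∧ e (Sum.inl a) = i) ∨ (a ∉ U ∧ e (Sum.inr a) = i)}

theorem code_incomparable {ι : Type u} (e : ι ⊕ ι ≃ ι) {U V : Set ι} (h : code e U ⊆ code e V) :
    U = V := by
  ext a
  constructor
  · intro ha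
    obtain ⟨b, ⟨hb, hb2⟩ | ⟨hb, hb2⟩⟩ := h ⟨a, Or.inl ⟨ha, rfl⟩⟩
    · rw [← Sum.inl_injective (e.injective hb2)]
      exact hb
    · exact absurd (e.injective hb2) (by simp)
  · intro ha
    by_contra hna
    obtain ⟨b, ⟨hb, hb2⟩ | ⟨hb, hb2⟩⟩ := h ⟨a, Or.inr ⟨hna, rfl⟩⟩
    · exact absurd (e.injective hb2) (by simp)
    · rw [← Sum.inr_injective (e.injective hb2)] at ha
      exact hb ha

/-- For every infinite `ι` there are `2 ^ #ι` solutions of cardinality `#ι` without homomorphisms
between different ones. -/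
theorem family_all (ι : Type u) [Infinite ι] :
    ∃ (F G : Set ι → Type u) (_ : ∀ U, AddCommSemigroup (F U)) (_ : ∀ U, AddCommSemigroup (G U)),
      (∀ U, SolvesQ1 (F U) ∧ #(F U) = #ι ∧ SolvesQ2 (G U) ∧ #(G U) = #ι) ∧
      (∀ U V, U ≠ V → IsEmpty (F U →ₙ+ F V) ∧ IsEmpty (G U ≃+ G V)) := by
  obtain ⟨x, hx, hpos⟩ := exists_pos_algInd (Option (ℕ × Fin 3)) (by
    refine (Cardinal.mk_le_aleph0 (α := Option (ℕ × Fin 3))).trans Cardinal.aleph0_le_continuum)
  obtain ⟨e⟩ : Nonempty (ι ⊕ ι ≃ ι) := by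
    apply Cardinal.eq.1
    rw [Cardinal.mk_sum]
    simp only [Cardinal.lift_id]
    exact Cardinal.add_eq_self (Cardinal.infinite_iff.1 inferInstance)
  obtain ⟨_, _⟩ := exists_wellFoundedLT ι
  have hcard : #(WithTop ι) = #ι := by
    have h1 : #(WithTop ι) = #(Option ι) := rfl
    rw [h1, Cardinal.mk_option]
    exact Cardinal.add_one_eq (Cardinal.infinite_iff.1 inferInstance)
  have hinf : Infinite (WithTop ι) := by
    rw [Cardinal.infinite_iff, hcard]
    exact Cardinal.infinite_iff.1 inferInstance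
  let j : Set ι → Set (WithTop ι) := fun U => (fun a : ι => (a : WithTop ι)) '' (code e U)
  have hj : ∀ {U V : Set ι}, j U ⊆ j V → U = V := by
    intro U V h
    apply code_incomparable e
    exact (Set.image_subset_image_iff WithTop.coe_injective).1 h
  refine ⟨fun U => posCone x (Rel (j U)), fun U => nnCone x (Rel (j U)),
    fun U => inferInstance, fun U => inferInstance, ?_, ?_⟩
  · intro U
    have hc := card_cones (x := x) (R := Rel (j U))
    exact ⟨solvesQ1_posCone hx hpos (j U), hc.1.trans hcard, solvesQ2_nnCone hx hpos (j U),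
      hc.2.trans hcard⟩
  · intro U V hUV
    have key : IsEmpty (posCone x (Rel (j U)) →ₙ+ posCone x (Rel (j V))) :=
      ⟨fun φ => hUV (hj (matrix_rigid hx hpos φ).1)⟩
    exact ⟨key, ⟨fun e => by
      obtain ⟨e'⟩ := posCone_iso_of_nn e
      exact key.elim (e' : _ →ₙ+ _)⟩⟩

theorem card_structures (ι : Type u) [Infinite ι] : #(AddCommSemigroup ι) ≤ 2 ^ #ι := by
  have h1 : #(AddCommSemigroup ι) ≤ #(ι → ι → ι) := by
    apply Cardinal.mk_le_of_injective (f := fun s : AddCommSemigroup ι => s.add)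
    intro s t h
    rcases s with @⟨@⟨⟨s⟩, _⟩, _⟩
    rcases t with @⟨@⟨⟨t⟩, _⟩, _⟩
    have h' : s = t := h
    subst h'
    rfl
  refine h1.trans ?_
  have hι : ℵ₀ ≤ #ι := Cardinal.infinite_iff.1 inferInstance
  rw [← Cardinal.power_def, ← Cardinal.power_def, ← Cardinal.power_mul, Cardinal.mul_eq_self hι,
    Cardinal.power_self_eq hι]

theorem count_solutions (ι : Type u) [Infinite ι] :
    #(Quotient (isoSetoid1 ι)) = 2 ^ #ι ∧ #(Quotient (isoSetoid2 ι)) = 2 ^ #ι := by
  obtain ⟨F, G, iF, iG, hFG, hne⟩ := family_all ι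
  have tr : ∀ (T : Type u) (iT : AddCommSemigroup T), #T = #ι →
      ∃ (s : AddCommSemigroup ι) (e : T ≃ ι), ∀ a b, e (a + b) = s.add (e a) (e b) := by
    intro T iT hT
    obtain ⟨e⟩ := Cardinal.eq.1 hT
    refine ⟨e.symm.addCommSemigroup, e, fun a b => ?_⟩
    show e (a + b) = e (e.symm (e a) + e.symm (e b))
    rw [e.symm_apply_apply, e.symm_apply_apply]
  have hF := fun U => tr (F U) (iF U) (hFG U).2.1
  have hG := fun U => tr (G U) (iG U) (hFG U).2.2.2
  choose sF eF heF using hF
  choose sG eG heG using hG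
  have solF : ∀ U, @SolvesQ1 ι (sF U) := by
    intro U
    let _ := sF U
    exact SolvesQ1.congr (⟨eF U, heF U⟩ : F U ≃+ ι) (hFG U).1
  have solG : ∀ U, @SolvesQ2 ι (sG U) := by
    intro U
    let _ := sG U
    exact SolvesQ2.congr (⟨eG U, heG U⟩ : G U ≃+ ι) (hFG U).2.2.1
  constructor
  · apply le_antisymm
    · refine (Cardinal.mk_quotient_le).trans ?_
      refine le_trans ?_ (card_structures ι)
      exact Cardinal.mk_subtype_le _
    · rw [← Cardinal.mk_set]
      apply Cardinal.mk_le_of_injective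
        (f := fun U : Set ι => (Quotient.mk (isoSetoid1 ι) ⟨sF U, solF U⟩))
      intro U V h
      have h1 : Isom (sF U) (sF V) := Quotient.exact h
      obtain ⟨g, hg⟩ := h1
      by_contra hUV
      refine (hne U V hUV).1.elim ⟨fun a => (eF V).symm (g (eF U a)), fun a b => ?_⟩
      show (eF V).symm (g (eF U (a + b))) =
        (eF V).symm (g (eF U a)) + (eF V).symm (g (eF U b))
      rw [Equiv.symm_apply_eq, heF, heF, hg, Equiv.apply_symm_apply, Equiv.apply_symm_apply]
  · apply le_antisymm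
    · refine (Cardinal.mk_quotient_le).trans ?_
      refine le_trans ?_ (card_structures ι)
      exact Cardinal.mk_subtype_le _
    · rw [← Cardinal.mk_set]
      apply Cardinal.mk_le_of_injective
        (f := fun U : Set ι => (Quotient.mk (isoSetoid2 ι) ⟨sG U, solG U⟩))
      intro U V h
      have h1 : Isom (sG U) (sG V) := Quotient.exact h
      obtain ⟨g, hg⟩ := h1
      by_contra hUV
      refine (hne U V hUV).2.elim ⟨((eG U).trans g).trans (eG V).symm, fun a b => ?_⟩
      show (eG V).symm (g (eG U (a + b))) =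
        (eG V).symm (g (eG U a)) + (eG V).symm (g (eG U b))
      rw [Equiv.symm_apply_eq, heG, heG, hg, Equiv.apply_symm_apply, Equiv.apply_symm_apply]

/-- there are no finite solutions -/
theorem infinite_of_solvesQ1 {S : Type u} [AddCommSemigroup S] (h : SolvesQ1 S) : Infinite S := by
  obtain ⟨⟨s⟩, -, hid, -⟩ := solvesQ1_iff.1 h
  by_contra hfin
  rw [not_infinite_iff_finite] at hfin
  have hninj : ¬ Function.Injective (fun n : ℕ => multiple n s) := not_injective_infinite_finite _
  rw [Function.Injective] at hninj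
  push Not at hninj
  obtain ⟨a, b, hab, hne⟩ := hninj
  have key : ∀ a b : ℕ, a < b → multiple a s ≠ multiple b s := by
    intro a b hlt h
    obtain ⟨c, hc⟩ := exists_idempotent s (a + 1) (b - a) (Nat.succ_pos a) (by omega) (by
      have e : a + 1 + (b - a) = b + 1 := by omega
      rw [e, ← coe_multiple, ← coe_multiple, h])
    exact hid _ hc
  rcases lt_or_gt_of_ne hne with h1 | h1
  · exact key a b h1 hab
  · exact key b a h1 hab.symm

theorem infinite_of_solvesQ2 {S : Type u} [AddCommSemigroup S] (h : SolvesQ2 S) : Infinite S := by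
  obtain ⟨z, hz, ⟨s, hs⟩, hid, hdiv, -⟩ := solvesQ2_iff.1 h
  by_contra hfin
  rw [not_infinite_iff_finite] at hfin
  have hninj : ¬ Function.Injective (fun n : ℕ => multiple n s) := not_injective_infinite_finite _
  rw [Function.Injective] at hninj
  push Not at hninj
  obtain ⟨a, b, hab, hne⟩ := hninj
  have hzm : ∀ n, multiple n z = z := by
    intro n
    induction n with
    | zero => rfl
    | succ n ih => rw [multiple, ih, hz]
  have key : ∀ a b : ℕ, a < b → multiple a s ≠ multiple b s := by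
    intro a b hlt h
    obtain ⟨c, hc⟩ := exists_idempotent s (a + 1) (b - a) (Nat.succ_pos a) (by omega) (by
      have e : a + 1 + (b - a) = b + 1 := by omega
      rw [e, ← coe_multiple, ← coe_multiple, h])
    have h1 := hid _ hc
    apply hs
    apply (hdiv c).1
    rw [h1, hzm]
  rcases lt_or_gt_of_ne hne with h1 | h1
  · exact key a b h1 hab
  · exact key b a h1 hab.symm

end count

end Pool.Agent.Helper142.RatEnd


namespace Pool.Agent.Helper142.RatEnd

section scaling

/-- The positive cones of two subgroups `A ≠ 0` and `B` of `ℝ` are isomorphic exactly when `B` is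
a positive real multiple of `A`. -/
theorem cone_iso_iff {A B : AddSubgroup ℝ} (hA : A ≠ ⊥) :
    Nonempty ({x : A // 0 < x} ≃+ {x : B // 0 < x}) ↔ ∃ c : ℝ, 0 < c ∧ ∀ r, r ∈ A ↔ c * r ∈ B := by
  constructor
  · rintro ⟨e⟩
    obtain ⟨⟨a₀, ha₀⟩, ha0⟩ := AddSubgroup.ne_bot_iff_exists_ne_zero.1 hA
    obtain ⟨a, ha, hpos⟩ : ∃ a, ∃ _ : a ∈ A, 0 < a := by
      rcases lt_trichotomy a₀ 0 with h | h | h
      · exact ⟨-a₀, A.neg_mem ha₀, by linarith⟩
      · exact absurd (Subtype.ext h) ha0
      · exact ⟨a₀, ha₀, h⟩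
    have hmul : ∀ x : {x : A // 0 < x}, ((e x : B) : ℝ) * a = ((e ⟨⟨a, ha⟩, hpos⟩ : B) : ℝ) * ((x : A) : ℝ) := by
      intro x
      exact ratio_const A.subtype (fun x hx => hx) B.subtype (fun x hx => hx) (e : _ →ₙ+ _) x
        ⟨⟨a, ha⟩, hpos⟩
    have hc0 : 0 < ((e ⟨⟨a, ha⟩, hpos⟩ : B) : ℝ) := (e ⟨⟨a, ha⟩, hpos⟩).2
    refine ⟨((e ⟨⟨a, ha⟩, hpos⟩ : B) : ℝ) / a, div_pos hc0 hpos, ?_⟩
    set c := ((e ⟨⟨a, ha⟩, hpos⟩ : B) : ℝ) / a with hc
    have hmul' : ∀ x : {x : A // 0 < x}, ((e x : B) : ℝ) = c * ((x : A) : ℝ) := by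
      intro x
      rw [hc, div_mul_eq_mul_div, eq_div_iff hpos.ne']
      exact hmul x
    have hcpos : 0 < c := div_pos hc0 hpos
    have h1 : ∀ r, 0 < r → r ∈ A → c * r ∈ B := by
      intro r hr hrA
      have := hmul' ⟨⟨r, hrA⟩, hr⟩
      have e2 : c * r = ((e ⟨⟨r, hrA⟩, hr⟩ : B) : ℝ) := this.symm
      rw [e2]
      exact (e ⟨⟨r, hrA⟩, hr⟩ : B).2
    have h2 : ∀ r, 0 < r → c * r ∈ B → r ∈ A := by
      intro r hr hrB
      have h0 : (0 : ℝ) < c * r := mul_pos hcpos hr
      have := hmul' (e.symm ⟨⟨c * r, hrB⟩, h0⟩)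
      rw [e.apply_symm_apply] at this
      have h3 : c * r = c * ((e.symm ⟨⟨c * r, hrB⟩, h0⟩ : A) : ℝ) := this
      rw [mul_left_cancel₀ hcpos.ne' h3]
      exact (e.symm ⟨⟨c * r, hrB⟩, h0⟩ : A).2
    intro r
    rcases lt_trichotomy r 0 with h | h | h
    · constructor
      · intro hr
        have := B.neg_mem (h1 (-r) (by linarith) (A.neg_mem hr))
        rwa [mul_neg, neg_neg] at this
      · intro hr
        have := A.neg_mem (h2 (-r) (by linarith) (by rw [mul_neg]; exact B.neg_mem hr))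
        rwa [neg_neg] at this
    · rw [h, mul_zero]
      exact ⟨fun _ => B.zero_mem, fun _ => A.zero_mem⟩
    · exact ⟨h1 r h, h2 r h⟩
  · rintro ⟨c, hc, h⟩
    have hinv : ∀ r ∈ B, c⁻¹ * r ∈ A := by
      intro r hr
      rw [h, ← mul_assoc, mul_inv_cancel₀ hc.ne', one_mul]
      exact hr
    refine ⟨{ toFun := fun x => ⟨⟨c * ((x : A) : ℝ), (h _).1 (x : A).2⟩, mul_pos hc x.2⟩
              invFun := fun x => ⟨⟨c⁻¹ * ((x : B) : ℝ), hinv _ (x : B).2⟩,
                mul_pos (inv_pos.2 hc) x.2⟩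
              left_inv := ?_
              right_inv := ?_
              map_add' := ?_ }⟩
    · intro x
      apply Subtype.ext
      apply Subtype.ext
      show c⁻¹ * (c * ((x : A) : ℝ)) = ((x : A) : ℝ)
      rw [← mul_assoc, inv_mul_cancel₀ hc.ne', one_mul]
    · intro x
      apply Subtype.ext
      apply Subtype.ext
      show c * (c⁻¹ * ((x : B) : ℝ)) = ((x : B) : ℝ)
      rw [← mul_assoc, mul_inv_cancel₀ hc.ne', one_mul]
    · intro x y
      apply Subtype.ext
      apply Subtype.ext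
      show c * (((x + y : {x : A // 0 < x}) : A) : ℝ) = c * ((x : A) : ℝ) + c * ((y : A) : ℝ)
      rw [← mul_add]
      rfl

end scaling

section pairs

theorem mem_pair {θ r : ℝ} : r ∈ pair θ ↔ ∃ a b : ℚ, r = a + b * θ := Iff.rfl

theorem pair_ne_bot (θ : ℝ) : pair θ ≠ ⊥ := by
  intro h
  have h1 : (1 : ℝ) ∈ pair θ := ⟨1, 0, by simp⟩
  rw [h, AddSubgroup.mem_bot] at h1
  exact one_ne_zero h1

theorem NonQuadratic.irr {θ : ℝ} (h : NonQuadratic θ) {a b : ℚ} (hab : (a : ℝ) + b * θ = 0) :
    a = 0 ∧ b = 0 := by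
  obtain ⟨-, h1, h2⟩ := h 0 b a (by push_cast; linarith)
  exact ⟨h2, h1⟩

theorem pair_rigid {θ : ℝ} (h : NonQuadratic θ) : IsRigid (pair θ) := by
  refine ⟨pair_ne_bot θ, fun r => ⟨fun hr => ?_, ?_⟩⟩
  · obtain ⟨a, b, h1⟩ := hr 1 ⟨1, 0, by simp⟩
    obtain ⟨c, d, h2⟩ := hr θ ⟨0, 1, by simp⟩
    rw [mul_one] at h1
    rw [h1] at h2
    obtain ⟨hb, -, -⟩ := h b (a - d) (-c) (by push_cast; linarith)
    exact ⟨a, by rw [h1, hb]; simp⟩
  · rintro ⟨q, rfl⟩ _ ⟨a, b, rfl⟩
    exact ⟨q * a, q * b, by push_cast; ring⟩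

theorem nonQuadratic_of {θ : ℝ} (hirr : ∀ a b : ℚ, (a : ℝ) + b * θ = 0 → a = 0 ∧ b = 0)
    (h : IsRigid (pair θ)) : NonQuadratic θ := by
  intro a b c habc
  have ha : a = 0 := by
    by_contra ha
    have ha' : (a : ℝ) ≠ 0 := by exact_mod_cast ha
    obtain ⟨q, hq⟩ := (h.2 θ).1 (by
      rintro _ ⟨p, r, rfl⟩
      refine ⟨-(r * c / a), p - r * b / a, ?_⟩
      push_cast
      field_simp
      linear_combination (r : ℝ) * habc)
    obtain ⟨-, h2⟩ := hirr (-q) 1 (by push_cast; rw [hq]; ring)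
    exact one_ne_zero h2
  subst ha
  obtain ⟨h1, h2⟩ := hirr c b (by push_cast at habc; linarith)
  exact ⟨rfl, h2, h1⟩

theorem pair_iso_iff {θ θ' : ℝ} (h : NonQuadratic θ) (h' : NonQuadratic θ') :
    Nonempty ({x : pair θ // 0 < x} ≃+ {x : pair θ' // 0 < x}) ↔
      ∃ a b c d : ℚ, a * d - b * c ≠ 0 ∧ θ' = (a * θ + b) / (c * θ + d) := by
  rw [cone_iso_iff (pair_ne_bot θ)]
  constructor
  · rintro ⟨w, hw, hAB⟩
    have hinv : ∀ r ∈ pair θ', w⁻¹ * r ∈ pair θ := by
      intro r hr
      rw [hAB, ← mul_assoc, mul_inv_cancel₀ hw.ne', one_mul]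
      exact hr
    obtain ⟨d, c, h1⟩ := hinv 1 ⟨1, 0, by simp⟩
    obtain ⟨b, a, h2⟩ := hinv θ' ⟨0, 1, by simp⟩
    rw [mul_one] at h1
    have hne : (c : ℝ) * θ + d ≠ 0 := by
      rw [add_comm, ← h1]
      exact (inv_pos.2 hw).ne'
    have h3 : θ' = (a * θ + b) / (c * θ + d) := by
      rw [eq_div_iff hne, add_comm ((c : ℝ) * θ), ← h1, mul_comm, h2]
      ring
    refine ⟨a, b, c, d, ?_, h3⟩
    intro hdet
    have hdet' : (a : ℝ) * d - b * c = 0 := by exact_mod_cast hdet
    have h4 : θ' * (c * θ + d) = a * θ + b := by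
      rw [h3, div_mul_cancel₀ _ hne]
    by_cases hc : c = 0
    · subst hc
      have hd : d ≠ 0 := by
        rintro rfl
        apply hne
        simp
      have ha : a = 0 := by
        have : a * d = 0 := by linarith
        exact (mul_eq_zero.1 this).resolve_right hd
      subst ha
      obtain ⟨-, h5⟩ := h'.irr (a := -b) (b := d) (by push_cast at h4 ⊢; linarith)
      exact hd h5
    · have h5 : (θ' * c - a) * (c * θ + d) = 0 := by linear_combination (c : ℝ) * h4 - hdet'
      have h6 := (mul_eq_zero.1 h5).resolve_right hne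
      obtain ⟨-, h7⟩ := h'.irr (a := -a) (b := c) (by push_cast; linarith)
      exact hc h7
  · rintro ⟨a, b, c, d, hdet, h3⟩
    have hcd : ¬ (c = 0 ∧ d = 0) := by
      rintro ⟨rfl, rfl⟩
      apply hdet
      simp
    have hne : (c : ℝ) * θ + d ≠ 0 := by
      intro h0
      apply hcd
      obtain ⟨h4, h5⟩ := h.irr (a := d) (b := c) (by linarith)
      exact ⟨h5, h4⟩
    have h4 : θ' * (c * θ + d) = a * θ + b := by
      rw [h3, div_mul_cancel₀ _ hne]
    have hdet' : (a : ℝ) * d - b * c ≠ 0 := by exact_mod_cast hdet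
    -- `|c θ + d| * pair θ' = pair θ`
    have key : ∀ r, r ∈ pair θ ↔ (c * θ + d)⁻¹ * r ∈ pair θ' := by
      intro r
      constructor
      · rintro ⟨p, q, rfl⟩
        refine ⟨(a * p - b * q) / (a * d - b * c), (d * q - c * p) / (a * d - b * c), ?_⟩
        rw [inv_mul_eq_div, div_eq_iff hne]
        push_cast
        field_simp
        linear_combination (-(d : ℝ) * q + c * p) * h4
      · rintro ⟨p, q, hr⟩
        refine ⟨p * d + q * b, p * c + q * a, ?_⟩
        rw [inv_mul_eq_div, div_eq_iff hne] at hr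
        rw [hr]
        push_cast
        linear_combination (q : ℝ) * h4
    rcases lt_or_gt_of_ne hne with hlt | hlt
    · refine ⟨-(c * θ + d)⁻¹, by
        rw [Left.neg_pos_iff]
        exact inv_lt_zero.2 hlt, fun r => ?_⟩
      rw [key r, neg_mul]
      constructor
      · exact fun h => (pair θ').neg_mem h
      · intro h
        have := (pair θ').neg_mem h
        rwa [neg_neg] at this
    · exact ⟨(c * θ + d)⁻¹, inv_pos.2 hlt, key⟩

end pairs

end Pool.Agent.Helper142.RatEnd


namespace Pool.Agent.Helper142.RatEnd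

section rank

variable {V : Type u} [AddCommGroup V] [Module ℚ V]

omit [Module ℚ V] in
theorem coe_multiple_sub (S : AddSubsemigroup V) (n : ℕ) (s : S) :
    ((multiple n s : S) : V) = (n + 1) • (s : V) := by
  induction n with
  | zero => simp [multiple]
  | succ n ih => rw [multiple, AddMemClass.coe_add, ih, succ_nsmul _ (n + 1)]

omit [Module ℚ V] in
theorem mem_nsmul {S : AddSubsemigroup V} (n : ℕ) {s : V} (hs : s ∈ S) : (n + 1) • s ∈ S := by
  have := (multiple n (⟨s, hs⟩ : S)).2
  rwa [coe_multiple_sub] at this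

theorem mem_pos_smul {S : AddSubsemigroup V} (hdiv : UniquelyDivisible S) {q : ℚ} (hq : 0 < q)
    {s : V} (hs : s ∈ S) : q • s ∈ S := by
  obtain ⟨k, m, hkm⟩ := exists_nat_ratio q 1 hq one_pos
  rw [mul_one] at hkm
  obtain ⟨t, ht⟩ := (hdiv m).2 ⟨s, hs⟩
  have ht' := congrArg Subtype.val ht
  rw [coe_multiple_sub] at ht'
  have h1 : q • s = (k + 1) • (t : V) := by
    have h2 : s = ((m : ℚ) + 1) • (t : V) := by
      have h3 : (m + 1) • (t : V) = s := ht'
      rw [← h3, ← Nat.cast_smul_eq_nsmul ℚ]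
      push_cast
      rfl
    rw [h2, smul_smul, mul_comm, hkm, ← Nat.cast_smul_eq_nsmul ℚ (k + 1)]
    push_cast
    rfl
  rw [h1]
  exact mem_nsmul k t.2

omit [Module ℚ V] in
theorem zero_notMem {S : AddSubsemigroup V} (hid : ∀ f : S, f + f ≠ f) : (0 : V) ∉ S := by
  intro h
  apply hid ⟨0, h⟩
  apply Subtype.ext
  show (0 : V) + 0 = 0
  exact add_zero 0

/-- a nonzero nonnegative rational functional forces `S = ℚ_{>0}` -/
theorem iso_of_functional {S : AddSubsemigroup V} (hspan : Submodule.span ℚ (S : Set V) = ⊤)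
    (hS : SolvesQ1 S) (f : V →ₗ[ℚ] ℚ) (hf0 : f ≠ 0) (hf : ∀ s ∈ S, 0 ≤ f s) :
    Nonempty (S ≃+ {q : ℚ // 0 < q}) := by
  let F : S →ₙ+ {q : ℚ // 0 ≤ q} :=
    { toFun := fun s => ⟨f s, hf s s.2⟩
      map_add' := fun s t => Subtype.ext (by
        show f ((s : V) + (t : V)) = f s + f t
        rw [map_add]) }
  apply eq_rat_of_functional hS F
  by_contra hall
  push Not at hall
  apply hf0
  apply LinearMap.ext_on (s := (S : Set V)) hspan
  intro s hs
  have := congrArg Subtype.val (hall ⟨s, hs⟩)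
  exact this

/-- if a linear functional has no zero on `S` it has constant sign on `S` -/
theorem const_sign {S : AddSubsemigroup V} (hdiv : UniquelyDivisible S) (f : V →ₗ[ℚ] ℚ)
    (hf : ∀ s ∈ S, f s ≠ 0) : (∀ s ∈ S, 0 ≤ f s) ∨ (∀ s ∈ S, 0 ≤ (-f) s) := by
  by_contra hcon
  push Not at hcon
  obtain ⟨⟨s, hs, hs0⟩, ⟨t, ht, ht0⟩⟩ := hcon
  rw [LinearMap.neg_apply, neg_lt_zero] at ht0
  apply hf ((f t) • s + (-f s) • t)
  · exact S.add_mem (mem_pos_smul hdiv ht0 hs) (mem_pos_smul hdiv (neg_pos.2 hs0) ht)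
  · rw [map_add, map_smul, map_smul, smul_eq_mul, smul_eq_mul]
    ring

theorem finrank_le_one_of_iso {S : AddSubsemigroup V}
    (hspan : Submodule.span ℚ (S : Set V) = ⊤) (e : S ≃+ {q : ℚ // 0 < q}) :
    Module.finrank ℚ V ≤ 1 := by
  let s₀ : S := e.symm ⟨1, one_pos⟩
  apply finrank_le_one (s₀ : V)
  have hle : (⊤ : Submodule ℚ V) ≤ Submodule.span ℚ {(s₀ : V)} := by
    rw [← hspan, Submodule.span_le]
    intro s hs
    obtain ⟨k, m, hkm⟩ := exists_nat_ratio (e ⟨s, hs⟩) 1 (e ⟨s, hs⟩).2 one_pos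
    have h1 : multiple m (⟨s, hs⟩ : S) = multiple k s₀ := by
      apply e.injective
      have a1 : e (multiple m (⟨s, hs⟩ : S)) = multiple m (e ⟨s, hs⟩) := multiple_map e m _
      have a2 : e (multiple k s₀) = multiple k (e s₀) := multiple_map e k _
      rw [a1, a2]
      apply Subtype.ext
      rw [coe_multiple_pos, coe_multiple_pos, hkm]
      show _ = ((k : ℚ) + 1) * ((e (e.symm ⟨1, one_pos⟩) : {q : ℚ // 0 < q}) : ℚ)
      rw [e.apply_symm_apply]
    have h2 := congrArg Subtype.val h1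
    rw [coe_multiple_sub, coe_multiple_sub] at h2
    have h3 : s = (((k : ℚ) + 1) / (m + 1)) • (s₀ : V) := by
      have h4 : ((m : ℚ) + 1) • s = ((k : ℚ) + 1) • (s₀ : V) := by
        have h5 : (m + 1) • s = (k + 1) • (s₀ : V) := h2
        rw [← Nat.cast_smul_eq_nsmul ℚ, ← Nat.cast_smul_eq_nsmul ℚ] at h5
        push_cast at h5
        exact h5
      have hm : ((m : ℚ) + 1) ≠ 0 := by positivity
      rw [div_eq_inv_mul, mul_smul, ← h4, smul_smul, inv_mul_cancel₀ hm, one_smul]
    rw [h3]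
    exact Submodule.smul_mem _ _ (Submodule.mem_span_singleton_self _)
  intro w
  obtain ⟨c, hc⟩ := Submodule.mem_span_singleton.1 (hle (Submodule.mem_top (x := w)))
  exact ⟨c, hc⟩

/-- In rank two every nonzero vector or its opposite lies in `S`. -/
theorem total_of_rank_two {S : AddSubsemigroup V} (hspan : Submodule.span ℚ (S : Set V) = ⊤)
    (hrank : Module.finrank ℚ V = 2) (hS : SolvesQ1 S) (v : V) (hv : v ≠ 0) : v ∈ S ∨ -v ∈ S := by
  obtain ⟨-, hdiv, hid, -⟩ := solvesQ1_iff.1 hS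
  by_contra hcon
  push Not at hcon
  have hfin : FiniteDimensional ℚ V := Module.finite_of_finrank_eq_succ hrank
  have hlt : Submodule.span ℚ {v} < ⊤ := by
    rw [lt_top_iff_ne_top]
    intro h
    have h1 : Module.finrank ℚ (Submodule.span ℚ {v}) = 1 := finrank_span_singleton hv
    rw [h, finrank_top, hrank] at h1
    omega
  obtain ⟨f, hf0, hker⟩ := Submodule.exists_le_ker_of_lt_top _ hlt
  have hkereq : Submodule.span ℚ {v} = LinearMap.ker f := by
    apply Submodule.eq_of_le_of_finrank_eq hker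
    have h1 : Module.finrank ℚ (Submodule.span ℚ {v}) = 1 := finrank_span_singleton hv
    have h2 := LinearMap.finrank_range_add_finrank_ker f
    have h3 : LinearMap.range f = ⊤ := by
      rw [LinearMap.range_eq_top]
      exact LinearMap.surjective_of_ne_zero hf0
    rw [h3, finrank_top, hrank, Module.finrank_self] at h2
    omega
  have hfS : ∀ s ∈ S, f s ≠ 0 := by
    intro s hs h0
    have h1 : s ∈ Submodule.span ℚ {v} := by
      rw [hkereq, LinearMap.mem_ker]
      exact h0
    obtain ⟨q, rfl⟩ := Submodule.mem_span_singleton.1 h1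
    rcases lt_trichotomy q 0 with h | h | h
    · apply hcon.2
      have := mem_pos_smul hdiv (q := -q⁻¹) (by rw [Left.neg_pos_iff]; exact inv_lt_zero.2 h) hs
      rwa [smul_smul, neg_mul, inv_mul_cancel₀ h.ne, neg_smul, one_smul] at this
    · apply zero_notMem hid
      rw [h, zero_smul] at hs
      exact hs
    · apply hcon.1
      have := mem_pos_smul hdiv (q := q⁻¹) (inv_pos.2 h) hs
      rwa [smul_smul, inv_mul_cancel₀ h.ne', one_smul] at this
  rcases const_sign hdiv f hfS with h | h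
  · obtain ⟨e⟩ := iso_of_functional hspan hS f hf0 h
    have := finrank_le_one_of_iso hspan e
    omega
  · obtain ⟨e⟩ := iso_of_functional hspan hS (-f) (neg_ne_zero.2 hf0) h
    have := finrank_le_one_of_iso hspan e
    omega

theorem rank_one {S : AddSubsemigroup V} (hspan : Submodule.span ℚ (S : Set V) = ⊤)
    (hrank : Module.finrank ℚ V = 1) (hS : SolvesQ1 S) : Nonempty (S ≃+ {q : ℚ // 0 < q}) := by
  obtain ⟨-, hdiv, hid, -⟩ := solvesQ1_iff.1 hS
  have hfin : FiniteDimensional ℚ V := Module.finite_of_finrank_eq_succ hrank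
  obtain ⟨g⟩ : Nonempty (V ≃ₗ[ℚ] ℚ) := by
    apply FiniteDimensional.nonempty_linearEquiv_of_finrank_eq
    rw [hrank, Module.finrank_self]
  have hg0 : (g : V →ₗ[ℚ] ℚ) ≠ 0 := by
    intro h
    have h1 : g (g.symm 1) = 0 := LinearMap.congr_fun h _
    rw [g.apply_symm_apply] at h1
    exact one_ne_zero h1
  have hgS : ∀ s ∈ S, (g : V →ₗ[ℚ] ℚ) s ≠ 0 := by
    intro s hs h0
    have h1 : g s = 0 := h0
    have h2 : s = 0 := by simpa using h1
    rw [h2] at hs
    exact zero_notMem hid hs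
  rcases const_sign hdiv (g : V →ₗ[ℚ] ℚ) hgS with h | h
  · exact iso_of_functional hspan hS _ hg0 h
  · exact iso_of_functional hspan hS _ (neg_ne_zero.2 hg0) h

open Classical in
theorem rank_two {S : AddSubsemigroup V} (hspan : Submodule.span ℚ (S : Set V) = ⊤)
    (hrank : Module.finrank ℚ V = 2) (hS : SolvesQ1 S) :
    ∃ θ : ℝ, NonQuadratic θ ∧ Nonempty (S ≃+ {x : pair θ // 0 < x}) := by
  have htot := total_of_rank_two hspan hrank hS
  obtain ⟨hne, hdiv, hid, -⟩ := solvesQ1_iff.1 hS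
  have h0 := zero_notMem hid
  let C : AddGroupCone V :=
    { carrier := {v | v = 0 ∨ v ∈ S}
      zero_mem' := Or.inl rfl
      add_mem' := by
        rintro v w (rfl | hv) (rfl | hw)
        · left; simp
        · right; simpa using hw
        · right; simpa using hv
        · right; exact S.add_mem hv hw
      eq_zero_of_mem_of_neg_mem' := by
        rintro v (rfl | hv) (h | hw)
        · rfl
        · rfl
        · simpa using h
        · exfalso
          apply h0
          have := S.add_mem hv hw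
          rwa [add_neg_cancel] at this }
  have hmem : ∀ v : V, v ∈ C ↔ v = 0 ∨ v ∈ S := fun v => Iff.rfl
  have hmax : HasMemOrNegMem C := ⟨fun v => by
    by_cases hv : v = 0
    · left; exact Or.inl hv
    · rcases htot v hv with h | h
      · left; exact Or.inr h
      · right; exact Or.inr h⟩
  let _ : LinearOrder V := LinearOrder.mkOfAddGroupCone C
  have _ : IsOrderedAddMonoid V := IsOrderedAddMonoid.mkOfCone C
  have hle : ∀ a b : V, a ≤ b ↔ (b - a = 0 ∨ b - a ∈ S) := fun a b => Iff.rfl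
  have hlt : ∀ a : V, 0 < a ↔ a ∈ S := by
    intro a
    rw [lt_iff_le_and_ne, hle, sub_zero]
    constructor
    · rintro ⟨h | h, h'⟩
      · exact absurd h.symm h'
      · exact h
    · intro h
      refine ⟨Or.inr h, ?_⟩
      rintro rfl
      exact h0 h
  let E : S ≃+ {x : V // 0 < x} :=
    { toFun := fun s => ⟨s, (hlt s).2 s.2⟩
      invFun := fun x => ⟨x, (hlt x).1 x.2⟩
      left_inv := fun s => rfl
      right_inv := fun x => rfl
      map_add' := fun s t => rfl }
  obtain ⟨A, hA, ⟨g⟩⟩ := rigid_of_solvesQ1 (hS.congr E)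
  obtain ⟨s₁⟩ := hne
  have hs₁ : (s₁ : V) ≠ 0 := fun h => h0 (h ▸ s₁.2)
  have hgpos : ∀ x : V, 0 < x → (0 : ℝ) < (g x : ℝ) := by
    intro x hx
    have h1 : g 0 < g x := by
      rw [lt_iff_le_not_ge]
      exact ⟨(map_le_map_iff g).2 hx.le, fun h => absurd ((map_le_map_iff g).1 h) (not_le.mpr hx)⟩
    rw [map_zero] at h1
    exact h1
  set r : ℝ := (g (s₁ : V) : ℝ) with hr
  have hrpos : 0 < r := hgpos _ ((hlt _).2 s₁.2)
  -- a second basis vector
  obtain ⟨v₂, hv₂⟩ : ∃ v₂ : V, v₂ ∉ Submodule.span ℚ {(s₁ : V)} := by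
    by_contra hall
    push Not at hall
    have h1 : Submodule.span ℚ {(s₁ : V)} = ⊤ := by
      rw [eq_top_iff]
      exact fun v _ => hall v
    have h2 : Module.finrank ℚ (Submodule.span ℚ {(s₁ : V)}) = 1 := finrank_span_singleton hs₁
    rw [h1, finrank_top, hrank] at h2
    omega
  have hfin : FiniteDimensional ℚ V := Module.finite_of_finrank_eq_succ hrank
  have hli : LinearIndependent ℚ ![(s₁ : V), v₂] := by
    rw [LinearIndependent.pair_iff' hs₁]
    intro a ha
    exact hv₂ (Submodule.mem_span_singleton.2 ⟨a, ha⟩)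
  have hspan2 : ∀ v : V, ∃ a b : ℚ, v = a • (s₁ : V) + b • v₂ := by
    intro v
    have h1 : Submodule.span ℚ (Set.range ![(s₁ : V), v₂]) = ⊤ :=
      hli.span_eq_top_of_card_eq_finrank' (by rw [hrank]; simp)
    have h2 : v ∈ Submodule.span ℚ (Set.range ![(s₁ : V), v₂]) := by
      rw [h1]; exact Submodule.mem_top
    have h3 : Set.range ![(s₁ : V), v₂] = {(s₁ : V), v₂} := by
      ext w
      simp only [Matrix.range_cons, Matrix.range_empty, Set.union_empty, Set.singleton_union]
    rw [h3, Submodule.mem_span_pair] at h2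
    obtain ⟨a, b, hab⟩ := h2
    exact ⟨a, b, hab.symm⟩
  -- linearity
  let gR : V →+ ℝ := A.subtype.comp (g : V ≃+ A).toAddMonoidHom
  have hgR : ∀ v, gR v = (g v : ℝ) := fun _ => rfl
  have hlin : ∀ (a : ℚ) (v : V), (g (a • v) : ℝ) = a * (g v : ℝ) := by
    intro a v
    rw [← hgR, ← hgR, map_rat_smul gR a v, Rat.smul_def]
  have hadd : ∀ v w : V, (g (v + w) : ℝ) = (g v : ℝ) + (g w : ℝ) := by
    intro v w
    rw [← hgR, ← hgR, ← hgR, map_add]
  have hginj : ∀ v : V, (g v : ℝ) = 0 → v = 0 := by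
    intro v hv
    apply g.injective
    rw [map_zero]
    exact Subtype.ext hv
  set θ : ℝ := (g v₂ : ℝ) / r with hθ
  have hform : ∀ a b : ℚ, (g (a • (s₁ : V) + b • v₂) : ℝ) = r * (a + b * θ) := by
    intro a b
    rw [hadd, hlin, hlin, hθ, ← hr]
    field_simp
  have hApair : ∀ x : ℝ, x ∈ pair θ ↔ r * x ∈ A := by
    intro x
    constructor
    · rintro ⟨a, b, rfl⟩
      rw [← hform]
      exact (g _).2
    · intro hx
      obtain ⟨a, b, hab⟩ := hspan2 (g.symm ⟨r * x, hx⟩)
      have h1 : (g (g.symm ⟨r * x, hx⟩) : ℝ) = r * x := by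
        have : g (g.symm ⟨r * x, hx⟩) = ⟨r * x, hx⟩ := g.apply_symm_apply _
        rw [this]
      rw [hab, hform] at h1
      exact ⟨a, b, (mul_left_cancel₀ hrpos.ne' h1).symm⟩
  have hirr : ∀ a b : ℚ, (a : ℝ) + b * θ = 0 → a = 0 ∧ b = 0 := by
    intro a b hab
    have h1 : a • (s₁ : V) + b • v₂ = 0 := by
      apply hginj
      rw [hform, hab, mul_zero]
    exact LinearIndependent.pair_iff.1 hli a b h1
  have hrig : IsRigid (pair θ) := by
    refine ⟨pair_ne_bot θ, fun t => ?_⟩
    rw [← hA.2 t]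
    constructor
    · intro h a ha
      have h1 : r⁻¹ * a ∈ pair θ := by
        rw [hApair, ← mul_assoc, mul_inv_cancel₀ hrpos.ne', one_mul]
        exact ha
      have h2 := (hApair _).1 (h _ h1)
      have e : r * (t * (r⁻¹ * a)) = t * a := by field_simp
      rwa [e] at h2
    · intro h x hx
      rw [hApair]
      have h1 := h _ ((hApair x).1 hx)
      have e : r * (t * x) = t * (r * x) := by ring
      rwa [e]
  refine ⟨θ, nonQuadratic_of hirr hrig, ?_⟩
  obtain ⟨e₁⟩ := (cone_iso_iff (B := A) (pair_ne_bot θ)).2 ⟨r, hrpos, hApair⟩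
  let e₂ : {x : V // 0 < x} ≃+ {x : A // 0 < x} :=
    { toFun := fun x => ⟨g x, hgpos x x.2⟩
      invFun := fun x => ⟨g.symm x, by
        by_contra hle'
        push Not at hle'
        rcases hle'.eq_or_lt with h | h
        · have h2 : (x : A) = 0 := by
            have := congrArg g h
            rw [map_zero] at this
            have h3 : g (g.symm (x : A)) = (x : A) := g.apply_symm_apply _
            rw [← h3]
            exact this
          exact x.2.ne' h2
        · have h1 := hgpos (-(g.symm (x : A))) (neg_pos.2 h)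
          have h2 : g (-(g.symm (x : A))) = -(x : A) := by
            rw [map_neg]
            congr 1
            exact g.apply_symm_apply _
          rw [h2] at h1
          have h3 : (0 : ℝ) < ((x : A) : ℝ) := x.2
          have h4 : ((-(x : A) : A) : ℝ) = -((x : A) : ℝ) := rfl
          rw [h4] at h1
          linarith⟩
      left_inv := fun x => Subtype.ext (g.symm_apply_apply _)
      right_inv := fun x => Subtype.ext (g.apply_symm_apply _)
      map_add' := fun x y => Subtype.ext (map_add g _ _) }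
  exact ⟨(E.trans e₂).trans e₁.symm⟩

end rank

end Pool.Agent.Helper142.RatEnd


namespace Pool.Agent.Helper142.RatEnd

section monoids

variable {V : Type u} [AddCommGroup V] [Module ℚ V]

omit [Module ℚ V] in
theorem coe_multiple_mon (M : AddSubmonoid V) (n : ℕ) (s : M) :
    ((multiple n s : M) : V) = (n + 1) • (s : V) := by
  induction n with
  | zero => simp [multiple]
  | succ n ih => rw [multiple, AddSubmonoid.coe_add, ih, succ_nsmul _ (n + 1)]

theorem nsmul_V_inj (n : ℕ) {v w : V} (h : (n + 1) • v = (n + 1) • w) : v = w := by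
  rw [← Nat.cast_smul_eq_nsmul ℚ, ← Nat.cast_smul_eq_nsmul ℚ] at h
  have hn : ((n + 1 : ℕ) : ℚ) ≠ 0 := by positivity
  exact smul_right_injective V hn h

theorem mon_smul {M : AddSubmonoid V} (hdiv : UniquelyDivisible M) {q : ℚ} (hq : 0 ≤ q)
    {s : V} (hs : s ∈ M) : q • s ∈ M := by
  rcases hq.eq_or_lt with rfl | hq
  · rw [zero_smul]; exact M.zero_mem
  obtain ⟨k, m, hkm⟩ := exists_nat_ratio q 1 hq one_pos
  rw [mul_one] at hkm
  obtain ⟨t, ht⟩ := (hdiv m).2 ⟨s, hs⟩
  have ht' := congrArg Subtype.val ht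
  rw [coe_multiple_mon] at ht'
  have h1 : q • s = (k + 1) • (t : V) := by
    have h2 : s = ((m : ℚ) + 1) • (t : V) := by
      have h3 : (m + 1) • (t : V) = s := ht'
      rw [← h3, ← Nat.cast_smul_eq_nsmul ℚ]
      push_cast
      rfl
    rw [h2, smul_smul, mul_comm, hkm, ← Nat.cast_smul_eq_nsmul ℚ (k + 1)]
    push_cast
    rfl
  rw [h1]
  exact M.nsmul_mem t.2 _

/-- A cancellative solution of Q2 has no nonzero invertible element. -/
theorem no_units {M : AddSubmonoid V} (hM : SolvesQ2 M) {v : V} (h1 : v ∈ M) (h2 : -v ∈ M) :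
    v = 0 := by
  obtain ⟨z, hz, -, -, hdiv, hrat⟩ := solvesQ2_iff.1 hM
  have hz0 : z = 0 := by
    have := hz 0
    rwa [add_zero] at this
  subst hz0
  by_contra hv
  obtain ⟨f, hf⟩ : ∃ f : V →ₗ[ℚ] ℚ, f v = 1 := by
    obtain ⟨f, hf⟩ : ∃ f : Module.Dual ℚ V, f v ≠ 0 := by
      by_contra hall
      push Not at hall
      exact hv ((Module.forall_dual_apply_eq_zero_iff ℚ v).1 hall)
    refine ⟨(f v)⁻¹ • f, ?_⟩
    rw [LinearMap.smul_apply, smul_eq_mul, inv_mul_cancel₀ hf]
  have hmem : ∀ q : ℚ, q • v ∈ M := by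
    intro q
    rcases le_total 0 q with h | h
    · exact mon_smul hdiv h h1
    · have := mon_smul hdiv (neg_nonneg.2 h) h2
      rwa [neg_smul, smul_neg, neg_neg] at this
  let φ : M →ₙ+ M :=
    { toFun := fun s => ⟨(s : V) + (-(f s)) • v, M.add_mem s.2 (hmem _)⟩
      map_add' := fun s t => Subtype.ext (by
        show ((s : V) + (t : V)) + (-(f ((s : V) + (t : V)))) • v =
          ((s : V) + (-(f s)) • v) + ((t : V) + (-(f t)) • v)
        rw [map_add, neg_add, add_smul]
        abel) }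
  have hφ : ∀ s : M, (φ s : V) = (s : V) + (-(f s)) • v := fun _ => rfl
  have hφv : φ ⟨v, h1⟩ = 0 := by
    apply Subtype.ext
    rw [hφ]
    show v + (-(f v)) • v = 0
    rw [hf, neg_smul, one_smul, add_neg_cancel]
  have hφ0 : ∀ s, φ s = 0 := by
    rcases hrat φ with h | ⟨k, m, h⟩
    · exact h
    · exfalso
      have h3 := congrArg Subtype.val (h ⟨v, h1⟩)
      rw [coe_multiple_mon, coe_multiple_mon, hφv] at h3
      have h4 : (k + 1) • v = (k + 1) • (0 : V) := by
        rw [smul_zero]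
        have h5 : (m + 1) • (0 : V) = (k + 1) • v := h3
        rw [← h5, smul_zero]
      exact hv (nsmul_V_inj k h4)
  have hall : ∀ s : M, (s : V) = f s • v := by
    intro s
    have h3 := congrArg Subtype.val (hφ0 s)
    rw [hφ] at h3
    have h4 : (s : V) + (-(f s)) • v = 0 := h3
    rw [neg_smul, add_neg_eq_zero] at h4
    exact h4
  let ψ : M →ₙ+ M :=
    { toFun := fun s => ⟨-(s : V), by rw [hall s, ← neg_smul]; exact hmem _⟩
      map_add' := fun s t => Subtype.ext (by
        show -((s : V) + (t : V)) = -(s : V) + -(t : V)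
        abel) }
  have hψ : ∀ s : M, (ψ s : V) = -(s : V) := fun _ => rfl
  rcases hrat ψ with h | ⟨k, m, h⟩
  · have h3 := congrArg Subtype.val (h ⟨v, h1⟩)
    have h4 : -v = 0 := h3
    exact hv (neg_eq_zero.1 h4)
  · have h3 := congrArg Subtype.val (h ⟨v, h1⟩)
    rw [coe_multiple_mon, coe_multiple_mon, hψ] at h3
    have h4 : (m + 1) • (-v) = (k + 1) • v := h3
    have h5 : (m + 1 + (k + 1)) • v = 0 := by
      rw [add_smul, ← h4, smul_neg, add_neg_cancel]
    have h6 : ((m + 1 + k) + 1) • v = ((m + 1 + k) + 1) • (0 : V) := by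
      rw [smul_zero, ← h5]
      rfl
    exact hv (nsmul_V_inj _ h6)

/-- For submonoids of rational vector spaces, Q2 for `M` is Q1 for `M ∖ {0}`. -/
theorem q2_iff_q1 (M : AddSubmonoid V) :
    SolvesQ2 M ↔ ∃ S : AddSubsemigroup V, (∀ v, v ∈ S ↔ v ∈ M ∧ v ≠ 0) ∧ SolvesQ1 S := by
  constructor
  · intro hM
    obtain ⟨z, hz, ⟨s₀, hs₀⟩, -, hdiv, hrat⟩ := solvesQ2_iff.1 hM
    have hz0 : z = 0 := by
      have := hz 0
      rwa [add_zero] at this
    subst hz0
    let S : AddSubsemigroup V :=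
      { carrier := {v | v ∈ M ∧ v ≠ 0}
        add_mem' := by
          rintro v w ⟨hv, hv0⟩ ⟨hw, -⟩
          refine ⟨M.add_mem hv hw, fun h => hv0 ?_⟩
          apply no_units hM hv
          have : -v = w := by
            rw [neg_eq_iff_add_eq_zero]
            exact h
          rw [this]
          exact hw }
    have hmem : ∀ v, v ∈ S ↔ v ∈ M ∧ v ≠ 0 := fun v => Iff.rfl
    refine ⟨S, hmem, ?_⟩
    have hs₀' : (s₀ : V) ≠ 0 := fun h => hs₀ (Subtype.ext h)
    rw [solvesQ1_iff]
    refine ⟨⟨⟨s₀, s₀.2, hs₀'⟩⟩, ?_, ?_, ?_⟩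
    · intro n
      constructor
      · intro v w h
        apply Subtype.ext
        have h1 := congrArg Subtype.val h
        rw [coe_multiple_sub, coe_multiple_sub] at h1
        exact nsmul_V_inj n h1
      · intro v
        obtain ⟨t, ht⟩ := (hdiv n).2 ⟨v, v.2.1⟩
        have ht' := congrArg Subtype.val ht
        rw [coe_multiple_mon] at ht'
        have ht'' : (n + 1) • (t : V) = (v : V) := ht'
        have ht0 : (t : V) ≠ 0 := by
          intro h
          rw [h, smul_zero] at ht''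
          exact v.2.2 ht''.symm
        refine ⟨⟨t, t.2, ht0⟩, Subtype.ext ?_⟩
        rw [coe_multiple_sub]
        exact ht''
    · intro f hf
      have := congrArg Subtype.val hf
      rw [AddMemClass.coe_add] at this
      exact f.2.2 (by simpa using this)
    · intro φ
      classical
      let g : M → M := fun s => if h : (s : V) ≠ 0 then ⟨φ ⟨s, s.2, h⟩, (φ ⟨s, s.2, h⟩).2.1⟩ else 0
      have g1 : ∀ (s : M) (h : (s : V) ≠ 0), (g s : V) = φ ⟨s, s.2, h⟩ := fun s h => by
        simp only [g, dif_pos h]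
      have g2 : ∀ (s : M), (s : V) = 0 → g s = 0 := fun s h => by
        simp only [g, dif_neg (not_not.2 h)]
      have gadd : ∀ s t, g (s + t) = g s + g t := by
        intro s t
        by_cases hs : (s : V) = 0
        · have hs' : s = 0 := Subtype.ext hs
          rw [hs', zero_add, g2 0 rfl, zero_add]
        by_cases ht : (t : V) = 0
        · have ht' : t = 0 := Subtype.ext ht
          rw [ht', add_zero, g2 0 rfl, add_zero]
        apply Subtype.ext
        have hst : ((s + t : M) : V) ≠ 0 :=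
          (S.add_mem (show (s : V) ∈ S from ⟨s.2, hs⟩) (show (t : V) ∈ S from ⟨t.2, ht⟩)).2
        rw [AddSubmonoid.coe_add, g1 _ hs, g1 _ ht, g1 _ hst]
        exact congrArg Subtype.val (map_add φ ⟨s, s.2, hs⟩ ⟨t, t.2, ht⟩)
      rcases hrat ⟨g, gadd⟩ with h | ⟨k, m, h⟩
      · exfalso
        have h1 := congrArg Subtype.val (h s₀)
        have h2 : (g s₀ : V) = 0 := h1
        rw [g1 s₀ hs₀'] at h2
        exact (φ ⟨s₀, s₀.2, hs₀'⟩).2.2 h2
      · refine ⟨k, m, fun s => Subtype.ext ?_⟩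
        have h1 := congrArg Subtype.val (h ⟨s, s.2.1⟩)
        rw [coe_multiple_mon, coe_multiple_mon] at h1
        rw [coe_multiple_sub, coe_multiple_sub]
        have h2 : (g ⟨s, s.2.1⟩ : V) = φ s := g1 _ s.2.2
        rw [← h2]
        exact h1
  · rintro ⟨S, hmem, hS⟩
    obtain ⟨⟨s₀⟩, hdiv, -, hrat⟩ := solvesQ1_iff.1 hS
    have hs₀ := (hmem _).1 s₀.2
    rw [solvesQ2_iff]
    refine ⟨0, fun s => zero_add s, ⟨⟨s₀, hs₀.1⟩, fun h => hs₀.2 (congrArg Subtype.val h)⟩, ?_, ?_, ?_⟩
    · intro f hf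
      have := congrArg Subtype.val hf
      rw [AddSubmonoid.coe_add] at this
      exact Subtype.ext (by simpa using this)
    · intro n
      constructor
      · intro v w h
        apply Subtype.ext
        have h1 := congrArg Subtype.val h
        rw [coe_multiple_mon, coe_multiple_mon] at h1
        exact nsmul_V_inj n h1
      · intro v
        by_cases hv : (v : V) = 0
        · refine ⟨0, Subtype.ext ?_⟩
          rw [coe_multiple_mon, hv]
          show (n + 1) • (0 : V) = 0
          rw [smul_zero]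
        · obtain ⟨t, ht⟩ := (hdiv n).2 ⟨v, (hmem _).2 ⟨v.2, hv⟩⟩
          have ht' := congrArg Subtype.val ht
          rw [coe_multiple_sub] at ht'
          refine ⟨⟨t, ((hmem _).1 t.2).1⟩, Subtype.ext ?_⟩
          rw [coe_multiple_mon]
          exact ht'
    · intro φ
      have hφ0 : φ 0 = 0 := by
        have h1 : φ 0 + φ 0 = φ 0 := by rw [← map_add, add_zero]
        have h2 := congrArg Subtype.val h1
        rw [AddSubmonoid.coe_add] at h2
        exact Subtype.ext (by simpa using h2)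
      have hin : ∀ s : S, (s : V) ∈ M := fun s => ((hmem _).1 s.2).1
      have hψmem : ∀ s : S, (s : V) + (φ ⟨s, hin s⟩ : V) ∈ S := by
        intro s
        by_cases h : (φ ⟨s, hin s⟩ : V) = 0
        · rw [h, add_zero]
          exact s.2
        · exact S.add_mem s.2 ((hmem _).2 ⟨(φ ⟨s, hin s⟩).2, h⟩)
      let ψ : S →ₙ+ S :=
        { toFun := fun s => ⟨(s : V) + (φ ⟨s, hin s⟩ : V), hψmem s⟩
          map_add' := fun s t => Subtype.ext (by
            have h1 := congrArg Subtype.val (map_add φ ⟨s, hin s⟩ ⟨t, hin t⟩)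
            rw [AddSubmonoid.coe_add] at h1
            have h2 : (φ ⟨((s + t : S) : V), hin (s + t)⟩ : V) =
              (φ ⟨s, hin s⟩ : V) + (φ ⟨t, hin t⟩ : V) := h1
            show ((s : V) + (t : V)) + (φ ⟨((s + t : S) : V), hin (s + t)⟩ : V) =
              ((s : V) + _) + ((t : V) + _)
            rw [h2]
            abel) }
      have hψ : ∀ s : S, (ψ s : V) = (s : V) + (φ ⟨s, hin s⟩ : V) := fun _ => rfl
      obtain ⟨k, m, hkm⟩ := hrat ψ
      have hrel : ∀ s : S, (m + 1) • (s : V) + (m + 1) • (φ ⟨s, hin s⟩ : V) = (k + 1) • (s : V) := by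
        intro s
        have h1 := congrArg Subtype.val (hkm s)
        rw [coe_multiple_sub, coe_multiple_sub, hψ, smul_add] at h1
        exact h1
      rcases lt_trichotomy k m with hlt | heq | hgt
      · exfalso
        obtain ⟨d, hd⟩ : ∃ d, m + 1 = (k + 1) + (d + 1) := ⟨m - k - 1, by omega⟩
        have h1 := hrel s₀
        have h2 : (d + 1) • (s₀ : V) + (m + 1) • (φ ⟨s₀, hin s₀⟩ : V) = 0 := by
          have h3 : (m + 1) • (s₀ : V) = (k + 1) • (s₀ : V) + (d + 1) • (s₀ : V) := by
            rw [← add_smul, ← hd]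
          rw [h3, add_assoc] at h1
          exact left_eq_add.1 h1.symm
        have h4 : (d + 1) • (s₀ : V) ∈ S := mem_nsmul d s₀.2
        by_cases h : (φ ⟨s₀, hin s₀⟩ : V) = 0
        · rw [h, smul_zero, add_zero] at h2
          exact ((hmem _).1 h4).2 h2
        · have h5 : (m + 1) • (φ ⟨s₀, hin s₀⟩ : V) ∈ S :=
            mem_nsmul m ((hmem _).2 ⟨(φ ⟨s₀, hin s₀⟩).2, h⟩)
          exact ((hmem _).1 (S.add_mem h4 h5)).2 h2
      · left
        intro s
        by_cases hs : (s : V) = 0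
        · have : s = 0 := Subtype.ext hs
          rw [this, hφ0]
        · have h1 := hrel ⟨s, (hmem _).2 ⟨s.2, hs⟩⟩
          rw [heq] at h1
          have h2 : (m + 1) • (φ s : V) = (m + 1) • (0 : V) := by
            rw [smul_zero]
            exact left_eq_add.1 h1.symm
          exact Subtype.ext (nsmul_V_inj m h2)
      · right
        obtain ⟨d, hd⟩ : ∃ d, k + 1 = (m + 1) + (d + 1) := ⟨k - m - 1, by omega⟩
        refine ⟨d, m, fun s => Subtype.ext ?_⟩
        rw [coe_multiple_mon, coe_multiple_mon]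
        by_cases hs : (s : V) = 0
        · have : s = 0 := Subtype.ext hs
          rw [this, hφ0]
          show (m + 1) • (0 : V) = (d + 1) • (0 : V)
          rw [smul_zero, smul_zero]
        · have h1 := hrel ⟨s, (hmem _).2 ⟨s.2, hs⟩⟩
          rw [hd, add_smul (m + 1) (d + 1)] at h1
          exact add_left_cancel h1

end monoids

end Pool.Agent.Helper142.RatEnd


namespace Pool.Agent.Helper142.RatEnd

section borel

open Filter Topology

theorem countable_class {θ : ℝ} (h : NonQuadratic θ) :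
    {θ' : ℝ | NonQuadratic θ' ∧
      Nonempty ({x : pair θ // 0 < x} ≃+ {x : pair θ' // 0 < x})}.Countable := by
  refine (Set.countable_range (fun q : ℚ × ℚ × ℚ × ℚ =>
    ((q.1 : ℝ) * θ + q.2.1) / (q.2.2.1 * θ + q.2.2.2))).mono ?_
  rintro θ' ⟨h', he⟩
  obtain ⟨a, b, c, d, -, hθ'⟩ := (pair_iso_iff h h').1 he
  exact ⟨(a, b, c, d), hθ'.symm⟩

theorem countable_quadratic : {θ : ℝ | ¬ NonQuadratic θ}.Countable := by
  refine (Algebraic.countable ℚ ℝ).mono ?_
  intro θ hθ
  have hθ' : ¬ NonQuadratic θ := hθ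
  unfold NonQuadratic at hθ'
  push Not at hθ'
  obtain ⟨a, b, c, h0, hne⟩ := hθ'
  refine ⟨Polynomial.C a * Polynomial.X ^ 2 + Polynomial.C b * Polynomial.X + Polynomial.C c, ?_, ?_⟩
  · intro hP
    have h2 := congrArg (fun P => Polynomial.coeff P 2) hP
    have h1 := congrArg (fun P => Polynomial.coeff P 1) hP
    have h00 := congrArg (fun P => Polynomial.coeff P 0) hP
    simp [Polynomial.coeff_X, Polynomial.coeff_C] at h2 h1 h00
    exact hne h2 h1 h00
  · simp only [map_add, map_mul, Polynomial.aeval_C, map_pow, Polynomial.aeval_X]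
    exact h0

theorem pair_translate (θ : ℝ) (q : ℚ) : pair (θ + q) = pair θ := by
  ext r
  constructor
  · rintro ⟨a, b, rfl⟩
    exact ⟨a + b * q, b, by push_cast; ring⟩
  · rintro ⟨a, b, rfl⟩
    exact ⟨a - b * q, b, by push_cast; ring⟩

theorem NonQuadratic.translate {θ : ℝ} (h : NonQuadratic θ) (q : ℚ) : NonQuadratic (θ + q) := by
  intro a b c habc
  obtain ⟨h1, h2, h3⟩ := h a (2 * a * q + b) (a * q ^ 2 + b * q + c) (by
    push_cast
    linear_combination habc)
  subst h1
  have hb : b = 0 := by linarith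
  subst hb
  have hc : c = 0 := by linarith
  exact ⟨rfl, rfl, hc⟩

theorem countable_compl_residual {s : Set ℝ} (hs : s.Countable) : sᶜ ∈ residual ℝ := by
  have h : sᶜ = ⋂ x ∈ s, {x}ᶜ := by
    ext y
    simp only [Set.mem_compl_iff, Set.mem_iInter, Set.mem_singleton_iff]
    constructor
    · intro hy x hx hyx
      rw [hyx] at hy
      exact hy hx
    · intro h hy
      exact h y hy rfl
  rw [h]
  apply (countable_bInter_mem hs).2
  intro x _
  exact residual_of_dense_open isOpen_compl_singleton (dense_compl_singleton x)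

/-- There is no Borel assignment of complete invariants (in a countably separated Borel space) to
the solutions `(ℚ + ℚ θ)_{>0}`. -/
theorem no_borel_invariant {Y : Type v} [MeasurableSpace Y] [MeasurableSpace.CountablySeparated Y]
    (I : ℝ → Y) (hI : Measurable I) :
    ¬ ∀ θ θ' : ℝ, NonQuadratic θ → NonQuadratic θ' →
      (Nonempty ({x : pair θ // 0 < x} ≃+ {x : pair θ' // 0 < x}) ↔ I θ = I θ') := by
  intro H
  have hNQ : ∀ᶠ θ in residual ℝ, NonQuadratic θ := by
    have := countable_compl_residual countable_quadratic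
    filter_upwards [this] with θ hθ
    exact not_not.1 hθ
  have hinv : ∀ (q : ℚ) (θ : ℝ), NonQuadratic θ → I (θ + q) = I θ := by
    intro q θ hθ
    symm
    rw [← H θ (θ + q) hθ (hθ.translate q), pair_translate]
    exact ⟨AddEquiv.refl _⟩
  have : Nonempty Y := ⟨I 0⟩
  have hsep : HasCountableSeparatingOn Y MeasurableSet Set.univ :=
    MeasurableSpace.CountablySeparated.countably_separated
  obtain ⟨a, ha⟩ : ∃ a, I =ᶠ[residual ℝ] Function.const ℝ a := by
    apply Filter.exists_eventuallyEq_const_of_forall_separating MeasurableSet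
    intro U hU
    obtain ⟨u, hu, hAu⟩ := (hI hU).residualEq_isOpen
    have hAu' : ∀ᶠ θ in residual ℝ, (I θ ∈ U ↔ θ ∈ u) := by
      rw [Filter.eventuallyEq_set] at hAu
      exact hAu
    rcases u.eq_empty_or_nonempty with rfl | hne
    · right
      filter_upwards [hAu'] with θ hθ h
      exact (hθ.1 h).elim
    · left
      have hdense : Dense u := by
        rw [dense_iff_inter_open]
        intro W hW hWne
        by_contra hemp
        rw [Set.not_nonempty_iff_eq_empty] at hemp
        obtain ⟨y, hy⟩ := hne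
        obtain ⟨w, hw⟩ := hWne
        obtain ⟨q, hq⟩ : ∃ q : ℚ, y + q ∈ W := by
          have hopen : IsOpen {t : ℝ | y + t ∈ W} := hW.preimage (continuous_const.add continuous_id)
          have hnonempty : {t : ℝ | y + t ∈ W}.Nonempty := ⟨w - y, by
            show y + (w - y) ∈ W
            rw [add_sub_cancel]
            exact hw⟩
          obtain ⟨_, hz, ⟨q, rfl⟩⟩ := Rat.denseRange_cast.inter_open_nonempty _ hopen hnonempty
          exact ⟨q, hz⟩
        have htr : ∀ᶠ θ in residual ℝ, (I (θ + q) ∈ U ↔ θ + q ∈ u) := by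
          have h1 := (Homeomorph.addRight (q : ℝ)).residual_map_eq
          have h2 : ∀ᶠ θ in (residual ℝ).map (Homeomorph.addRight (q : ℝ)), (I θ ∈ U ↔ θ ∈ u) := by
            rw [h1]
            exact hAu'
          exact h2
        have hres : {t : ℝ | t ∈ u ↔ t + q ∈ u} ∈ residual ℝ := by
          filter_upwards [hNQ, hAu', htr] with t ht1 ht2 ht3
          rw [← ht2, ← ht3, hinv q t ht1]
        have hopen : IsOpen (u ∩ {t : ℝ | t + q ∈ W}) :=
          hu.inter (hW.preimage (continuous_id.add continuous_const))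
        obtain ⟨t, ⟨ht1, ht2⟩, ht3⟩ := (dense_of_mem_residual hres).inter_open_nonempty _ hopen
          ⟨y, hy, hq⟩
        have ht4 : t + q ∈ u := (show t ∈ u ↔ t + q ∈ u from ht3).1 ht1
        have ht5 : t + (q : ℝ) ∈ W ∩ u := ⟨ht2, ht4⟩
        rw [hemp] at ht5
        exact ht5
      filter_upwards [hAu', residual_of_dense_open hu hdense] with θ h1 h2
      exact h1.2 h2
  obtain ⟨θ, hθ1, hθ2⟩ : ∃ θ : ℝ, NonQuadratic θ ∧ I θ = a := by
    have h1 : {θ : ℝ | NonQuadratic θ ∧ I θ = a} ∈ residual ℝ := by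
      filter_upwards [hNQ, ha] with θ h1 h2
      exact ⟨h1, h2⟩
    exact (dense_of_mem_residual h1).nonempty
  obtain ⟨θ', hθ'1, hθ'2, hθ'3⟩ : ∃ θ' : ℝ, NonQuadratic θ' ∧ I θ' = a ∧
      θ' ∉ {θ' : ℝ | NonQuadratic θ' ∧
        Nonempty ({x : pair θ // 0 < x} ≃+ {x : pair θ' // 0 < x})} := by
    have h1 : {θ' : ℝ | NonQuadratic θ' ∧ I θ' = a ∧ θ' ∉ {θ' : ℝ | NonQuadratic θ' ∧
        Nonempty ({x : pair θ // 0 < x} ≃+ {x : pair θ' // 0 < x})}} ∈ residual ℝ := by
      filter_upwards [hNQ, ha, countable_compl_residual (countable_class hθ1)] with θ' h1 h2 h3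
      exact ⟨h1, h2, h3⟩
    exact (dense_of_mem_residual h1).nonempty
  exact hθ'3 ⟨hθ'1, (H θ θ' hθ1 hθ'1).2 (hθ2.trans hθ'2.symm)⟩

end borel

end Pool.Agent.Helper142.RatEnd

namespace Pool.Agent.Helper142.RatEnd

section abstractRank

variable {S : Type v} [AddCommSemigroup S] {V : Type u} [AddCommGroup V] [Module ℚ V]

/-- an injective homomorphism identifies `S` with its image -/
noncomputable def imageEquiv (i : S →ₙ+ V) (hi : Function.Injective i) : S ≃+ AddHom.srange i :=
  AddEquiv.ofBijective (AddHom.srangeRestrict i)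
    ⟨fun _ _ h => hi (congrArg Subtype.val h), AddHom.srangeRestrict_surjective i⟩

theorem span_image {i : S →ₙ+ V} (h : Submodule.span ℚ (Set.range i) = ⊤) :
    Submodule.span ℚ ((AddHom.srange i : AddSubsemigroup V) : Set V) = ⊤ := by
  rw [AddHom.coe_srange]
  exact h

theorem solvesQ1_rat : SolvesQ1 {q : ℚ // 0 < q} := by
  let f : ℚ →+ ℝ := (Rat.castHom ℝ).toAddMonoidHom
  have hf : ∀ q, f q = (q : ℝ) := fun _ => rfl
  apply solvesQ1_of_rigid f
  · intro q hq
    rw [hf]
    exact_mod_cast hq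
  · constructor
    · intro h
      have h1 : f 1 ∈ f.range := ⟨1, rfl⟩
      rw [h, AddSubgroup.mem_bot, hf] at h1
      simp at h1
    · intro r
      constructor
      · intro hr
        obtain ⟨q, hq⟩ := hr (f 1) ⟨1, rfl⟩
        refine ⟨q, ?_⟩
        rw [hf, hf, Rat.cast_one, mul_one] at hq
        exact hq
      · rintro ⟨q, rfl⟩ _ ⟨p, rfl⟩
        exact ⟨q * p, by rw [hf, hf, Rat.cast_mul]⟩

theorem solvesQ1_pair {θ : ℝ} (h : NonQuadratic θ) : SolvesQ1 {x : pair θ // 0 < x} :=
  solvesQ1_of_orderIso (pair θ) (pair_rigid h) (OrderAddMonoidIso.refl _)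

theorem rank_one_iff (i : S →ₙ+ V) (hi : Function.Injective i)
    (hspan : Submodule.span ℚ (Set.range i) = ⊤) (hrank : Module.finrank ℚ V = 1) :
    SolvesQ1 S ↔ Nonempty (S ≃+ {q : ℚ // 0 < q}) := by
  constructor
  · intro hS
    obtain ⟨e⟩ := rank_one (span_image hspan) hrank (hS.congr (imageEquiv i hi))
    exact ⟨(imageEquiv i hi).trans e⟩
  · rintro ⟨e⟩
    exact solvesQ1_rat.congr e.symm

theorem rank_two_iff (i : S →ₙ+ V) (hi : Function.Injective i)
    (hspan : Submodule.span ℚ (Set.range i) = ⊤) (hrank : Module.finrank ℚ V = 2) :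
    SolvesQ1 S ↔ ∃ θ : ℝ, NonQuadratic θ ∧ Nonempty (S ≃+ {x : pair θ // 0 < x}) := by
  constructor
  · intro hS
    obtain ⟨θ, hθ, ⟨e⟩⟩ := rank_two (span_image hspan) hrank (hS.congr (imageEquiv i hi))
    exact ⟨θ, hθ, ⟨(imageEquiv i hi).trans e⟩⟩
  · rintro ⟨θ, hθ, ⟨e⟩⟩
    exact (solvesQ1_pair hθ).congr e.symm

end abstractRank

end Pool.Agent.Helper142.RatEnd
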